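import Mathlib

/-!
# Noncommutative `L^p`-spaces and eventually positive semigroups: definitions

`H` is a Hilbert space, `M` a von Neumann algebra on `H`.
-/

open Filter Topology
open scoped ENNReal NNReal

namespace NCLp

section Trace

variable {H : Type*} [NormedAddCommGroup H] [InnerProductSpace ℂ H] [CompleteSpace H]

/-- A normal, semi-finite, faithful trace on the von Neumann algebra `M` (a weight
`M₊ → [0,∞]`; only the values of `tr` on positive elements of `M` matter). -/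
structure NSFTrace (M : VonNeumannAlgebra H) where
  tr : (H →L[ℂ] H) → ℝ≥0∞
  add : ∀ x ∈ M, ∀ y ∈ M, 0 ≤ x → 0 ≤ y → tr (x + y) = tr x + tr y
  smul : ∀ (c : ℝ≥0), ∀ x ∈ M, 0 ≤ x → tr ((c : ℂ) • x) = (c : ℝ≥0∞) * tr x
  trace : ∀ x ∈ M, tr (star x * x) = tr (x * star x)
  faithful : ∀ x ∈ M, 0 ≤ x → tr x = 0 → x = 0
  normal : ∀ (D : Set (H →L[ℂ] H)) (x : H →L[ℂ] H), D.Nonempty →
    DirectedOn (· ≤ ·) D → (∀ d ∈ D, d ∈ M ∧ 0 ≤ d) → x ∈ M → IsLUB D x →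
    tr x = ⨆ d ∈ D, tr d
  semifinite : ∀ x ∈ M, 0 ≤ x → x ≠ 0 → ∃ y ∈ M, 0 ≤ y ∧ y ≤ x ∧ y ≠ 0 ∧ tr y < ∞

/-- `|x|^p = (x* x)^{p/2}` (continuous functional calculus). -/
noncomputable def absPow (p : ℝ) (x : H →L[ℂ] H) : H →L[ℂ] H := (star x * x) ^ (p / 2)

variable {M : VonNeumannAlgebra H}

/-- The elements `x` of `M` with `τ(|x|^p) < ∞`. -/
def NSFTrace.finElts (τ : NSFTrace M) (p : ℝ) : Set (H →L[ℂ] H) :=
  {x | x ∈ M ∧ τ.tr (absPow p x) < ∞}

/-- `E`, with the map `ι`, is the noncommutative space `L^p(M,τ)`: `ι` is linear on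
`{x ∈ M : τ(|x|^p) < ∞}`, satisfies `‖ι x‖ = τ(|x|^p)^{1/p}` there, and has dense image
(so that the Banach space `E` is the completion of `{x ∈ M : τ(|x|^p) < ∞}`). -/
structure IsLp (τ : NSFTrace M) (p : ℝ) (E : Type*) [NormedAddCommGroup E] [NormedSpace ℂ E]
    (ι : (H →L[ℂ] H) → E) : Prop where
  map_add : ∀ x ∈ τ.finElts p, ∀ y ∈ τ.finElts p, ι (x + y) = ι x + ι y
  map_smul : ∀ (c : ℂ), ∀ x ∈ τ.finElts p, ι (c • x) = c • ι x
  norm_eq : ∀ x ∈ τ.finElts p, ‖ι x‖ = (τ.tr (absPow p x)).toReal ^ (1 / p)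
  dense : Dense (ι '' τ.finElts p)

/-- The positive cone of `L^p(M,τ)`: the closure of the positive elements of
`{x ∈ M : τ(|x|^p) < ∞}`. -/
def posCone (τ : NSFTrace M) (p : ℝ) {E : Type*} [NormedAddCommGroup E]
    (ι : (H →L[ℂ] H) → E) : Set E :=
  closure (ι '' {x | x ∈ τ.finElts p ∧ 0 ≤ x})

end Trace

section Semigroup

variable {E : Type*} [NormedAddCommGroup E] [NormedSpace ℂ E]

/-- A `C₀`-semigroup `(T t)_{t ≥ 0}` (the values for `t < 0` are irrelevant). -/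
structure C0Semigroup (E : Type*) [NormedAddCommGroup E] [NormedSpace ℂ E] where
  T : ℝ → E →L[ℂ] E
  map_zero : T 0 = 1
  map_add : ∀ s t : ℝ, 0 ≤ s → 0 ≤ t → T (s + t) = T s * T t
  cont : ∀ f : E, Tendsto (fun t => T t f) (𝓝[>] 0) (𝓝 f)

namespace C0Semigroup

/-- `f` is in the domain of the generator `A` and `A f = g`. -/
def IsGen (S : C0Semigroup E) (f g : E) : Prop :=
  Tendsto (fun t : ℝ => ((t⁻¹ : ℝ) : ℂ) • (S.T t f - f)) (𝓝[>] 0) (𝓝 g)

/-- The resolvent set of the generator `A`: those `z` for which `z - A : D(A) → E` is bijective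
with bounded inverse `R`. -/
def resolventSet (S : C0Semigroup E) : Set ℂ :=
  {z | ∃ R : E →L[ℂ] E, (∀ g, S.IsGen (R g) (z • R g - g)) ∧
    (∀ f g, S.IsGen f g → R (z • f - g) = f)}

/-- The spectral bound `s(A) = sup {Re z : z ∈ σ(A)}` (`= -∞` if the spectrum is empty). -/
noncomputable def spectralBound (S : C0Semigroup E) : EReal :=
  sSup ((fun z : ℂ => ((z.re : ℝ) : EReal)) '' (S.resolventSet)ᶜ)

/-- The growth bound `ω₀(A)`. -/
noncomputable def growthBound (S : C0Semigroup E) : EReal :=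
  sInf {ω : EReal | ∃ r : ℝ, ω = (r : EReal) ∧
    ∃ K : ℝ, ∀ t : ℝ, 0 ≤ t → ‖S.T t‖ ≤ K * Real.exp (r * t)}

/-- Individually eventually positive, with respect to the cone `C`. -/
def IndEvPos (S : C0Semigroup E) (C : Set E) : Prop :=
  ∀ f ∈ C, ∃ t₀ : ℝ, 0 ≤ t₀ ∧ ∀ t : ℝ, t₀ ≤ t → S.T t f ∈ C

end C0Semigroup

end Semigroup

end NCLp
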