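import Mathlib

/-!
# Abstract tracial C*-algebras, `L^4` and `L^{4/3}` norms, free families of projections
-/

open Filter Topology
open scoped ENNReal NNReal ComplexOrder

namespace NCLp

/-- A faithful tracial state on a C*-algebra. -/
structure TrState (A : Type*) [CStarAlgebra A] [PartialOrder A] [StarOrderedRing A] where
  τ : A →L[ℂ] ℂ
  one : τ 1 = 1
  comm : ∀ x y, τ (x * y) = τ (y * x)
  nonneg : ∀ x, 0 ≤ τ (star x * x)
  faithful : ∀ x, τ (star x * x) = 0 → x = 0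

variable {A : Type*} [CStarAlgebra A] [PartialOrder A] [StarOrderedRing A]

/-- the `L^2` norm squared -/
noncomputable def TrState.sq (t : TrState A) (x : A) : ℝ := (t.τ (star x * x)).re

/-- the `L^4` norm -/
noncomputable def TrState.n4 (t : TrState A) (x : A) : ℝ :=
  ((t.τ ((star x * x) * (star x * x))).re) ^ (1 / 4 : ℝ)

/-- the `L^{4/3}` norm -/
noncomputable def TrState.n43 (t : TrState A) (x : A) : ℝ :=
  ((t.τ ((star x * x) ^ (2 / 3 : ℝ))).re) ^ (3 / 4 : ℝ)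

variable {I : Type*}

/-- the centred projection `P i - 1 / N i` -/
noncomputable def cen (N : I → ℕ) (P : I → A) (i : I) : A :=
  P i - (((N i : ℝ)⁻¹ : ℝ) : ℂ) • (1 : A)

/-- A faithful tracial state `t`, a family of projections `P i` of trace `1 / N i`, with the
relations of free products of finite cyclic groups, and a norming family of states `ψ ξ`
satisfying the ping-pong inequalities. -/
structure FPD (A : Type*) [CStarAlgebra A] [PartialOrder A] [StarOrderedRing A]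
    (I : Type*) extends TrState A where
  N : I → ℕ
  N_ge : ∀ i, 16 ≤ N i
  P : I → A
  P_star : ∀ i, star (P i) = P i
  P_idem : ∀ i, P i * P i = P i
  tP : ∀ i, τ (P i) = (((N i : ℝ)⁻¹ : ℝ) : ℂ)
  alt2 : ∀ i j, i ≠ j → τ (cen N P i * cen N P j) = 0
  alt3 : ∀ i j k, i ≠ j → j ≠ k → τ (cen N P i * cen N P j * cen N P k) = 0
  alt4 : ∀ i j k l, i ≠ j → j ≠ k → k ≠ l →
    τ (cen N P i * cen N P j * cen N P k * cen N P l) = 0
  Ξ : Type
  ψ : Ξ → A →ₗ[ℝ] ℝ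
  ψ_one : ∀ ξ, ψ ξ 1 = 1
  ψ_nonneg : ∀ ξ x, 0 ≤ x → 0 ≤ ψ ξ x
  nonneg_of_ψ : ∀ x, IsSelfAdjoint x → (∀ ξ, 0 ≤ ψ ξ x) → 0 ≤ x
  pp : ∀ ξ, ∃ q : I → ℝ, (∀ i, 0 ≤ q i) ∧ (∀ s : Finset I, ∑ i ∈ s, q i ^ 2 ≤ 1) ∧
    (∀ i, ((N i : ℝ)⁻¹) - ψ ξ (P i) ≤ 3 * Real.sqrt ((N i : ℝ)⁻¹) * q i) ∧
    (∀ i, |ψ ξ (P i) - (N i : ℝ)⁻¹| ≤ 3 * q i)

/-- `φ i = n^{1/4} (P i - 1/n)`, `n = N i` -/
noncomputable def FPD.φ (F : FPD A I) (i : I) : A :=
  (((F.N i : ℝ) ^ (1 / 4 : ℝ) : ℝ) : ℂ) • cen F.N F.P i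

/-- `s i = n^{3/4} (P i - 1/n)`, `n = N i` -/
noncomputable def FPD.s (F : FPD A I) (i : I) : A :=
  (((F.N i : ℝ) ^ (3 / 4 : ℝ) : ℝ) : ℂ) • cen F.N F.P i

end NCLp
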