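import Pool.Agent.NCLp.Defs

open Filter Topology
open scoped ENNReal NNReal ComplexOrder

namespace NCLp

/-- An ordered Banach space with a unit and a strictly positive trace. -/
structure OBS (Y : Type*) [NormedAddCommGroup Y] [NormedSpace ℂ Y] where
  C : Set Y
  closed : IsClosed C
  add_mem : ∀ x ∈ C, ∀ y ∈ C, x + y ∈ C
  smul_mem : ∀ r : ℝ, 0 ≤ r → ∀ x ∈ C, (r : ℂ) • x ∈ C
  one : Y
  one_mem : one ∈ C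
  norm_one : ‖one‖ = 1
  tr : Y →L[ℂ] ℂ
  norm_tr : ∀ y, ‖tr y‖ ≤ ‖y‖
  tr_one : tr one = 1
  tr_nonneg : ∀ y ∈ C, 0 ≤ tr y
  tr_pos : ∀ y ∈ C, tr y = 0 → y = 0

/-- The data of the chain operator on `Y` (parameters: chain length `L`, cyclic order `m`,
absolute constant `c`, negativity `ε`). -/
structure ChainOp {Y : Type*} [NormedAddCommGroup Y] [NormedSpace ℂ Y] (O : OBS Y)
    (L m : ℕ) (c ε : ℝ) where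
  σ : Y →L[ℂ] Y
  σ_norm : ∀ y, ‖σ y‖ = ‖y‖
  σ_pow : σ ^ m = 1
  σ_mem : ∀ y ∈ O.C, σ y ∈ O.C
  σ_one : σ O.one = O.one
  σ_tr : ∀ y, O.tr (σ y) = O.tr y
  B : Y →L[ℂ] Y
  B_norm : ‖B‖ ≤ c
  B_comm : σ * B = B * σ
  B_one : B O.one = 0
  B_tr : ∀ y, O.tr (B y) = 0
  B_pow : B ^ L = 0
  neg : ∀ y ∈ O.C, B y + (((ε * ‖y‖ : ℝ)) : ℂ) • O.one ∈ O.C
  cyc : ∀ Z : ℂ, ‖Z‖ ≤ 1 → ‖((m : ℂ)⁻¹) • ∑ a ∈ Finset.range m, Z ^ a • (σ ^ a * B)‖ ≤ 1 / 22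
  z₀ : Y
  z₀_norm : ‖z₀‖ ≤ c
  h : Y →L[ℂ] ℂ
  h_norm : ‖h‖ ≤ c
  h_nonneg : ∀ d i : ℕ, 0 ≤ (h ((σ ^ d * B ^ i) z₀)).re
  h_big : (15 / 16 : ℝ) ^ L ≤ (h ((B ^ (L - 1)) z₀)).re

/-- What a block has to satisfy (`A` bounded operator on `Z`, `K, κ` absolute constants). -/
structure BlockOut {Z : Type*} [NormedAddCommGroup Z] [NormedSpace ℂ Z] (O : OBS Z)
    (A : Z →L[ℂ] Z) (L : ℕ) (K κ δ : ℝ) : Prop where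
  growth : ∀ t : ℝ, 0 ≤ t → ‖NormedSpace.exp ((t : ℂ) • A)‖ ≤ Real.exp (K * t)
  resolvent : ∀ z : ℂ, -(1 / 10) ≤ z.re → ∃ R : Z →L[ℂ] Z,
    R * (z • 1 - A) = 1 ∧ (z • 1 - A) * R = 1 ∧ ‖R‖ ≤ K
  A_one : A O.one = (-(1 / 5) : ℂ) • O.one
  A_tr : ∀ f, O.tr (A f) = (-(1 / 5) : ℂ) * O.tr f
  pos : ∀ f ∈ O.C, ∀ t : ℝ, 0 ≤ t →
    NormedSpace.exp ((t : ℂ) • A) f + (((δ * ‖f‖ * Real.exp (-(t / 10)) : ℝ)) : ℂ) • O.one ∈ O.C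
  big : κ * (5 / 4 : ℝ) ^ L ≤ ‖NormedSpace.exp ((L : ℂ) • A)‖

/-- the cone of the `ℓ^p`-sum -/
def lpCone {Z : ℕ → Type*} [∀ n, NormedAddCommGroup (Z n)] [∀ n, NormedSpace ℂ (Z n)]
    (O : ∀ n, OBS (Z n)) (p : ℝ≥0∞) : Set (lp Z p) := {f | ∀ n, f n ∈ (O n).C}

end NCLp
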