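import Mathlib

/-!
# Commutants as von Neumann algebras and as C*-algebras
-/

open Filter Topology
open scoped ENNReal NNReal ComplexOrder InnerProductSpace

namespace NCLp

section
variable {H : Type*} [NormedAddCommGroup H] [InnerProductSpace ℂ H] [CompleteSpace H]

/-- The commutant of a self-adjoint set of operators, as a von Neumann algebra. -/
noncomputable def commVN (S : Set (H →L[ℂ] H)) (hS : ∀ x ∈ S, star x ∈ S) :
    VonNeumannAlgebra H where
  __ := StarSubalgebra.centralizer ℂ S
  centralizer_centralizer' := by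
    have hs : star S = S := by
      ext x
      constructor
      · intro hx; have := hS _ hx; simpa using this
      · intro hx; exact hS _ hx
    have : ((StarSubalgebra.centralizer ℂ S : StarSubalgebra ℂ (H →L[ℂ] H)) :
        Set (H →L[ℂ] H)) = Set.centralizer S := by
      rw [StarSubalgebra.coe_centralizer, hs, Set.union_self]
    change Set.centralizer (Set.centralizer
      ((StarSubalgebra.centralizer ℂ S : StarSubalgebra ℂ (H →L[ℂ] H)) : Set (H →L[ℂ] H))) =
      ((StarSubalgebra.centralizer ℂ S : StarSubalgebra ℂ (H →L[ℂ] H)) : Set (H →L[ℂ] H))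
    rw [this, Set.centralizer_centralizer_centralizer]

lemma mem_commVN {S : Set (H →L[ℂ] H)} {hS : ∀ x ∈ S, star x ∈ S} {x : H →L[ℂ] H} :
    x ∈ commVN S hS ↔ ∀ s ∈ S, s * x = x * s := by
  have hs : star S = S := by
    ext x
    constructor
    · intro hx; have := hS _ hx; simpa using this
    · intro hx; exact hS _ hx
  change x ∈ ((StarSubalgebra.centralizer ℂ S : StarSubalgebra ℂ (H →L[ℂ] H)) :
    Set (H →L[ℂ] H)) ↔ _
  rw [StarSubalgebra.coe_centralizer, hs, Set.union_self]
  exact Set.mem_centralizer_iff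

lemma isClosed_VN (M : VonNeumannAlgebra H) : IsClosed (M : Set (H →L[ℂ] H)) := by
  rw [← M.centralizer_centralizer]; exact Set.isClosed_centralizer _

end

section starhom

variable {A B : Type*} [CStarAlgebra A] [PartialOrder A] [StarOrderedRing A]
  [CStarAlgebra B] [PartialOrder B] [StarOrderedRing B]

/-- star homomorphisms commute with positive powers -/
lemma starHom_rpow (f : A →⋆ₐ[ℂ] B) (x : A) (hx : 0 ≤ x) (r : ℝ) (hr : 0 < r) :
    f (x ^ r) = (f x) ^ r := by
  have hfx : 0 ≤ f x := by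
    obtain ⟨y, rfl⟩ := CStarAlgebra.nonneg_iff_eq_star_mul_self.1 hx
    rw [map_mul, map_star]
    exact star_mul_self_nonneg _
  have hcont : Continuous f := by
    refine AddMonoidHomClass.continuous_of_bound f 1 (fun a => ?_)
    rw [one_mul]; exact NonUnitalStarAlgHom.norm_apply_le f a
  rw [CFC.rpow_eq_cfc_real hx, CFC.rpow_eq_cfc_real hfx]
  exact StarAlgHomClass.map_cfc f (fun s : ℝ => s ^ r) x
    (ContinuousOn.rpow_const (by fun_prop) (fun _ _ => Or.inr hr.le)) hcont
    (IsSelfAdjoint.of_nonneg hx) (IsSelfAdjoint.of_nonneg hfx)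

/-- an injective star homomorphism reflects positivity -/
lemma nonneg_of_map (f : A →⋆ₐ[ℂ] B) (hf : Function.Injective f) (x : A) (hx : 0 ≤ f x) :
    0 ≤ x := by
  have hsa : IsSelfAdjoint x := by
    have := (IsSelfAdjoint.of_nonneg hx).star_eq
    rw [← map_star] at this
    exact hf this
  have hcont : Continuous f := by
    refine AddMonoidHomClass.continuous_of_bound f 1 (fun a => ?_)
    rw [one_mul]; exact NonUnitalStarAlgHom.norm_apply_le f a
  rw [CStarAlgebra.nonneg_iff_isSelfAdjoint_and_negPart_eq_zero]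
  refine ⟨hsa, ?_⟩
  have h1 := (CStarAlgebra.nonneg_iff_isSelfAdjoint_and_negPart_eq_zero.1 hx).2
  have h2 : f (x⁻) = (f x)⁻ := by
    rw [CFC.negPart_def, CFC.negPart_def]
    exact NonUnitalStarAlgHomClass.map_cfcₙ f (fun s : ℝ => s⁻) x
      (by fun_prop) (by simp) hcont hsa (IsSelfAdjoint.of_nonneg hx)
  rw [h1] at h2
  exact hf (by rw [h2, map_zero])

lemma nonneg_map (f : A →⋆ₐ[ℂ] B) (x : A) (hx : 0 ≤ x) : 0 ≤ f x := by
  obtain ⟨y, rfl⟩ := CStarAlgebra.nonneg_iff_eq_star_mul_self.1 hx
  rw [map_mul, map_star]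
  exact star_mul_self_nonneg _

lemma nonneg_map_iff (f : A →⋆ₐ[ℂ] B) (hf : Function.Injective f) (x : A) :
    0 ≤ f x ↔ 0 ≤ x := ⟨nonneg_of_map f hf x, nonneg_map f x⟩

end starhom

/-- every von Neumann algebra is (the image of) an abstract C*-algebra -/
theorem exists_abstract {H : Type} [NormedAddCommGroup H] [InnerProductSpace ℂ H]
    [CompleteSpace H] (M : VonNeumannAlgebra H) :
    ∃ (A : Type) (_ : CStarAlgebra A) (_ : PartialOrder A) (_ : StarOrderedRing A)
      (ι : A →⋆ₐ[ℂ] (H →L[ℂ] H)), Function.Injective ι ∧ ∀ x, x ∈ M ↔ ∃ a, ι a = x := by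
  letI c : CStarAlgebra (M.toStarSubalgebra) :=
    StarSubalgebra.cstarAlgebra (M.toStarSubalgebra) (h_closed := isClosed_VN M)
  exact ⟨M.toStarSubalgebra, c, CStarAlgebra.spectralOrder _, CStarAlgebra.spectralOrderedRing _,
    M.toStarSubalgebra.subtype, Subtype.val_injective,
    fun x => ⟨fun h => ⟨⟨x, h⟩, rfl⟩, by rintro ⟨a, rfl⟩; exact a.2⟩⟩

end NCLp
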