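import Pool.Agent.NCLp.Basic
import Pool.Agent.NCLp.Comm
import Pool.Agent.Helper86.NC.FreeProd
import Pool.Agent.Helper86.NC.Star
import Pool.Agent.Helper86.NC.LGBasic

open Filter Topology
open scoped ENNReal NNReal InnerProductSpace

namespace NCLp

open Pool.Agent.Helper86.NC

section alt

variable {G : Type} [Group G] [DecidableEq G] {ι : Type} {n : ι → ℕ}
  {F : ι → Finset G} {S : ι → Set G}

/-- the centred projection as a sum over the nontrivial elements -/
lemma cproj_eq (h : PingPong n F S) (i : ι) :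
    proj (F i) - (((n i : ℂ) ^ 4)⁻¹) • (1 : L2 G →L[ℂ] L2 G) =
      ((n i : ℂ) ^ 4)⁻¹ • ∑ k ∈ (F i).erase 1, lam k := by
  have h1 : (lam (1 : G) : L2 G →L[ℂ] L2 G) = 1 := by
    unfold lam
    ext f x
    rw [permOp_apply]; simp
  have h2 := Finset.add_sum_erase (F i) (fun k => (lam k : L2 G →L[ℂ] L2 G)) (h.one_mem i)
  rw [h1] at h2
  unfold proj
  rw [h.card i, ← h2, smul_add]
  push_cast
  abel

lemma pp_first (h : PingPong n F S) {i : ι} {k : G} (hk : k ∈ (F i).erase 1) : k ∈ S i := by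
  have := h.pp i k (Finset.mem_of_mem_erase hk) (Finset.ne_of_mem_erase hk) 1 (h.one_notMem i)
  simpa using this

lemma pp_next (h : PingPong n F S) {i j : ι} (hij : i ≠ j) {k w : G} (hk : k ∈ (F i).erase 1)
    (hw : w ∈ S j) : k * w ∈ S i :=
  h.pp i k (Finset.mem_of_mem_erase hk) (Finset.ne_of_mem_erase hk) w
    (fun hw' => Set.disjoint_left.1 (h.disj i j hij) hw' hw)

lemma tau_lam_zero (h : PingPong n F S) {i : ι} {w : G} (hw : w ∈ S i) :
    tau (delta (1 : G)) (lam w) = 0 := by
  rw [tau_lam, if_neg]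
  rintro rfl
  exact h.one_notMem i hw

lemma alt2' (h : PingPong n F S) (i j : ι) (hij : i ≠ j) :
    tau (delta (1 : G)) ((proj (F i) - (((n i : ℂ) ^ 4)⁻¹) • (1 : L2 G →L[ℂ] L2 G)) *
      (proj (F j) - (((n j : ℂ) ^ 4)⁻¹) • (1 : L2 G →L[ℂ] L2 G))) = 0 := by
  rw [cproj_eq h, cproj_eq h, smul_mul_smul_comm, tau_smul, Finset.sum_mul_sum, tau_sum]
  rw [Finset.sum_eq_zero, mul_zero]
  intro a ha
  rw [tau_sum, Finset.sum_eq_zero]
  intro b hb
  rw [lam_mul]
  exact tau_lam_zero h (pp_next h hij ha (pp_first h hb))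

lemma alt3' (h : PingPong n F S) (i j k : ι) (hij : i ≠ j) (hjk : j ≠ k) :
    tau (delta (1 : G)) ((proj (F i) - (((n i : ℂ) ^ 4)⁻¹) • (1 : L2 G →L[ℂ] L2 G)) *
      (proj (F j) - (((n j : ℂ) ^ 4)⁻¹) • (1 : L2 G →L[ℂ] L2 G)) *
      (proj (F k) - (((n k : ℂ) ^ 4)⁻¹) • (1 : L2 G →L[ℂ] L2 G))) = 0 := by
  rw [cproj_eq h, cproj_eq h, cproj_eq h, smul_mul_smul_comm, smul_mul_smul_comm, tau_smul,
    Finset.sum_mul_sum, Finset.sum_mul, tau_sum]
  rw [Finset.sum_eq_zero, mul_zero]
  intro a ha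
  rw [Finset.sum_mul, tau_sum, Finset.sum_eq_zero]
  intro b hb
  rw [Finset.mul_sum, tau_sum, Finset.sum_eq_zero]
  intro c hc
  rw [lam_mul, lam_mul, mul_assoc]
  exact tau_lam_zero h (pp_next h hij ha (pp_next h hjk hb (pp_first h hc)))

lemma alt4' (h : PingPong n F S) (i j k l : ι) (hij : i ≠ j) (hjk : j ≠ k) (hkl : k ≠ l) :
    tau (delta (1 : G)) ((proj (F i) - (((n i : ℂ) ^ 4)⁻¹) • (1 : L2 G →L[ℂ] L2 G)) *
      (proj (F j) - (((n j : ℂ) ^ 4)⁻¹) • (1 : L2 G →L[ℂ] L2 G)) *
      (proj (F k) - (((n k : ℂ) ^ 4)⁻¹) • (1 : L2 G →L[ℂ] L2 G)) *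
      (proj (F l) - (((n l : ℂ) ^ 4)⁻¹) • (1 : L2 G →L[ℂ] L2 G))) = 0 := by
  rw [cproj_eq h, cproj_eq h, cproj_eq h, cproj_eq h, smul_mul_smul_comm, smul_mul_smul_comm,
    smul_mul_smul_comm, tau_smul,
    Finset.sum_mul_sum, Finset.sum_mul, Finset.sum_mul, tau_sum]
  rw [Finset.sum_eq_zero, mul_zero]
  intro a ha
  rw [Finset.sum_mul, Finset.sum_mul, tau_sum, Finset.sum_eq_zero]
  intro b hb
  rw [Finset.mul_sum, tau_sum, Finset.sum_eq_zero]
  intro d hd
  rw [Finset.mul_sum, Finset.sum_mul, tau_sum, Finset.sum_eq_zero]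
  intro c hc
  rw [lam_mul, lam_mul, lam_mul, mul_assoc, mul_assoc]
  exact tau_lam_zero h (pp_next h hij ha (pp_next h hjk hb (pp_next h hkl hc (pp_first h hd))))

end alt

open Classical in
theorem exists_FPD : ∃ (G : Type) (_ : Group G) (_ : DecidableEq G) (A : Type)
    (_ : CStarAlgebra A) (_ : PartialOrder A) (_ : StarOrderedRing A)
    (j : A →⋆ₐ[ℂ] (L2 G →L[ℂ] L2 G)) (Φ : FPD A (ℕ × ℕ)),
    Function.Injective j ∧ (∀ x, x ∈ LG G ↔ ∃ a, j a = x) ∧
    (∀ a, Φ.τ a = ⟪delta (1 : G), (j a) (delta (1 : G))⟫_ℂ) ∧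
    (∀ i, Φ.N i = 16 ^ (i.1 + 1)) ∧
    ∀ m : ℕ, 1 ≤ m → ∃ T : A →⋆ₐ[ℂ] A, (∀ x, T^[m] x = x) ∧ (∀ x, Φ.τ (T x) = Φ.τ x) ∧
      ∀ s u, u < m → T (Φ.P (s, u)) = Φ.P (s, (u + 1) % m) := by
  obtain ⟨G, hG, F, S, hPP, hσ⟩ := exists_pingpong
  obtain ⟨A, cA, pA, sA, j, hj, hjr⟩ := exists_abstract (LG G)
  have hT := LG_tracial (G := G)
  have hmem : ∀ a, j a ∈ LG G := fun a => (hjr _).2 ⟨a, rfl⟩
  -- the trace
  let τ : A →L[ℂ] ℂ := LinearMap.mkContinuous
    { toFun := fun a => ⟪delta (1 : G), (j a) (delta (1 : G))⟫_ℂ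
      map_add' := by intro a b; rw [map_add, ContinuousLinearMap.add_apply, inner_add_right]
      map_smul' := by
        intro c a
        rw [map_smul, ContinuousLinearMap.smul_apply, inner_smul_right]; rfl } 1 (by
    intro a
    change ‖⟪delta (1 : G), (j a) (delta (1 : G))⟫_ℂ‖ ≤ 1 * ‖a‖
    refine (norm_inner_le_norm _ _).trans ?_
    rw [hT.norm_eq_one, one_mul, one_mul]
    refine ((j a).le_opNorm _).trans ?_
    rw [hT.norm_eq_one, mul_one]
    exact NonUnitalStarAlgHom.norm_apply_le j a)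
  have hτ : ∀ a, τ a = ⟪delta (1 : G), (j a) (delta (1 : G))⟫_ℂ := fun _ => rfl
  have hτ2 : ∀ a, τ a = tau (delta (1 : G)) (j a) := fun _ => rfl
  -- the projections
  have hP : ∀ i, ∃ a, j a = proj (F i) := fun i => (hjr _).1 (proj_mem hPP i)
  choose P hPj using hP
  have hn : ∀ i : ℕ × ℕ, (((2 ^ (i.1 + 1) : ℕ) : ℂ) ^ 4)⁻¹ =
      (((((16 ^ (i.1 + 1) : ℕ) : ℝ)⁻¹ : ℝ)) : ℂ) := by
    intro i
    push_cast
    rw [← pow_mul, mul_comm, pow_mul]; norm_num
  have hnr : ∀ i : ℕ × ℕ, (((2 ^ (i.1 + 1) : ℕ) : ℝ) ^ 4)⁻¹ =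
      (((16 ^ (i.1 + 1) : ℕ) : ℝ)⁻¹ : ℝ) := by
    intro i
    push_cast
    rw [← pow_mul, mul_comm, pow_mul]; norm_num
  have hcen : ∀ i, j (cen (fun i : ℕ × ℕ => 16 ^ (i.1 + 1)) P i) =
      proj (F i) - ((((2 ^ (i.1 + 1) : ℕ) : ℂ) ^ 4)⁻¹) • (1 : L2 G →L[ℂ] L2 G) := by
    intro i
    rw [cen, map_sub, map_smul, map_one, hPj, hn]
  have hsq : ∀ x : A, τ (star x * x) = ((‖(j x) (delta (1 : G))‖ ^ 2 : ℝ) : ℂ) := by
    intro x
    rw [hτ, map_mul, map_star, ContinuousLinearMap.star_eq_adjoint,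
      ContinuousLinearMap.mul_apply, ContinuousLinearMap.adjoint_inner_right,
      inner_self_eq_norm_sq_to_K]
    norm_cast
  let Φ : FPD A (ℕ × ℕ) :=
    { τ := τ
      one := by
        rw [hτ, map_one, ContinuousLinearMap.one_apply, inner_self_eq_norm_sq_to_K,
          hT.norm_eq_one]; simp
      comm := by
        intro x y
        rw [hτ, hτ, map_mul, map_mul]
        exact hT.trace _ (hmem x) _ (hmem y)
      nonneg := by
        intro x
        rw [hsq]
        exact Complex.zero_le_real.2 (sq_nonneg _)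
      faithful := by
        intro x hx
        apply hj
        rw [map_zero]
        apply hT.faithful _ (hmem x)
        rw [← map_star, ← map_mul]
        exact hx
      N := fun i => 16 ^ (i.1 + 1)
      N_ge := by
        intro i
        calc 16 = 16 ^ 1 := by norm_num
          _ ≤ 16 ^ (i.1 + 1) := Nat.pow_le_pow_right (by norm_num) (by omega)
      P := P
      P_star := by
        intro i
        apply hj
        rw [map_star, hPj, proj_star hPP]
      P_idem := by
        intro i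
        apply hj
        rw [map_mul, hPj, proj_idem hPP]
      tP := by
        intro i
        rw [hτ2, hPj, proj_tau hPP, hn]
      alt2 := by
        intro i k h
        rw [hτ2, map_mul, hcen, hcen]
        exact alt2' hPP i k h
      alt3 := by
        intro i k l h h'
        rw [hτ2, map_mul, map_mul, hcen, hcen, hcen]
        exact alt3' hPP i k l h h'
      alt4 := by
        intro i k l o h h' h''
        rw [hτ2, map_mul, map_mul, map_mul, hcen, hcen, hcen, hcen]
        exact alt4' hPP i k l o h h' h''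
      Ξ := {ξ : L2 G // ‖ξ‖ = 1}
      ψ := fun ξ =>
        { toFun := fun x => (⟪(ξ : L2 G), (j x) ξ⟫_ℂ).re
          map_add' := by
            intro x y
            rw [map_add, ContinuousLinearMap.add_apply, inner_add_right, Complex.add_re]
          map_smul' := by
            intro c x
            have : c • x = (c : ℂ) • x := by simp
            rw [this, map_smul, ContinuousLinearMap.smul_apply, inner_smul_right]
            simp }
      ψ_one := by
        intro ξ
        change (⟪(ξ : L2 G), (j 1) ξ⟫_ℂ).re = 1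
        rw [map_one, ContinuousLinearMap.one_apply, inner_self_eq_norm_sq_to_K, ξ.2]; simp
      ψ_nonneg := by
        intro ξ x hx
        change 0 ≤ (⟪(ξ : L2 G), (j x) ξ⟫_ℂ).re
        have h1 := nonneg_map j x hx
        rw [ContinuousLinearMap.nonneg_iff_isPositive] at h1
        exact h1.re_inner_nonneg_right _
      nonneg_of_ψ := by
        intro x hx h
        apply nonneg_of_map j hj
        rw [ContinuousLinearMap.nonneg_iff_isPositive, ContinuousLinearMap.isPositive_def']
        refine ⟨?_, fun v => ?_⟩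
        · rw [isSelfAdjoint_iff, ← map_star, hx.star_eq]
        · rw [ContinuousLinearMap.reApplyInnerSelf_apply]
          by_cases hv : v = 0
          · subst hv; simp
          · have hv' : ‖v‖ ≠ 0 := norm_ne_zero_iff.2 hv
            have h1 : 0 ≤ (⟪((‖v‖ : ℂ)⁻¹ • v), (j x) ((‖v‖ : ℂ)⁻¹ • v)⟫_ℂ).re :=
              h ⟨(‖v‖ : ℂ)⁻¹ • v, by
                rw [norm_smul, norm_inv, Complex.norm_real, norm_norm, inv_mul_cancel₀ hv']⟩
            rw [map_smul, inner_smul_left, inner_smul_right, ← mul_assoc] at h1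
            have h2 : (starRingEnd ℂ) ((‖v‖ : ℂ)⁻¹) * ((‖v‖ : ℂ)⁻¹) =
                (((‖v‖ ^ 2)⁻¹ : ℝ) : ℂ) := by
              rw [map_inv₀, Complex.conj_ofReal]; push_cast; rw [sq, mul_inv]
            rw [h2, Complex.re_ofReal_mul] at h1
            have h3 : (0 : ℝ) < (‖v‖ ^ 2)⁻¹ := by positivity
            have h4 := (mul_nonneg_iff_of_pos_left h3).1 h1
            change 0 ≤ (⟪(j x) v, v⟫_ℂ).re
            rw [← inner_conj_symm, Complex.conj_re]
            exact h4
      pp := by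
        rintro ⟨ξ, hξ⟩
        refine ⟨fun i => ‖h170R (S i) ξ‖, fun i => norm_nonneg _, ?_, ?_, ?_⟩
        · intro s
          have := h170R_sum S hPP.disj ξ s
          rw [hξ] at this
          simpa using this
        · intro i
          change ((16 ^ (i.1 + 1) : ℕ) : ℝ)⁻¹ - (⟪ξ, (j (P i)) ξ⟫_ℂ).re ≤ _
          obtain ⟨q, s, t, hq, hq0, hq1, hs0, hs1, hs2, ht, h1, h2⟩ := h170_key hPP i ξ hξ
          beta_reduce
          rw [hPj, ← hnr, ← hs2, Real.sqrt_sq hs0.le, ← hq, ← ht]
          exact h1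
        · intro i
          change |(⟪ξ, (j (P i)) ξ⟫_ℂ).re - ((16 ^ (i.1 + 1) : ℕ) : ℝ)⁻¹| ≤ _
          obtain ⟨q, s, t, hq, hq0, hq1, hs0, hs1, hs2, ht, h1, h2⟩ := h170_key hPP i ξ hξ
          beta_reduce
          rw [hPj, ← hnr, ← hs2, ← hq, ← ht, abs_le]
          constructor
          · nlinarith
          · exact h2 }
  refine ⟨G, hG, inferInstance, A, cA, pA, sA, j, Φ, hj, hjr, hτ, fun _ => rfl, ?_⟩
  intro m hm
  obtain ⟨σ, hσm, hσF⟩ := hσ m hm
  -- the automorphism
  have hUU : permOp σ.toEquiv * permOp σ.symm.toEquiv = (1 : L2 G →L[ℂ] L2 G) := by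
    rw [permOp_mul]
    ext f x
    rw [permOp_apply]; simp
  have hUU' : permOp σ.symm.toEquiv * permOp σ.toEquiv = (1 : L2 G →L[ℂ] L2 G) := by
    rw [permOp_mul]
    ext f x
    rw [permOp_apply]; simp
  have hex : ∀ a, ∃ b, j b = permOp σ.toEquiv * j a * permOp σ.symm.toEquiv := fun a =>
    (hjr _).1 (LG_conj σ (j a) (hmem a))
  choose T0 hT0 using hex
  have hstar : star (permOp σ.toEquiv : L2 G →L[ℂ] L2 G) = permOp σ.symm.toEquiv := by
    rw [permOp_star]; rfl
  have hstar' : star (permOp σ.symm.toEquiv : L2 G →L[ℂ] L2 G) = permOp σ.toEquiv := by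
    rw [← hstar, star_star]
  let T : A →⋆ₐ[ℂ] A :=
    { toFun := T0
      map_one' := by apply hj; rw [hT0, map_one, mul_one, hUU]
      map_mul' := by
        intro a b
        apply hj
        rw [hT0, map_mul, map_mul, hT0, hT0]
        calc permOp σ.toEquiv * (j a * j b) * permOp σ.symm.toEquiv
            = permOp σ.toEquiv * j a * 1 * j b * permOp σ.symm.toEquiv := by
              simp only [mul_assoc, one_mul]
          _ = _ := by rw [← hUU']; simp only [mul_assoc]
      map_zero' := by apply hj; rw [hT0, map_zero]; simp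
      map_add' := by
        intro a b
        apply hj
        rw [hT0, map_add, map_add, hT0, hT0, mul_add, add_mul]
      commutes' := by
        intro c
        apply hj
        rw [hT0, Algebra.algebraMap_eq_smul_one, map_smul, map_one, mul_smul_comm, mul_one,
          smul_mul_assoc, hUU]
      map_star' := by
        intro a
        apply hj
        rw [hT0, map_star, map_star, hT0, star_mul, star_mul, hstar, hstar', mul_assoc] }
  have hT1 : ∀ a, j (T a) = permOp σ.toEquiv * j a * permOp σ.symm.toEquiv := hT0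
  refine ⟨T, ?_, ?_, ?_⟩
  · intro x
    have key : ∀ k : ℕ, j (T^[k] x) =
        permOp ((σ : MulAut G) ^ k).toEquiv * j x * permOp ((σ : MulAut G) ^ k).symm.toEquiv := by
      intro k
      induction k with
      | zero =>
        have e1 : (permOp ((σ : MulAut G) ^ 0).toEquiv : L2 G →L[ℂ] L2 G) = 1 := by
          ext f y; rw [permOp_apply]; rfl
        have e2 : (permOp ((σ : MulAut G) ^ 0).symm.toEquiv : L2 G →L[ℂ] L2 G) = 1 := by
          ext f y; rw [permOp_apply]; rfl
        rw [e1, e2, one_mul, mul_one]; rfl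
      | succ k ih =>
        rw [Function.iterate_succ_apply', hT1, ih]
        have e1 : (permOp ((σ : MulAut G) ^ (k + 1)).toEquiv : L2 G →L[ℂ] L2 G) =
            permOp σ.toEquiv * permOp ((σ : MulAut G) ^ k).toEquiv := by
          rw [permOp_mul, pow_succ']
          rfl
        have e2 : (permOp ((σ : MulAut G) ^ (k + 1)).symm.toEquiv : L2 G →L[ℂ] L2 G) =
            permOp ((σ : MulAut G) ^ k).symm.toEquiv * permOp σ.symm.toEquiv := by
          rw [permOp_mul, pow_succ']
          rfl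
        rw [e1, e2]
        simp only [mul_assoc]
    have hpow : (σ : MulAut G) ^ m = 1 := by
      ext g
      have : ((σ : MulAut G) ^ m) g = (σ : G → G)^[m] g := by
        have h2 : ∀ k : ℕ, ((σ : MulAut G) ^ k) g = (σ : G → G)^[k] g := by
          intro k
          induction k with
          | zero => rfl
          | succ k ih => rw [Function.iterate_succ_apply', ← ih, pow_succ']; rfl
        exact h2 m
      rw [this, hσm]; rfl
    apply hj
    rw [key m, hpow]
    have e1 : (permOp (1 : MulAut G).toEquiv : L2 G →L[ℂ] L2 G) = 1 := by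
      ext f y; rw [permOp_apply]; rfl
    have e2 : (permOp (1 : MulAut G).symm.toEquiv : L2 G →L[ℂ] L2 G) = 1 := by
      ext f y; rw [permOp_apply]; rfl
    rw [e1, e2, one_mul, mul_one]
  · intro x
    change τ (T x) = τ x
    rw [hτ, hτ, hT1]
    have h1 : permOp σ.symm.toEquiv (delta (1 : G)) = delta (1 : G) := by
      rw [permOp_delta]; simp
    rw [mul_assoc, mul_apply_eq_comp, mul_apply_eq_comp, h1, ← hstar',
      ContinuousLinearMap.star_eq_adjoint, ContinuousLinearMap.adjoint_inner_right, h1]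
  · intro s u hu
    apply hj
    change j (T (P (s, u))) = j (P (s, (u + 1) % m))
    rw [hT1, hPj, hPj]
    have himg : (F (s, u)).image σ = F (s, (u + 1) % m) := by
      apply Finset.eq_of_subset_of_card_le
      · intro g hg
        obtain ⟨g', hg', rfl⟩ := Finset.mem_image.1 hg
        exact hσF s u hu g' hg'
      · rw [Finset.card_image_of_injective _ σ.injective, hPP.card, hPP.card]
    unfold proj
    rw [← himg, Finset.card_image_of_injective _ σ.injective,
      Finset.sum_image (fun a _ b _ h => σ.injective h), mul_smul_comm, smul_mul_assoc,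
      Finset.mul_sum, Finset.sum_mul]
    congr 1
    apply Finset.sum_congr rfl
    intro k _
    exact lam_conj σ k

end NCLp
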