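import Pool.Agent.NCLp.ChainBase
import Pool.Agent.NCLp.LGInst
import Pool.Agent.NCLp.Defs

open Filter Topology
open scoped ENNReal NNReal InnerProductSpace

namespace NCLp

open Pool.Agent.Helper86.NC

lemma map_absPow {H : Type*} [NormedAddCommGroup H] [InnerProductSpace ℂ H] [CompleteSpace H]
    {A : Type*} [CStarAlgebra A] [PartialOrder A] [StarOrderedRing A]
    (j : A →⋆ₐ[ℂ] (H →L[ℂ] H)) (a : A) :
    j ((star a * a) ^ (2 / 3 : ℝ)) = absPow (4 / 3) (j a) := by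
  rw [absPow, starHom_rpow j _ (star_mul_self_nonneg a) _ (by norm_num), map_mul, map_star]
  norm_num

/-- The gadget: the noncommutative `L^{4/3}`-space `Y` of the finite von Neumann algebra `L(G)`
and the chain operators on it. -/
theorem base_exists : ∃ (G : Type) (_ : Group G) (_ : DecidableEq G) (Y : Type)
    (_ : NormedAddCommGroup Y) (_ : NormedSpace ℂ Y) (_ : CompleteSpace Y)
    (iY : (L2 G →L[ℂ] L2 G) → Y) (C : Set Y) (u : Y) (τ : Y →L[ℂ] ℂ) (C0 : ℝ),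
    (∀ x ∈ LG G, ∀ y ∈ LG G, iY (x + y) = iY x + iY y) ∧
    (∀ (c : ℂ), ∀ x ∈ LG G, iY (c • x) = c • iY x) ∧
    (∀ x ∈ LG G, ‖iY x‖ =
      ((⟪delta (1 : G), (absPow (4 / 3) x) (delta (1 : G))⟫_ℂ).re) ^ (3 / 4 : ℝ)) ∧
    Dense (iY '' {x | x ∈ LG G}) ∧
    C = closure (iY '' {x | x ∈ LG G ∧ 0 ≤ x}) ∧
    u = iY 1 ∧
    (∀ x ∈ LG G, τ (iY x) = ⟪delta (1 : G), x (delta (1 : G))⟫_ℂ) ∧
    (∀ y, ‖τ y‖ ≤ ‖y‖) ∧
    Cone C u ∧ τ u = 1 ∧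
    (∀ f ∈ C, ∃ a : ℝ, 0 ≤ a ∧ τ f = (a : ℂ)) ∧
    (∀ f ∈ C, τ f = 0 → f = 0) ∧
    1 ≤ C0 ∧
    ∀ L : ℕ, 2 ≤ L → ∀ ε : ℝ, 0 < ε → ∃ (m : ℕ) (σ : Y ≃ₗᵢ[ℂ] Y) (B : Y →L[ℂ] Y) (v : Y)
      (h : ℕ → (Y →L[ℂ] ℂ)) (κ : ℝ), Base C u τ C0 L ε m σ B v h κ := by
  classical
  obtain ⟨G, hG, hdec, A, cA, pA, sA, j, Φ, hj, hjr, hτ, hN, haut⟩ := exists_FPD
  obtain ⟨Y, nY, sY, cY, ⟨D⟩⟩ := exists_YD Φ.toTrState
  have hmem : ∀ a, j a ∈ LG G := fun a => (hjr _).2 ⟨a, rfl⟩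
  let iY : (L2 G →L[ℂ] L2 G) → Y := fun x => if h : ∃ a, j a = x then D.ι h.choose else 0
  have hiY : ∀ a, iY (j a) = D.ι a := by
    intro a
    have h : ∃ b, j b = j a := ⟨a, rfl⟩
    change (if h : ∃ b, j b = j a then D.ι h.choose else 0) = D.ι a
    rw [dif_pos h]
    congr 1
    exact hj h.choose_spec
  refine ⟨G, hG, hdec, Y, nY, sY, cY, iY, D.C, D.u, D.tr, 9, ?_, ?_, ?_, ?_, ?_, ?_, ?_, ?_, ?_,
    ?_, ?_, ?_, by norm_num, fun L hL ε hε => chain_base Φ D hN haut L hL ε hε⟩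
  · intro x hx y hy
    obtain ⟨a, rfl⟩ := (hjr x).1 hx
    obtain ⟨b, rfl⟩ := (hjr y).1 hy
    rw [← map_add, hiY, hiY, hiY, map_add]
  · intro c x hx
    obtain ⟨a, rfl⟩ := (hjr x).1 hx
    rw [← map_smul, hiY, hiY, map_smul]
  · intro x hx
    obtain ⟨a, rfl⟩ := (hjr x).1 hx
    rw [hiY, D.norm_ι, TrState.n43]
    rw [hτ, map_absPow]
  · have : iY '' {x | x ∈ LG G} = Set.range D.ι := by
      ext y
      constructor
      · rintro ⟨x, hx, rfl⟩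
        obtain ⟨a, rfl⟩ := (hjr x).1 hx
        exact ⟨a, (hiY a).symm⟩
      · rintro ⟨a, rfl⟩
        exact ⟨j a, hmem a, hiY a⟩
    rw [this]
    exact D.dense
  · have : iY '' {x | x ∈ LG G ∧ 0 ≤ x} = D.ι '' {x | 0 ≤ x} := by
      ext y
      constructor
      · rintro ⟨x, ⟨hx, hx0⟩, rfl⟩
        obtain ⟨a, rfl⟩ := (hjr x).1 hx
        exact ⟨a, nonneg_of_map j hj a hx0, (hiY a).symm⟩
      · rintro ⟨a, ha, rfl⟩
        exact ⟨j a, ⟨hmem a, nonneg_map j a ha⟩, hiY a⟩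
    rw [this]
    rfl
  · rw [YD.u, ← hiY, map_one]
  · intro x hx
    obtain ⟨a, rfl⟩ := (hjr x).1 hx
    rw [hiY, D.tr_ι, hτ]
  · exact D.norm_tr
  · exact ⟨D.isClosed_C, D.C_zero, fun x hx y hy => D.C_add hx hy,
      fun x hx r hr => D.C_smul hx r hr, D.u_mem, D.norm_u⟩
  · exact D.tr_u
  · exact D.tr_nonneg
  · exact D.tr_pos

end NCLp
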