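import Pool.Agent.NCLp.Abs

open Filter Topology
open scoped ENNReal NNReal ComplexOrder ComplexConjugate

namespace NCLp

variable {A : Type*} [CStarAlgebra A] [PartialOrder A] [StarOrderedRing A]

namespace TrState

variable (t : TrState A)

lemma sq_nonneg (x : A) : 0 ≤ t.sq x := (Complex.le_def.1 (t.nonneg x)).1

lemma tau_sq (x : A) : t.τ (star x * x) = ((t.sq x : ℝ) : ℂ) := by
  have h := t.nonneg x
  rw [Complex.le_def] at h
  apply Complex.ext
  · simp [sq]
  · simpa using h.2.symm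

/-- the trace is real on squares, hence hermitian -/
lemma tau_star (x : A) : t.τ (star x) = conj (t.τ x) := by
  -- polarisation
  have h : ∀ y : A, conj (t.τ (star y * y)) = t.τ (star y * y) := by
    intro y; rw [t.tau_sq]; simp
  have h1 := h (1 + x)
  have h2 := h (1 + Complex.I • x)
  have h0 := h x
  have h3 := h 1
  simp only [star_add, star_one, star_smul, add_mul, mul_add, one_mul, mul_one, map_add,
    smul_mul_assoc, mul_smul_comm, map_smul, smul_eq_mul, t.one, Complex.star_def,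
    Complex.conj_I, map_mul, map_one, map_neg] at h0 h1 h2
  rw [h0] at h1 h2
  have e1 : conj (t.τ x) + conj (t.τ (star x)) = t.τ x + t.τ (star x) := by
    linear_combination h1
  have e2 : -Complex.I * conj (t.τ x) + Complex.I * conj (t.τ (star x))
      = Complex.I * t.τ x - Complex.I * t.τ (star x) := by
    linear_combination h2
  have e3 : - conj (t.τ x) + conj (t.τ (star x)) = t.τ x - t.τ (star x) := by
    linear_combination (-Complex.I) * e2 - (conj (t.τ x) - conj (t.τ (star x)) + t.τ x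
      - t.τ (star x)) * Complex.I_sq
  linear_combination (-1/2 : ℂ) * e1 + (1/2 : ℂ) * e3

lemma sq_star (x : A) : t.sq (star x) = t.sq x := by
  simp only [sq, star_star]; rw [t.comm]

lemma sq_smul (c : ℂ) (x : A) : t.sq (c • x) = ‖c‖ ^ 2 * t.sq x := by
  simp only [sq, star_smul, smul_mul_assoc, mul_smul_comm, map_smul, smul_eq_mul]
  rw [← mul_assoc]
  have : c * star c = ((‖c‖ ^ 2 : ℝ) : ℂ) := by
    rw [Complex.star_def, Complex.mul_conj, Complex.normSq_eq_norm_sq]
  rw [this, Complex.re_ofReal_mul]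

/-- Cauchy-Schwarz -/
lemma cs (x y : A) : ‖t.τ (star x * y)‖ ^ 2 ≤ t.sq x * t.sq y := by
  -- quadratic form argument
  set c := t.τ (star x * y) with hc
  have key : ∀ r : ℝ, 0 ≤ t.sq y - 2 * r * ‖c‖ ^ 2 + r ^ 2 * ‖c‖ ^ 2 * t.sq x := by
    intro r
    have h := t.sq_nonneg (y - ((r : ℂ) * c) • x)
    have e : t.τ (star (y - ((r : ℂ) * c) • x) * (y - ((r : ℂ) * c) • x))
        = ((t.sq y - 2 * r * ‖c‖ ^ 2 + r ^ 2 * ‖c‖ ^ 2 * t.sq x : ℝ) : ℂ) := by
      have hcc : conj c * c = ((‖c‖ ^ 2 : ℝ) : ℂ) := by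
        rw [mul_comm, Complex.mul_conj, Complex.normSq_eq_norm_sq]
      have hyx : t.τ (star y * x) = conj c := by
        rw [hc, ← t.tau_star, star_mul, star_star]
      simp only [star_sub, star_smul, sub_mul, mul_sub, smul_mul_assoc, mul_smul_comm, map_sub,
        map_smul, smul_eq_mul, hyx, t.tau_sq, ← hc, Complex.star_def, map_mul, Complex.conj_ofReal]
      push_cast
      push_cast at hcc
      linear_combination (-2 * (r : ℂ) + (r : ℂ) ^ 2 * (t.sq x : ℂ)) * hcc
    have : t.sq (y - ((r : ℂ) * c) • x) = t.sq y - 2 * r * ‖c‖ ^ 2 + r ^ 2 * ‖c‖ ^ 2 * t.sq x := by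
      have := congrArg Complex.re e
      rwa [Complex.ofReal_re] at this
    rw [this] at h; exact h
  by_cases hx : t.sq x = 0
  · -- then c = 0
    by_contra hcon
    have hpos : 0 < ‖c‖ ^ 2 := by
      have : t.sq x * t.sq y = 0 := by rw [hx]; ring
      rw [this] at hcon; push Not at hcon; exact hcon
    have h := key ((t.sq y + 1) / (2 * ‖c‖ ^ 2))
    rw [hx] at h
    have : 2 * ((t.sq y + 1) / (2 * ‖c‖ ^ 2)) * ‖c‖ ^ 2 = t.sq y + 1 := by
      have h0 : ‖c‖ ^ 2 ≠ 0 := hpos.ne'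
      generalize ‖c‖ ^ 2 = u at h0
      field_simp
    linarith
  · have hxp : 0 < t.sq x := lt_of_le_of_ne (t.sq_nonneg x) (Ne.symm hx)
    have h := key (1 / t.sq x)
    have e : t.sq y - 2 * (1 / t.sq x) * ‖c‖ ^ 2 + (1 / t.sq x) ^ 2 * ‖c‖ ^ 2 * t.sq x
        = t.sq y - ‖c‖ ^ 2 / t.sq x := by field_simp; ring
    rw [e] at h
    have : ‖c‖ ^ 2 / t.sq x ≤ t.sq y := by linarith
    rw [div_le_iff₀ hxp] at this
    linarith

lemma cs' (x y : A) : ‖t.τ (x * y)‖ ≤ Real.sqrt (t.sq x) * Real.sqrt (t.sq y) := by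
  have h := t.cs (star x) y
  rw [star_star, t.sq_star] at h
  rw [← Real.sqrt_mul (t.sq_nonneg x)]
  exact Real.le_sqrt_of_sq_le h

lemma sq_one : t.sq 1 = 1 := by simp [sq, t.one]

/-- the fourth power of the `L^4` norm is `t.sq (x* x)` -/
lemma n4_eq (x : A) : t.n4 x = (t.sq (star x * x)) ^ (1 / 4 : ℝ) := by
  simp [n4, sq, star_mul]

lemma n4_nonneg (x : A) : 0 ≤ t.n4 x := by
  rw [n4_eq]; exact Real.rpow_nonneg (t.sq_nonneg _) _

lemma n4_pow (x : A) : t.n4 x ^ 4 = t.sq (star x * x) := by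
  rw [n4_eq, ← Real.rpow_natCast, ← Real.rpow_mul (t.sq_nonneg _)]
  norm_num

lemma n4_sq (x : A) : t.n4 x ^ 2 = Real.sqrt (t.sq (star x * x)) := by
  rw [← t.n4_pow, show t.n4 x ^ 4 = (t.n4 x ^ 2) ^ 2 by ring, Real.sqrt_sq (by positivity)]

lemma n4_star (x : A) : t.n4 (star x) = t.n4 x := by
  rw [n4_eq, n4_eq]
  congr 1
  simp only [sq, star_mul, star_star]
  congr 1
  rw [show x * star x * (x * star x) = x * (star x * x * star x) by simp only [mul_assoc],
    t.comm x, mul_assoc]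

lemma n4_smul (c : ℂ) (x : A) : t.n4 (c • x) = ‖c‖ * t.n4 x := by
  have h : t.n4 (c • x) ^ 4 = (‖c‖ * t.n4 x) ^ 4 := by
    rw [n4_pow, mul_pow, n4_pow, star_smul, smul_mul_smul_comm, sq_smul]
    have : ‖star c * c‖ = ‖c‖ ^ 2 := by rw [norm_mul, norm_star]; ring
    rw [this]; ring
  exact (pow_left_inj₀ (t.n4_nonneg _) (mul_nonneg (norm_nonneg _) (t.n4_nonneg _))
    (by norm_num)).1 h

lemma n4_zero : t.n4 0 = 0 := by
  have := t.n4_smul 0 0; simpa using this

lemma n4_neg (x : A) : t.n4 (-x) = t.n4 x := by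
  have := t.n4_smul (-1) x; simpa using this

lemma n4_one : t.n4 1 = 1 := by
  rw [n4_eq]; simp [sq_one]

/-- `‖x*y‖₂ ≤ ‖x‖₄ ‖y‖₄` -/
lemma sq_mul_le (x y : A) : t.sq (x * y) ≤ (t.n4 x * t.n4 y) ^ 2 := by
  have h1 : t.sq (x * y) ≤ ‖t.τ ((star x * x) * (y * star y))‖ := by
    have : t.τ (star (x * y) * (x * y)) = t.τ ((star x * x) * (y * star y)) := by
      rw [star_mul, show star y * star x * (x * y) = star y * (star x * x * y) by
        simp only [mul_assoc], t.comm (star y)]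
      simp only [mul_assoc]
    rw [sq, this]; exact Complex.re_le_norm _
  have h2 := t.cs' (star x * x) (y * star y)
  have e1 : Real.sqrt (t.sq (star x * x)) = t.n4 x ^ 2 := (t.n4_sq x).symm
  have e2 : Real.sqrt (t.sq (y * star y)) = t.n4 y ^ 2 := by
    have := (t.n4_sq (star y)).symm
    rw [star_star, t.n4_star] at this; exact this
  rw [e1, e2] at h2
  calc _ ≤ _ := h1
    _ ≤ _ := h2
    _ = _ := by ring

lemma sq_le_n4 (x : A) : t.sq x ≤ t.n4 x ^ 2 := by
  have := t.sq_mul_le x 1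
  simpa [n4_one] using this

lemma sqrt_sq_le_n4 (x : A) : Real.sqrt (t.sq x) ≤ t.n4 x :=
  Real.sqrt_le_iff.2 ⟨t.n4_nonneg x, t.sq_le_n4 x⟩

lemma norm_tau_le_sqrt (x : A) : ‖t.τ x‖ ≤ Real.sqrt (t.sq x) := by
  have := t.cs' 1 x; simpa [sq_one] using this

lemma norm_tau_le_n4 (x : A) : ‖t.τ x‖ ≤ t.n4 x :=
  (t.norm_tau_le_sqrt x).trans (t.sqrt_sq_le_n4 x)

/-- Minkowski in `L^2` -/
lemma sqrt_sq_add (x y : A) :
    Real.sqrt (t.sq (x + y)) ≤ Real.sqrt (t.sq x) + Real.sqrt (t.sq y) := by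
  apply Real.sqrt_le_iff.2
  refine ⟨by positivity, ?_⟩
  have e : t.sq (x + y) = t.sq x + t.sq y + 2 * (t.τ (star x * y)).re := by
    simp only [sq, star_add, add_mul, mul_add, map_add, Complex.add_re]
    have : t.τ (star y * x) = conj (t.τ (star x * y)) := by
      rw [← t.tau_star, star_mul, star_star]
    rw [this, Complex.conj_re]; ring
  have h1 : (t.τ (star x * y)).re ≤ Real.sqrt (t.sq x) * Real.sqrt (t.sq y) := by
    refine (Complex.re_le_norm _).trans ?_
    have := t.cs' (star x) y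
    rwa [t.sq_star] at this
  rw [e]
  nlinarith [Real.sq_sqrt (t.sq_nonneg x), Real.sq_sqrt (t.sq_nonneg y)]

/-- Minkowski in `L^4` -/
lemma n4_add (x y : A) : t.n4 (x + y) ≤ t.n4 x + t.n4 y := by
  have h : t.n4 (x + y) ^ 2 ≤ (t.n4 x + t.n4 y) ^ 2 := by
    rw [t.n4_sq]
    have e : star (x + y) * (x + y) = (star x * x + star y * y) + (star x * y + star y * x) := by
      simp only [star_add, add_mul, mul_add]; abel
    rw [e]
    refine (t.sqrt_sq_add _ _).trans ?_
    have h1 := t.sqrt_sq_add (star x * x) (star y * y)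
    have h2 := t.sqrt_sq_add (star x * y) (star y * x)
    have h3 : Real.sqrt (t.sq (star x * y)) ≤ t.n4 x * t.n4 y := by
      refine Real.sqrt_le_iff.2 ⟨mul_nonneg (t.n4_nonneg _) (t.n4_nonneg _), ?_⟩
      have := t.sq_mul_le (star x) y
      rwa [t.n4_star] at this
    have h4 : Real.sqrt (t.sq (star y * x)) ≤ t.n4 x * t.n4 y := by
      refine Real.sqrt_le_iff.2 ⟨mul_nonneg (t.n4_nonneg _) (t.n4_nonneg _), ?_⟩
      have := t.sq_mul_le (star y) x
      rw [t.n4_star] at this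
      rwa [mul_comm (t.n4 x)]
    rw [← t.n4_sq, ← t.n4_sq] at h1
    nlinarith
  exact le_of_sq_le_sq h (add_nonneg (t.n4_nonneg _) (t.n4_nonneg _))
where
  le_of_sq_le_sq {a b : ℝ} (h : a ^ 2 ≤ b ^ 2) (hb : 0 ≤ b) : a ≤ b := by
    exact (abs_le_of_sq_le_sq' h hb).2

lemma n4_sub (x y : A) : t.n4 (x - y) ≤ t.n4 x + t.n4 y := by
  rw [sub_eq_add_neg]; refine (t.n4_add _ _).trans ?_; rw [t.n4_neg]

lemma n4_sum {ι : Type*} (s : Finset ι) (f : ι → A) :
    t.n4 (∑ i ∈ s, f i) ≤ ∑ i ∈ s, t.n4 (f i) := by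
  classical
  induction s using Finset.induction_on with
  | empty => simp [n4_zero]
  | insert a s ha ih =>
    rw [Finset.sum_insert ha, Finset.sum_insert ha]
    exact (t.n4_add _ _).trans (by linarith)

/-- positivity of `τ(xy)` for positive `x`, `y` -/
lemma mul_nonneg' {x y : A} (hx : 0 ≤ x) (hy : 0 ≤ y) : 0 ≤ t.τ (x * y) := by
  obtain ⟨a, rfl⟩ := CStarAlgebra.nonneg_iff_eq_star_mul_self.1 hx
  obtain ⟨b, rfl⟩ := CStarAlgebra.nonneg_iff_eq_star_mul_self.1 hy
  have : t.τ (star a * a * (star b * b)) = t.τ (star (a * star b) * (a * star b)) := by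
    rw [star_mul, star_star, show star a * a * (star b * b) = (star a * a * star b) * b by
      simp only [mul_assoc], t.comm _ b]
    simp only [mul_assoc]
  rw [this]; exact t.nonneg _

lemma tau_nonneg {x : A} (hx : 0 ≤ x) : 0 ≤ t.τ x := by
  have := t.mul_nonneg' hx zero_le_one; simpa using this

lemma tau_real {x : A} (hx : IsSelfAdjoint x) : t.τ x = (((t.τ x).re : ℝ) : ℂ) := by
  have := t.tau_star x
  rw [hx.star_eq] at this
  exact (Complex.conj_eq_iff_re.1 this.symm).symm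

lemma tau_mul_real {x y : A} (hx : IsSelfAdjoint x) (hy : IsSelfAdjoint y) :
    t.τ (x * y) = (((t.τ (x * y)).re : ℝ) : ℂ) := by
  have := t.tau_star (x * y)
  rw [star_mul, hx.star_eq, hy.star_eq, t.comm] at this
  exact (Complex.conj_eq_iff_re.1 this.symm).symm

end TrState

end NCLp
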