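import Pool.Agent.NCLp.Basic

/-! ### THE JOB -/
open Filter Topology
open scoped ENNReal NNReal ComplexOrder ComplexConjugate

namespace NCLp

variable {A : Type*} [CStarAlgebra A] [PartialOrder A] [StarOrderedRing A]

variable {I : Type*}

lemma TrState.sq_sub_expand (t : TrState A) (x y : A) :
    t.sq (x - y) = t.sq x + t.sq y - 2 * (t.τ (star y * x)).re := by
  simp only [TrState.sq, star_sub, sub_mul, mul_sub, map_sub, Complex.sub_re]
  have : t.τ (star x * y) = conj (t.τ (star y * x)) := by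
    rw [← t.tau_star, star_mul, star_star]
  rw [this, Complex.conj_re]; ring

lemma FPD.cen_star (F : FPD A I) (i : I) : star (cen F.N F.P i) = cen F.N F.P i := by
  simp only [cen, star_sub, F.P_star, star_smul, star_one, Complex.star_def, Complex.conj_ofReal]

lemma FPD.cen_sa (F : FPD A I) (i : I) : IsSelfAdjoint (cen F.N F.P i) := F.cen_star i

lemma FPD.s_sa (F : FPD A I) (i : I) : IsSelfAdjoint (F.s i) := by
  unfold IsSelfAdjoint FPD.s
  rw [star_smul, F.cen_star, Complex.star_def, Complex.conj_ofReal]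

lemma FPD.P_sa (F : FPD A I) (i : I) : IsSelfAdjoint (F.P i) := F.P_star i

lemma FPD.N_pos (F : FPD A I) (i : I) : (0:ℝ) < F.N i := by
  have := F.N_ge i
  have : 0 < F.N i := by omega
  exact_mod_cast this

lemma FPD.tau_cen (F : FPD A I) (i : I) : F.τ (cen F.N F.P i) = 0 := by
  simp only [cen, map_sub, map_smul, F.tP, F.one, smul_eq_mul, mul_one, sub_self]

lemma FPD.tau_cen_cen (F : FPD A I) (i : I) :
    F.τ (cen F.N F.P i * cen F.N F.P i)
      = (((F.N i : ℝ)⁻¹ * (1 - (F.N i : ℝ)⁻¹) : ℝ) : ℂ) := by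
  simp only [cen, sub_mul, mul_sub, F.P_idem, smul_mul_assoc, mul_smul_comm, one_mul, mul_one,
    map_sub, map_smul, F.tP, F.one, smul_eq_mul]
  push_cast
  ring

lemma FPD.tau_s (F : FPD A I) (i : I) : F.τ (F.s i) = 0 := by
  simp only [FPD.s, map_smul, F.tau_cen, smul_zero]

lemma FPD.sum_cen_cen (F : FPD A I) (s : Finset I) (c : I → ℂ) :
    F.sq (∑ i ∈ s, c i • cen F.N F.P i)
      = ∑ i ∈ s, ‖c i‖ ^ 2 * ((F.N i : ℝ)⁻¹ * (1 - (F.N i : ℝ)⁻¹)) := by
  classical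
  have h : F.τ (star (∑ i ∈ s, c i • cen F.N F.P i) * (∑ i ∈ s, c i • cen F.N F.P i))
      = ∑ i ∈ s, (((‖c i‖ ^ 2 * ((F.N i : ℝ)⁻¹ * (1 - (F.N i : ℝ)⁻¹)) : ℝ)) : ℂ) := by
    rw [star_sum, Finset.sum_mul_sum, map_sum]
    apply Finset.sum_congr rfl
    intro i hi
    rw [map_sum, Finset.sum_eq_single i]
    · rw [star_smul, F.cen_star, smul_mul_smul_comm, map_smul, F.tau_cen_cen, smul_eq_mul,
        Complex.star_def, mul_comm (conj (c i)), Complex.mul_conj, Complex.normSq_eq_norm_sq]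
      push_cast
      ring
    · intro j _ hj
      rw [star_smul, F.cen_star, smul_mul_smul_comm, map_smul, F.alt2 i j (Ne.symm hj), smul_zero]
    · intro h; exact absurd hi h
  unfold TrState.sq
  rw [h, ← Complex.ofReal_sum, Complex.ofReal_re]

end NCLp

namespace NCLp

variable {A : Type*} [CStarAlgebra A] [PartialOrder A] [StarOrderedRing A]

variable {I : Type*}

/-- Bessel's inequality for the orthogonal family `cen i`. -/
theorem FPD.bessel' (F : FPD A I) (s : Finset I) (z : A) :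
    ∑ i ∈ s, (F.N i : ℝ) * ‖F.τ (cen F.N F.P i * z)‖ ^ 2 ≤ F.sq z := by
  set w : A := ∑ i ∈ s, ((F.N i : ℂ) * F.τ (cen F.N F.P i * z)) • cen F.N F.P i with hw
  have h0 := F.sq_nonneg (z - w)
  rw [F.sq_sub_expand] at h0
  have h1 : F.sq w ≤ ∑ i ∈ s, (F.N i : ℝ) * ‖F.τ (cen F.N F.P i * z)‖ ^ 2 := by
    rw [hw, F.sum_cen_cen]
    apply Finset.sum_le_sum
    intro i _
    have hn := F.N_pos i
    rw [norm_mul, Complex.norm_natCast, mul_pow]
    have h2 : (0:ℝ) ≤ ‖F.τ (cen F.N F.P i * z)‖ ^ 2 := by positivity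
    generalize ‖F.τ (cen F.N F.P i * z)‖ ^ 2 = u at h2
    have h3 : (F.N i : ℝ) ^ 2 * u * ((F.N i : ℝ)⁻¹ * (1 - (F.N i : ℝ)⁻¹))
        = (F.N i : ℝ) * u - u := by
      field_simp
    rw [h3]
    linarith
  have h2 : (F.τ (star w * z)).re = ∑ i ∈ s, (F.N i : ℝ) * ‖F.τ (cen F.N F.P i * z)‖ ^ 2 := by
    have h3 : F.τ (star w * z)
        = ∑ i ∈ s, (((F.N i : ℝ) * ‖F.τ (cen F.N F.P i * z)‖ ^ 2 : ℝ) : ℂ) := by
      rw [hw, star_sum, Finset.sum_mul, map_sum]
      apply Finset.sum_congr rfl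
      intro i _
      rw [star_smul, F.cen_star, smul_mul_assoc, map_smul, smul_eq_mul, Complex.star_def,
        map_mul, Complex.conj_natCast, mul_assoc, mul_comm (conj (F.τ (cen F.N F.P i * z))),
        Complex.mul_conj, Complex.normSq_eq_norm_sq]
      push_cast
      ring
    rw [h3, ← Complex.ofReal_sum, Complex.ofReal_re]
  rw [h2] at h0
  linarith

/-- coefficient: `‖τ(s_i z)‖^4 = n^3 ‖τ(c_i z)‖^4` -/
lemma FPD.tau_s_pow (F : FPD A I) (i : I) (z : A) :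
    ‖F.τ (F.s i * z)‖ ^ 4 = (F.N i : ℝ) ^ 3 * ‖F.τ (cen F.N F.P i * z)‖ ^ 4 := by
  have hn := F.N_pos i
  unfold FPD.s
  rw [smul_mul_assoc, map_smul, smul_eq_mul, norm_mul, mul_pow, Complex.norm_real,
    Real.norm_of_nonneg (Real.rpow_nonneg hn.le _)]
  congr 1
  rw [← Real.rpow_natCast, ← Real.rpow_mul hn.le]
  norm_num

lemma FPD.E1_step1 (F : FPD A I) (s : Finset I) (z : A) (hz : IsSelfAdjoint z)
    (hz0 : F.τ z = 0) :
    ∑ i ∈ s, ‖F.τ (F.s i * z)‖ ^ 4 ≤ 6 * F.n4 z ^ 4 := by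
  have hT0 : 0 ≤ F.sq z := F.sq_nonneg z
  have hTn : F.sq z ≤ F.n4 z ^ 2 := F.sq_le_n4 z
  have hB1 := F.bessel' s z
  have hB2 := F.bessel' s (z * z)
  have hn4 : F.sq (z * z) = F.n4 z ^ 4 := by
    rw [F.n4_pow, hz.star_eq]
  rw [hn4] at hB2
  have key : ∀ i ∈ s, ‖F.τ (F.s i * z)‖ ^ 4 ≤
      2 * F.sq z * ((F.N i : ℝ) * ‖F.τ (cen F.N F.P i * z)‖ ^ 2)
      + 4 * ((F.N i : ℝ) * ‖F.τ (cen F.N F.P i * (z * z))‖ ^ 2) := by
    intro i _
    have hn := F.N_pos i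
    rw [F.tau_s_pow]
    -- notation
    set a : ℝ := ‖F.τ (cen F.N F.P i * z)‖ ^ 2 with ha
    have ha0 : 0 ≤ a := by positivity
    have hcz : F.τ (cen F.N F.P i * z) = F.τ (F.P i * z) := by
      simp only [cen, sub_mul, smul_mul_assoc, one_mul, map_sub, map_smul, hz0, smul_zero, sub_zero]
    have hczz : F.τ (cen F.N F.P i * (z * z))
        = F.τ (F.P i * (z * z)) - (((F.N i : ℝ)⁻¹ : ℝ) : ℂ) * F.τ (z * z) := by
      simp only [cen, sub_mul, smul_mul_assoc, one_mul, map_sub, map_smul, smul_eq_mul]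
    set b : ℝ := (F.τ (F.P i * (z * z))).re with hb
    have hcs : a ≤ (F.N i : ℝ)⁻¹ * b := by
      have h1 := F.cs (F.P i) (F.P i * z)
      have h2 : star (F.P i) * (F.P i * z) = F.P i * z := by
        rw [F.P_star, ← mul_assoc, F.P_idem]
      have h3 : F.sq (F.P i) = (F.N i : ℝ)⁻¹ := by
        unfold TrState.sq
        rw [F.P_star, F.P_idem, F.tP, Complex.ofReal_re]
      have h4 : F.sq (F.P i * z) = b := by
        unfold TrState.sq
        rw [star_mul, F.P_star, hz.star_eq, hb, mul_assoc, ← mul_assoc (F.P i) (F.P i),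
          F.P_idem, F.comm, mul_assoc]
      rw [h2, h3, h4] at h1
      rw [ha, hcz]
      exact h1
    have hT : F.sq z = (F.τ (z * z)).re := by
      unfold TrState.sq
      rw [hz.star_eq]
    have hre : |b - (F.N i : ℝ)⁻¹ * F.sq z| ≤ ‖F.τ (cen F.N F.P i * (z * z))‖ := by
      have h5 : b - (F.N i : ℝ)⁻¹ * F.sq z = (F.τ (cen F.N F.P i * (z * z))).re := by
        rw [hczz, Complex.sub_re, Complex.re_ofReal_mul, hT]
      rw [h5]
      exact Complex.abs_re_le_norm _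
    have hsq : (b - (F.N i : ℝ)⁻¹ * F.sq z) ^ 2 ≤ ‖F.τ (cen F.N F.P i * (z * z))‖ ^ 2 := by
      rw [← sq_abs]
      exact pow_le_pow_left₀ (abs_nonneg _) hre 2
    have h44 : ‖F.τ (cen F.N F.P i * z)‖ ^ 4 = a ^ 2 := by rw [ha]; ring
    rw [h44]
    generalize ‖F.τ (cen F.N F.P i * (z * z))‖ ^ 2 = v at hsq
    generalize F.sq z = T at *
    generalize (F.N i : ℝ) = n at *
    clear_value a b
    have hv : 0 ≤ v := le_trans (sq_nonneg _) hsq
    by_cases hc : n ^ 2 * a ≤ 2 * T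
    · have h6 : n ^ 3 * a ^ 2 = (n ^ 2 * a) * (n * a) := by ring
      rw [h6]
      have h7 : (n ^ 2 * a) * (n * a) ≤ (2 * T) * (n * a) :=
        mul_le_mul_of_nonneg_right hc (mul_nonneg hn.le ha0)
      have h8 : 0 ≤ 4 * (n * v) := by positivity
      linarith
    · push Not at hc
      -- n^2 a ≤ n b
      have h9 : n ^ 2 * a ≤ n * b := by
        have := mul_le_mul_of_nonneg_left hcs (by positivity : 0 ≤ n ^ 2)
        have e : n ^ 2 * (n⁻¹ * b) = n * b := by field_simp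
        rwa [e] at this
      -- x = n b - T ≥ n^2 a /2 
      have h10 : n ^ 2 * a / 2 ≤ n * b - T := by linarith
      have h11 : (n ^ 2 * a / 2) ^ 2 ≤ (n * b - T) ^ 2 :=
        pow_le_pow_left₀ (by positivity) h10 2
      have h12 : (n * b - T) ^ 2 = n ^ 2 * (b - n⁻¹ * T) ^ 2 := by
        field_simp
      have h13 : (n * b - T) ^ 2 ≤ n ^ 2 * v := by
        rw [h12]
        exact mul_le_mul_of_nonneg_left hsq (by positivity)
      have h14 : n ^ 4 * a ^ 2 ≤ 4 * (n ^ 2 * v) := by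
        have : (n ^ 2 * a / 2) ^ 2 = n ^ 4 * a ^ 2 / 4 := by ring
        linarith
      have h15 : n ^ 3 * a ^ 2 ≤ 4 * (n * v) := by
        have h16 : n * (n ^ 3 * a ^ 2) ≤ n * (4 * (n * v)) := by
          have e1 : n * (n ^ 3 * a ^ 2) = n ^ 4 * a ^ 2 := by ring
          have e2 : n * (4 * (n * v)) = 4 * (n ^ 2 * v) := by ring
          rw [e1, e2]; exact h14
        exact le_of_mul_le_mul_left h16 hn
      have h17 : 0 ≤ 2 * T * (n * a) := by positivity
      linarith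
  refine (Finset.sum_le_sum key).trans ?_
  rw [Finset.sum_add_distrib, ← Finset.mul_sum, ← Finset.mul_sum]
  generalize (∑ i ∈ s, (F.N i : ℝ) * ‖F.τ (cen F.N F.P i * z)‖ ^ 2) = S1 at *
  generalize (∑ i ∈ s, (F.N i : ℝ) * ‖F.τ (cen F.N F.P i * (z * z))‖ ^ 2) = S2 at *
  have e1 : 2 * F.sq z * S1 ≤ 2 * F.sq z * F.sq z :=
    mul_le_mul_of_nonneg_left hB1 (by positivity)
  have e2 : F.sq z * F.sq z ≤ F.n4 z ^ 2 * F.n4 z ^ 2 :=
    mul_le_mul hTn hTn hT0 (by positivity)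
  have e3 : F.n4 z ^ 2 * F.n4 z ^ 2 = F.n4 z ^ 4 := by ring
  linarith

lemma FPD.E1_step2 (F : FPD A I) (s : Finset I) (z : A) (hz : IsSelfAdjoint z) :
    ∑ i ∈ s, ‖F.τ (F.s i * z)‖ ^ 4 ≤ 96 * F.n4 z ^ 4 := by
  set z' : A := z - (F.τ z) • (1 : A) with hz'
  have hsa : IsSelfAdjoint z' := by
    unfold IsSelfAdjoint
    rw [hz', star_sub, star_smul, star_one, hz.star_eq, F.tau_real hz, Complex.star_def,
      Complex.conj_ofReal]
  have h0 : F.τ z' = 0 := by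
    rw [hz', map_sub, map_smul, F.one, smul_eq_mul, mul_one, sub_self]
  have h1 : ∀ i, F.τ (F.s i * z') = F.τ (F.s i * z) := by
    intro i
    rw [hz', mul_sub, mul_smul_comm, mul_one, map_sub, map_smul, F.tau_s, smul_zero, sub_zero]
  have h2 := F.E1_step1 s z' hsa h0
  simp only [h1] at h2
  have h3 : F.n4 z' ≤ 2 * F.n4 z := by
    have := F.n4_sub z ((F.τ z) • (1 : A))
    rw [F.n4_smul, F.n4_one, mul_one] at this
    have h5 := F.norm_tau_le_n4 z
    linarith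
  have h4 : F.n4 z' ^ 4 ≤ (2 * F.n4 z) ^ 4 := pow_le_pow_left₀ (F.n4_nonneg _) h3 4
  have h5 : (2 * F.n4 z) ^ 4 = 16 * F.n4 z ^ 4 := by ring
  linarith

lemma norm_add_I_mul_pow_four (a b : ℝ) :
    ‖(a : ℂ) + Complex.I * (b : ℂ)‖ ^ 4 = (a ^ 2 + b ^ 2) ^ 2 := by
  have h : ‖(a : ℂ) + Complex.I * (b : ℂ)‖ ^ 2 = a ^ 2 + b ^ 2 := by
    rw [← Complex.normSq_eq_norm_sq, Complex.normSq_apply]
    simp
    ring
  rw [show ‖(a : ℂ) + Complex.I * (b : ℂ)‖ ^ 4 = (‖(a : ℂ) + Complex.I * (b : ℂ)‖ ^ 2) ^ 2 by ring,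
    h]

end NCLp


namespace NCLp

variable {A : Type*} [CStarAlgebra A] [PartialOrder A] [StarOrderedRing A]

variable {I : Type*}

/-- Bessel's inequality for the orthogonal family `cen i`. -/
theorem FPD.bessel (F : FPD A I) (s : Finset I) (z : A) :
    ∑ i ∈ s, (F.N i : ℝ) * ‖F.τ (cen F.N F.P i * z)‖ ^ 2 ≤ F.sq z := by
  exact F.bessel' s z

/-- the dual `ℓ^4` estimate -/
theorem FPD.E1 (F : FPD A I) (s : Finset I) (z : A) :
    ∑ i ∈ s, ‖F.τ (F.s i * z)‖ ^ 4 ≤ 384 * F.n4 z ^ 4 := by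
  set z1 : A := (1 / 2 : ℂ) • (z + star z) with hz1
  set z2 : A := (-Complex.I / 2 : ℂ) • (z - star z) with hz2
  have hsa1 : IsSelfAdjoint z1 := by
    unfold IsSelfAdjoint
    rw [hz1, star_smul, star_add, star_star, Complex.star_def, add_comm (star z)]
    congr 1
    rw [show (1 / 2 : ℂ) = ((1 / 2 : ℝ) : ℂ) by push_cast; ring, Complex.conj_ofReal]
  have hsa2 : IsSelfAdjoint z2 := by
    unfold IsSelfAdjoint
    rw [hz2, star_smul, star_sub, star_star, Complex.star_def, ← neg_sub z (star z), smul_neg,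
      ← neg_smul]
    congr 1
    rw [show (-Complex.I / 2 : ℂ) = ((-1 / 2 : ℝ) : ℂ) * Complex.I by push_cast; ring, map_mul,
      Complex.conj_ofReal, Complex.conj_I]
    ring
  have hdec : z = z1 + Complex.I • z2 := by
    rw [hz1, hz2, smul_smul]
    have : Complex.I * (-Complex.I / 2) = 1 / 2 := by
      linear_combination (-1/2 : ℂ) * Complex.I_sq
    rw [this, ← smul_add, show z + star z + (z - star z) = (2 : ℂ) • z by
      rw [two_smul]; abel, smul_smul]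
    norm_num
  have hn1 : F.n4 z1 ≤ F.n4 z := by
    have := F.n4_add z (star z)
    rw [F.n4_star] at this
    rw [hz1, F.n4_smul]
    norm_num
    linarith
  have hn2 : F.n4 z2 ≤ F.n4 z := by
    have := F.n4_sub z (star z)
    rw [F.n4_star] at this
    rw [hz2, F.n4_smul]
    norm_num
    linarith
  clear_value z1 z2
  have h1 := F.E1_step2 s z1 hsa1
  have h2 := F.E1_step2 s z2 hsa2
  have key : ∀ i ∈ s, ‖F.τ (F.s i * z)‖ ^ 4
      ≤ 2 * (‖F.τ (F.s i * z1)‖ ^ 4 + ‖F.τ (F.s i * z2)‖ ^ 4) := by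
    intro i _
    have e1 := F.tau_mul_real (F.s_sa i) hsa1
    have e2 := F.tau_mul_real (F.s_sa i) hsa2
    set a : ℝ := (F.τ (F.s i * z1)).re with ha
    set b : ℝ := (F.τ (F.s i * z2)).re with hb
    have e3 : F.τ (F.s i * z) = (a : ℂ) + Complex.I * (b : ℂ) := by
      conv_lhs => rw [hdec]
      rw [mul_add, mul_smul_comm, map_add, map_smul, smul_eq_mul, e1, e2]
    rw [e3, e1, e2, norm_add_I_mul_pow_four, Complex.norm_real, Complex.norm_real,
      Real.norm_eq_abs, Real.norm_eq_abs]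
    have e4 : |a| ^ 4 = a ^ 4 := by
      rw [show |a| ^ 4 = (|a| ^ 2) ^ 2 by ring, sq_abs]; ring
    have e5 : |b| ^ 4 = b ^ 4 := by
      rw [show |b| ^ 4 = (|b| ^ 2) ^ 2 by ring, sq_abs]; ring
    rw [e4, e5]
    clear_value a b
    nlinarith [sq_nonneg (a ^ 2 - b ^ 2)]
  refine (Finset.sum_le_sum key).trans ?_
  rw [← Finset.mul_sum, Finset.sum_add_distrib]
  have h3 : F.n4 z1 ^ 4 ≤ F.n4 z ^ 4 := pow_le_pow_left₀ (F.n4_nonneg _) hn1 4
  have h4 : F.n4 z2 ^ 4 ≤ F.n4 z ^ 4 := pow_le_pow_left₀ (F.n4_nonneg _) hn2 4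
  linarith

end NCLp
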