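import Pool.Agent.NCLp.ChainOps

open Filter Topology
open scoped ENNReal NNReal ComplexOrder ComplexConjugate

namespace NCLp

open Pool.Agent.Helper86.NC

variable {A : Type} [CStarAlgebra A] [PartialOrder A] [StarOrderedRing A]

/-- choice of the parameters -/
lemma exists_params (L : ℕ) (ε : ℝ) (hε : 0 < ε) : ∃ (K : ℕ) (Γ : ℝ) (E : ℕ → ℕ) (m : ℕ),
    1 ≤ K ∧ (K : ℝ) ≤ Γ ∧ 1 ≤ Γ ∧ 4 * 16 ^ 5 * (((L - 1 : ℕ)) : ℝ) ^ 2 ≤ Γ ∧
    4 * (K : ℝ) ^ (-(1 / 2) : ℝ) + 5 * Γ ^ (-(1 / 4) : ℝ) ≤ ε ∧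
    (∀ i < L - 1, E (i + 1) + K ≤ E i) ∧
    (∀ i < L - 1, Γ * K * ((16 : ℝ) ^ (E (i + 1) + K)) ^ 3 ≤ (16 : ℝ) ^ (E i + 1)) ∧
    L + 2 ≤ m ∧
    (∀ i < L - 1, 2 * 16 ^ 5 * (((L - 1 : ℕ)) : ℝ) * 16 ^ (E (i + 1) + K) ≤ m) := by
  -- K
  have h1 : Tendsto (fun K : ℕ => 4 * (K : ℝ) ^ (-(1 / 2) : ℝ)) atTop (𝓝 (4 * 0)) :=
    ((tendsto_rpow_neg_atTop (by norm_num : (0 : ℝ) < 1 / 2)).comp
      tendsto_natCast_atTop_atTop).const_mul 4
  have h2 : Tendsto (fun Γ : ℝ => 5 * Γ ^ (-(1 / 4) : ℝ)) atTop (𝓝 (5 * 0)) :=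
    (tendsto_rpow_neg_atTop (by norm_num : (0 : ℝ) < 1 / 4)).const_mul 5
  rw [mul_zero] at h1 h2
  obtain ⟨K, hK1, hK2⟩ := ((h1.eventually (gt_mem_nhds (by positivity : (0 : ℝ) < ε / 2))).and
    (eventually_ge_atTop 1)).exists
  obtain ⟨Γ, hΓ1, hΓ2⟩ := ((h2.eventually (gt_mem_nhds (by positivity : (0 : ℝ) < ε / 2))).and
    (eventually_ge_atTop (max (max (K : ℝ) 1) (4 * 16 ^ 5 * (((L - 1 : ℕ)) : ℝ) ^ 2)))).exists
  have hΓK : (K : ℝ) ≤ Γ := (le_max_left _ _).trans ((le_max_left _ _).trans hΓ2)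
  have hΓ1' : (1 : ℝ) ≤ Γ := (le_max_right _ _).trans ((le_max_left _ _).trans hΓ2)
  have hΓL : 4 * 16 ^ 5 * (((L - 1 : ℕ)) : ℝ) ^ 2 ≤ Γ := (le_max_right _ _).trans hΓ2
  obtain ⟨g, hg⟩ := pow_unbounded_of_one_lt (Γ * K) (by norm_num : (1 : ℝ) < 16)
  let D : ℕ → ℕ := fun r => Nat.rec 0 (fun _ d => g + 3 * (d + K)) r
  have hD : ∀ r, D (r + 1) = g + 3 * (D r + K) := fun r => rfl
  let E : ℕ → ℕ := fun i => D (L - 1 - i)
  have hE : ∀ i < L - 1, E i = g + 3 * (E (i + 1) + K) := by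
    intro i hi
    change D (L - 1 - i) = g + 3 * (D (L - 1 - (i + 1)) + K)
    rw [show L - 1 - i = (L - 1 - (i + 1)) + 1 by omega, hD]
  refine ⟨K, Γ, E, L + 2 + ∑ i ∈ Finset.range (L - 1), 2 * 16 ^ 5 * (L - 1) * 16 ^ (E (i + 1) + K),
    hK2, hΓK, hΓ1', hΓL, by linarith, ?_, ?_, by omega, ?_⟩
  · intro i hi
    rw [hE i hi]; omega
  · intro i hi
    rw [hE i hi, ← pow_mul]
    calc Γ * K * (16 : ℝ) ^ ((E (i + 1) + K) * 3) ≤ 16 ^ g * 16 ^ ((E (i + 1) + K) * 3) := by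
          gcongr
      _ = 16 ^ (g + 3 * (E (i + 1) + K)) := by rw [← pow_add]; congr 1; ring
      _ ≤ 16 ^ (g + 3 * (E (i + 1) + K) + 1) := pow_le_pow_right₀ (by norm_num) (by omega)
  · intro i hi
    have h3 := Finset.single_le_sum (f := fun i => 2 * 16 ^ 5 * (L - 1) * 16 ^ (E (i + 1) + K))
      (fun i _ => Nat.zero_le _) (Finset.mem_range.2 hi)
    have h4 : ((2 * 16 ^ 5 * (L - 1) * 16 ^ (E (i + 1) + K) : ℕ) : ℝ) ≤
        ((L + 2 + ∑ i ∈ Finset.range (L - 1), 2 * 16 ^ 5 * (L - 1) * 16 ^ (E (i + 1) + K) : ℕ) : ℝ) := by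
      exact_mod_cast (show _ ≤ _ by omega)
    refine le_trans (le_of_eq ?_) h4
    push_cast
    ring

section

variable (Φ : FPD A (ℕ × ℕ)) {Y : Type} [NormedAddCommGroup Y] [NormedSpace ℂ Y]
  (D : YD Φ.toTrState Y) (K : ℕ) (E : ℕ → ℕ) (L' m : ℕ)

/-- the chain operator -/
noncomputable def chB : Y →L[ℂ] Y :=
  ∑ l : Fin L' × Fin m, (D.pair (chF Φ K E l.1 l.2)).smulRight (D.ι (chX Φ K E (l.1 + 1) l.2))

lemma chB_apply (y : Y) : chB Φ D K E L' m y =
    ∑ l : Fin L' × Fin m, D.pair (chF Φ K E l.1 l.2) y • D.ι (chX Φ K E (l.1 + 1) l.2) := by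
  rw [chB, ContinuousLinearMap.sum_apply]
  rfl

lemma pair_chB (z : A) (y : Y) : D.pair z (chB Φ D K E L' m y) =
    D.pair (∑ l : Fin L' × Fin m, Φ.τ (chX Φ K E (l.1 + 1) l.2 * z) • chF Φ K E l.1 l.2) y := by
  rw [chB_apply, map_sum, D.pair_sum]
  apply Finset.sum_congr rfl
  intro l _
  rw [map_smul, D.pair_ι, smul_eq_mul, D.pair_smul, Φ.comm, mul_comm]

end

theorem chain_base (Φ : FPD A (ℕ × ℕ)) {Y : Type} [NormedAddCommGroup Y] [NormedSpace ℂ Y]
    [CompleteSpace Y] (D : YD Φ.toTrState Y) (hN : ∀ i, Φ.N i = 16 ^ (i.1 + 1))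
    (haut : ∀ m : ℕ, 1 ≤ m → ∃ T : A →⋆ₐ[ℂ] A, (∀ x, T^[m] x = x) ∧ (∀ x, Φ.τ (T x) = Φ.τ x) ∧
      ∀ s u, u < m → T (Φ.P (s, u)) = Φ.P (s, (u + 1) % m))
    (L : ℕ) (hL : 2 ≤ L) (ε : ℝ) (hε : 0 < ε) :
    ∃ (m : ℕ) (σ : Y ≃ₗᵢ[ℂ] Y) (B : Y →L[ℂ] Y) (v : Y) (h : ℕ → (Y →L[ℂ] ℂ)) (κ : ℝ),
      Base D.C D.u D.tr 9 L ε m σ B v h κ := by
  obtain ⟨K, Γ, E, m, hK, hKΓ, hΓ1, hΓL, hεK, hE, hΓE, hm, hmE⟩ := exists_params L ε hε
  have hm1 : 1 ≤ m := by omega
  have hm0 : 0 < m := by omega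
  obtain ⟨T, hTm, hTτ, hTP⟩ := haut m hm1
  obtain ⟨σ, hσ, hσm⟩ := exists_sigma T hTτ D hm1 hTm
  let O := chainStep Φ hN K E (L - 1) m Γ hE hΓE
  have hOX : ∀ l, O.X l = chX Φ K E (l.1 + 1) l.2 := fun _ => rfl
  have hOf : ∀ l, O.f l = chF Φ K E l.1 l.2 := fun _ => rfl
  set B := chB Φ D K E (L - 1) m with hB
  -- levels have disjoint exponents
  have key : ∀ d i : ℕ, i + d ≤ L - 1 → E (i + d) + d * K ≤ E i := by
    intro d
    induction d with
    | zero => intro i _; simp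
    | succ d ih =>
      intro i hi
      have h1 := ih i (by omega)
      have h2 := hE (i + d) (by omega)
      rw [show i + (d + 1) = i + d + 1 by ring, Nat.succ_mul]
      omega
  have lt : ∀ i i' : ℕ, i < i' → i' ≤ L - 1 → E i' + K ≤ E i := by
    intro i i' h h'
    have h1 := key (i' - i) i (by omega)
    rw [show i + (i' - i) = i' by omega] at h1
    have : K ≤ (i' - i) * K := Nat.le_mul_of_pos_left K (by omega)
    omega
  have hdisj : ∀ i i' : ℕ, i ≤ L - 1 → i' ≤ L - 1 → i ≠ i' → ∀ k < K, ∀ k' < K,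
      E i + k ≠ E i' + k' := by
    intro i i' hi hi' hne k hk k' hk'
    rcases Nat.lt_or_gt_of_ne hne with h | h
    · have := lt i i' h hi'; omega
    · have := lt i' i h hi; omega
  -- the action on the chain elements
  have hBX : ∀ i j : ℕ, i < L - 1 → j < m → B (D.ι (chX Φ K E i j)) =
      ((chc K E i : ℝ) : ℂ) • D.ι (chX Φ K E (i + 1) j) := by
    intro i j hi hj
    rw [hB, chB_apply, Finset.sum_eq_single (⟨⟨i, hi⟩, ⟨j, hj⟩⟩ : Fin (L - 1) × Fin m)]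
    · rw [D.pair_ι, ch_pair_eq Φ hN K hK]
    · rintro ⟨⟨i', hi'⟩, ⟨j', hj'⟩⟩ _ hne
      have hne' : i' ≠ i ∨ j' ≠ j := by
        by_contra hcon
        push Not at hcon
        exact hne (by simp [hcon.1, hcon.2])
      rw [D.pair_ι, ch_pair_ne Φ K E i' j' i j hne'
        (fun h => hdisj i' i (by omega) (by omega) h), zero_smul]
    · intro h; exact absurd (Finset.mem_univ _) h
  have hBX0 : ∀ j : ℕ, B (D.ι (chX Φ K E (L - 1) j)) = 0 := by
    intro j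
    rw [hB, chB_apply]
    apply Finset.sum_eq_zero
    rintro ⟨⟨i', hi'⟩, ⟨j', hj'⟩⟩ _
    rw [D.pair_ι, ch_pair_ne Φ K E i' j' (L - 1) j (Or.inl (by omega))
      (fun h => hdisj i' (L - 1) (by omega) le_rfl h), zero_smul]
  -- powers of `B` on the chain elements
  have hpow : ∀ k i j : ℕ, i + k ≤ L - 1 → j < m → (B ^ k) (D.ι (chX Φ K E i j)) =
      ((∏ r ∈ Finset.range k, chc K E (i + r) : ℝ) : ℂ) • D.ι (chX Φ K E (i + k) j) := by
    intro k
    induction k with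
    | zero => intro i j _ _; simp
    | succ k ih =>
      intro i j hi hj
      rw [pow_succ', mul_apply_eq_comp, ih i j (by omega) hj, map_smul,
        hBX (i + k) j (by omega) hj, smul_smul, Finset.prod_range_succ, ← Complex.ofReal_mul,
        add_assoc]
  have hpow0 : ∀ k i j : ℕ, i ≤ L - 1 → L - 1 < i + k → j < m →
      (B ^ k) (D.ι (chX Φ K E i j)) = 0 := by
    intro k i j hi hk hj
    obtain ⟨k', hk'⟩ : ∃ k', k = k' + (1 + (L - 1 - i)) := ⟨k - (1 + (L - 1 - i)), by omega⟩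
    rw [hk', pow_add, pow_add, pow_one, mul_apply_eq_comp, mul_apply_eq_comp,
      hpow (L - 1 - i) i j (by omega) hj, map_smul, show i + (L - 1 - i) = L - 1 by omega, hBX0,
      smul_zero, map_zero]
  have hσX : ∀ (b i j : ℕ), j < m → σ^[b] (D.ι (chX Φ K E i j)) =
      D.ι (chX Φ K E i ((j + b) % m)) := by
    intro b i j hj
    rw [← T_chX_iter Φ T hTP hN K E i j hj b]
    clear hj
    induction b with
    | zero => rfl
    | succ b ih =>
      rw [Function.iterate_succ_apply', ih, hσ, Function.iterate_succ_apply']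
  have hσsmul : ∀ (b : ℕ) (c : ℂ) (y : Y), σ^[b] (c • y) = c • σ^[b] y := by
    intro b c y
    induction b with
    | zero => rfl
    | succ b ih => rw [Function.iterate_succ_apply', ih, map_smul, Function.iterate_succ_apply']
  have hσsum : ∀ (b : ℕ) (f : Fin (L - 1) × Fin m → Y), σ^[b] (∑ l, f l) = ∑ l, σ^[b] (f l) := by
    intro b f
    induction b with
    | zero => rfl
    | succ b ih =>
      rw [Function.iterate_succ_apply', ih, map_sum]
      exact Finset.sum_congr rfl (fun l _ => by rw [Function.iterate_succ_apply'])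
  refine ⟨m, σ, B, D.ι (chX Φ K E 0 0), fun a => D.pair (chF Φ K E (L - 1) a),
    ∏ r ∈ Finset.range L, chc K E r, ?_⟩
  constructor
  · exact hm
  · exact hσm
  · -- sC
    refine D.C_ind (p := fun y => σ y ∈ D.C) (D.isClosed_C.preimage σ.continuous) ?_
    intro x hx
    rw [hσ]
    exact D.ι_mem (nonneg_map T x hx)
  · -- su
    rw [YD.u, hσ, map_one]
  · -- ts
    refine D.dense_ind (p := fun y => D.tr (σ y) = D.tr y)
      (isClosed_eq (D.tr.continuous.comp σ.continuous) D.tr.continuous) ?_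
    intro x
    rw [hσ, D.tr_ι, D.tr_ι, hTτ]
  · -- Bu
    rw [hB, chB_apply, YD.u]
    apply Finset.sum_eq_zero
    intro l _
    rw [D.pair_ι, mul_one, chF_one, zero_smul]
  · -- tB
    intro y
    rw [hB, chB_apply, map_sum]
    apply Finset.sum_eq_zero
    intro l _
    rw [map_smul, D.tr_ι, chX_one, smul_zero]
  · -- Bs
    intro y
    have hpair : ∀ (i j : ℕ), j < m → ∀ y, D.pair (chF Φ K E i ((j + 1) % m)) (σ y) =
        D.pair (chF Φ K E i j) y := by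
      intro i j hj
      refine D.dense_ind (p := fun y => D.pair (chF Φ K E i ((j + 1) % m)) (σ y) =
        D.pair (chF Φ K E i j) y) (isClosed_eq ((D.pair _).continuous.comp σ.continuous)
          (D.pair _).continuous) ?_
      intro x
      rw [hσ, D.pair_ι, D.pair_ι, ← T_chF Φ T hTP hN K E i j hj, ← map_mul, hTτ]
    let sh : Fin (L - 1) × Fin m → Fin (L - 1) × Fin m := fun l =>
      (l.1, ⟨((l.2 : ℕ) + 1) % m, Nat.mod_lt _ hm0⟩)
    have hsh : Function.Bijective sh := by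
      rw [Fintype.bijective_iff_injective_and_card]
      refine ⟨?_, rfl⟩
      rintro ⟨i, j⟩ ⟨i', j'⟩ h
      simp only [sh, Prod.mk.injEq, Fin.mk.injEq] at h
      obtain ⟨h1, h2⟩ := h
      have h3 : (j : ℕ) ≡ j' [MOD m] := Nat.ModEq.add_right_cancel' 1 h2
      have h4 : (j : ℕ) = j' := by
        have := h3
        unfold Nat.ModEq at this
        rwa [Nat.mod_eq_of_lt j.2, Nat.mod_eq_of_lt j'.2] at this
      rw [h1, Fin.ext h4]
    rw [hB, chB_apply, chB_apply, map_sum, ← hsh.sum_comp]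
    apply Finset.sum_congr rfl
    intro l _
    rw [map_smul, hσ, T_chX Φ T hTP hN K E _ _ l.2.2]
    change D.pair (chF Φ K E l.1 (((l.2 : ℕ) + 1) % m)) (σ y) •
      D.ι (chX Φ K E (l.1 + 1) (((l.2 : ℕ) + 1) % m)) = _
    rw [hpair _ _ l.2.2]
  · -- Bn
    refine ContinuousLinearMap.opNorm_le_bound _ (by norm_num) (fun y => ?_)
    apply D.norming _ _ (by positivity)
    intro z
    rw [hB, pair_chB]
    refine (D.pair_le _ _).trans ?_
    have h1 := O.bound hK hΓ1 z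
    simp only [hOX, hOf] at h1
    calc _ ≤ (9 * Φ.n4 z) * ‖y‖ := mul_le_mul_of_nonneg_right h1 (norm_nonneg _)
      _ = 9 * ‖y‖ * Φ.n4 z := by ring
  · -- np
    refine D.C_ind (p := fun g => B g + (((ε * ‖g‖ : ℝ)) : ℂ) • D.u ∈ D.C)
      (D.isClosed_C.preimage (by fun_prop)) ?_
    intro x hx
    have h1 := O.neg hK hKΓ x hx
    simp only [hOX, hOf] at h1
    have h2 : B (D.ι x) + (((ε * ‖D.ι x‖ : ℝ)) : ℂ) • D.u =
        D.ι (∑ l : Fin (L - 1) × Fin m, Φ.τ (chF Φ K E l.1 l.2 * x) • chX Φ K E (l.1 + 1) l.2 +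
          ((((4 * (K : ℝ) ^ (-(1 / 2) : ℝ) + 5 * Γ ^ (-(1 / 4) : ℝ)) * Φ.n43 x : ℝ)) : ℂ) •
          (1 : A)) + ((((ε - (4 * (K : ℝ) ^ (-(1 / 2) : ℝ) + 5 * Γ ^ (-(1 / 4) : ℝ))) *
            Φ.n43 x : ℝ)) : ℂ) • D.u := by
      rw [map_add, map_sum, map_smul, hB, chB_apply, add_assoc, YD.u, ← add_smul, D.norm_ι,
        ← Complex.ofReal_add]
      congr 1
      · apply Finset.sum_congr rfl
        intro l _
        rw [D.pair_ι, map_smul]
      · congr 2; ring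
    rw [h2]
    refine D.C_add (D.ι_mem h1) (D.C_smul D.u_mem _ ?_)
    exact mul_nonneg (by linarith) (Φ.toTrState.n43_nonneg x)
  · -- av
    intro Z hZ y
    apply D.norming _ _ (by positivity)
    intro z
    have hM : ∀ l : Fin (L - 1) × Fin m,
        2 * 16 ^ 5 * (((L - 1 : ℕ)) : ℝ) * 16 ^ (O.e l + K) ≤ m := fun l => hmE l.1 l.1.2
    have h1 := O.cyc hK hm0 (fun _ _ _ => rfl) hΓL hΓ1 hM Z hZ z
    simp only [hOX, hOf] at h1
    have h2 : D.pair z (∑ a ∈ Finset.range m, Z ^ a • (σ^[a] (B y))) =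
        D.pair (∑ l : Fin (L - 1) × Fin m, (∑ a ∈ Finset.range m,
          Z ^ a * Φ.τ (chX Φ K E (l.1 + 1) (((l.2 : ℕ) + a) % m) * z)) • chF Φ K E l.1 l.2) y := by
      have h3 : ∀ a : ℕ, σ^[a] (B y) = ∑ l : Fin (L - 1) × Fin m,
          D.pair (chF Φ K E l.1 l.2) y • D.ι (chX Φ K E (l.1 + 1) (((l.2 : ℕ) + a) % m)) := by
        intro a
        rw [hB, chB_apply, hσsum]
        exact Finset.sum_congr rfl (fun l _ => by rw [hσsmul, hσX a _ _ l.2.2])
      rw [map_sum, D.pair_sum]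
      simp only [map_smul, h3, map_sum, D.pair_ι, D.pair_smul, smul_eq_mul, Finset.mul_sum,
        Finset.sum_mul]
      rw [Finset.sum_comm]
      apply Finset.sum_congr rfl
      intro l _
      apply Finset.sum_congr rfl
      intro a _
      rw [Φ.comm z]; ring
    rw [h2]
    refine (D.pair_le _ _).trans ?_
    calc _ ≤ ((m : ℝ) / 16 * Φ.n4 z) * ‖y‖ := mul_le_mul_of_nonneg_right h1 (norm_nonneg _)
      _ = _ := by ring
  · -- nil
    ext y
    obtain ⟨L0, rfl⟩ : ∃ L0, L = L0 + 1 := ⟨L - 1, by omega⟩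
    rw [pow_succ, mul_apply_eq_comp, zero_apply]
    conv_lhs => rw [hB, chB_apply, ← hB]
    rw [map_sum]
    apply Finset.sum_eq_zero
    intro l _
    rw [map_smul, hpow0 L0 (l.1 + 1) l.2 (by have := l.1.2; omega) (by omega) l.2.2, smul_zero]
  · -- h1
    intro a ha b k hk
    rw [hpow k 0 0 (by omega) hm0, hσsmul, hσX b _ _ hm0, map_smul, D.pair_ι,
      ch_pair_ne Φ K E (L - 1) a (0 + k) _ (Or.inl (by omega))
        (fun h => hdisj (L - 1) (0 + k) le_rfl (by omega) h), smul_zero]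
  · -- h2
    intro a ha b
    rw [hpow (L - 1) 0 0 (by omega) hm0, hσsmul, hσX b _ _ hm0, map_smul, D.pair_ι]
    simp only [zero_add]
    by_cases hab : b % m = a
    · rw [if_pos hab, hab, ch_pair_eq Φ hN K hK, smul_eq_mul, ← Complex.ofReal_mul,
        ← Finset.prod_range_succ, show L - 1 + 1 = L by omega]
    · rw [if_neg hab, ch_pair_ne Φ K E (L - 1) a (L - 1) (b % m) (Or.inr (Ne.symm hab))
        (fun h => absurd rfl h), smul_zero]
  · -- hk
    calc (15 / 16 : ℝ) ^ L = ∏ r ∈ Finset.range L, (15 / 16 : ℝ) := by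
          rw [Finset.prod_const, Finset.card_range]
      _ ≤ _ := Finset.prod_le_prod (fun _ _ => by norm_num) (fun r _ => chc_ge K hK E r)
  · -- hW
    intro W _
    refine (norm_sum_le _ _).trans ?_
    calc ∑ a ∈ W, ‖D.pair (chF Φ K E (L - 1) a)‖ ≤ ∑ a ∈ W, (9 : ℝ) := by
          apply Finset.sum_le_sum
          intro a _
          refine ContinuousLinearMap.opNorm_le_bound _ (by norm_num) (fun y => ?_)
          refine (D.pair_le _ _).trans ?_
          have := chF_norm Φ hN K hK E (L - 1) a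
          exact mul_le_mul_of_nonneg_right (by linarith) (norm_nonneg _)
      _ = 9 * W.card := by rw [Finset.sum_const, nsmul_eq_mul]; ring
  · -- vn
    apply D.norming _ _ (by norm_num)
    intro z
    rw [D.pair_ι, Φ.comm]
    have := chX_norm Φ K hK E 0 0 z
    have h0 := Φ.toTrState.n4_nonneg z
    linarith

end NCLp
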