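import Pool.Agent.NCLp.ChainDef

/-! ### THE JOB -/
open Filter Topology
open scoped ENNReal NNReal ComplexOrder ComplexConjugate

namespace NCLp

variable {A : Type*} [CStarAlgebra A] [PartialOrder A] [StarOrderedRing A]

lemma K34 {K : ℕ} (hK : 1 ≤ K) : ((K : ℝ) ^ (-(3 / 4) : ℝ)) ^ 2 * K ≤ 1 := by
  have hK0 : (0 : ℝ) < K := by exact_mod_cast hK
  have hK1 : (1 : ℝ) ≤ K := by exact_mod_cast hK
  rw [← Real.rpow_natCast, ← Real.rpow_mul hK0.le]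
  nth_rewrite 2 [← Real.rpow_one (K : ℝ)]
  rw [← Real.rpow_add hK0]
  apply Real.rpow_le_one_of_one_le_of_nonpos hK1
  norm_num

lemma N34 {N M : ℝ} (hN : 0 < N) (hNM : N ≤ M) :
    (N ^ (3 / 4 : ℝ)) ^ 2 ≤ M ^ (1 / 2 : ℝ) * N := by
  have h1 : (N ^ (3 / 4 : ℝ)) ^ 2 = N ^ (1 / 2 : ℝ) * N := by
    rw [← Real.rpow_natCast, ← Real.rpow_mul hN.le]
    nth_rewrite 3 [← Real.rpow_one N]
    rw [← Real.rpow_add hN]
    norm_num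
  rw [h1]
  exact mul_le_mul_of_nonneg_right (Real.rpow_le_rpow hN.le hNM (by norm_num)) hN.le

theorem OneStep.tauX {I : Type*} {F : FPD A I} {L : Type*} {K : ℕ} {Γ : ℝ}
    (O : OneStep F L K Γ) (hK : 1 ≤ K) (l : L) (z : A) :
    ‖F.τ (O.X l * z)‖ ^ 2 ≤ ((16 : ℝ) ^ (O.e l + K)) ^ (1 / 2 : ℝ) *
      ∑ k : Fin K, (F.N (O.b l k) : ℝ) * ‖F.τ (cen F.N F.P (O.b l k) * z)‖ ^ 2 := by
  have hX : F.τ (O.X l * z) = (((K : ℝ) ^ (-(3 / 4) : ℝ) : ℝ) : ℂ) *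
      ∑ k : Fin K, F.τ (F.s (O.b l k) * z) := by
    unfold OneStep.X
    rw [smul_mul_assoc, map_smul, smul_eq_mul, Finset.sum_mul, map_sum]
  have hK0 : (0 : ℝ) ≤ (K : ℝ) ^ (-(3 / 4) : ℝ) := Real.rpow_nonneg (Nat.cast_nonneg _) _
  have hs : ∀ k : Fin K, ‖F.τ (F.s (O.b l k) * z)‖ ^ 2 ≤
      ((16 : ℝ) ^ (O.e l + K)) ^ (1 / 2 : ℝ) *
        ((F.N (O.b l k) : ℝ) * ‖F.τ (cen F.N F.P (O.b l k) * z)‖ ^ 2) := by
    intro k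
    have hN0 : (0 : ℝ) < F.N (O.b l k) := by
      have := F.N_ge (O.b l k)
      exact_mod_cast (by omega : 0 < F.N (O.b l k))
    have hNM : (F.N (O.b l k) : ℝ) ≤ (16 : ℝ) ^ (O.e l + K) := by
      rw [O.Nb]
      push_cast
      apply pow_le_pow_right₀ (by norm_num)
      have := k.2
      omega
    have h1 : F.τ (F.s (O.b l k) * z) = (((F.N (O.b l k) : ℝ) ^ (3 / 4 : ℝ) : ℝ) : ℂ) *
        F.τ (cen F.N F.P (O.b l k) * z) := by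
      unfold FPD.s
      rw [smul_mul_assoc, map_smul, smul_eq_mul]
    rw [h1, norm_mul, mul_pow, Complex.norm_real,
      Real.norm_of_nonneg (Real.rpow_nonneg hN0.le _), ← mul_assoc]
    exact mul_le_mul_of_nonneg_right (N34 hN0 hNM) (by positivity)
  have h2 : ‖∑ k : Fin K, F.τ (F.s (O.b l k) * z)‖ ^ 2 ≤
      K * ∑ k : Fin K, ‖F.τ (F.s (O.b l k) * z)‖ ^ 2 := by
    have h3 := sq_sum_le_card_mul_sum_sq (s := (Finset.univ : Finset (Fin K)))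
      (f := fun k => ‖F.τ (F.s (O.b l k) * z)‖)
    rw [Finset.card_univ, Fintype.card_fin] at h3
    refine le_trans ?_ h3
    exact pow_le_pow_left₀ (norm_nonneg _) (norm_sum_le _ _) 2
  rw [hX, norm_mul, mul_pow, Complex.norm_real, Real.norm_of_nonneg hK0]
  calc ((K : ℝ) ^ (-(3 / 4) : ℝ)) ^ 2 * ‖∑ k : Fin K, F.τ (F.s (O.b l k) * z)‖ ^ 2
      ≤ ((K : ℝ) ^ (-(3 / 4) : ℝ)) ^ 2 * (K * ∑ k : Fin K, ‖F.τ (F.s (O.b l k) * z)‖ ^ 2) :=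
        mul_le_mul_of_nonneg_left h2 (by positivity)
    _ = (((K : ℝ) ^ (-(3 / 4) : ℝ)) ^ 2 * K) * ∑ k : Fin K, ‖F.τ (F.s (O.b l k) * z)‖ ^ 2 := by
        ring
    _ ≤ 1 * ∑ k : Fin K, ‖F.τ (F.s (O.b l k) * z)‖ ^ 2 :=
        mul_le_mul_of_nonneg_right (K34 hK) (Finset.sum_nonneg fun _ _ => by positivity)
    _ = ∑ k : Fin K, ‖F.τ (F.s (O.b l k) * z)‖ ^ 2 := one_mul _
    _ ≤ ∑ k : Fin K, ((16 : ℝ) ^ (O.e l + K)) ^ (1 / 2 : ℝ) *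
        ((F.N (O.b l k) : ℝ) * ‖F.τ (cen F.N F.P (O.b l k) * z)‖ ^ 2) :=
        Finset.sum_le_sum fun k _ => hs k
    _ = _ := by rw [Finset.mul_sum]

variable {I : Type*} {F : FPD A I} {L' m K : ℕ} {Γ : ℝ}

theorem OneStep.rowsum (O : OneStep F (Fin L' × Fin m) K Γ) (hK : 1 ≤ K)
    (he : ∀ i j j', O.e (i, j) = O.e (i, j')) (i : Fin L') (j : Fin m) (z : A) :
    ∑ j' : Fin m, ‖F.τ (O.X (i, j') * z)‖ ^ 2 ≤
      ((16 : ℝ) ^ (O.e (i, j) + K)) ^ (1 / 2 : ℝ) * F.n4 z ^ 2 := by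
  have h1 : ∀ j' : Fin m, ‖F.τ (O.X (i, j') * z)‖ ^ 2 ≤
      ((16 : ℝ) ^ (O.e (i, j) + K)) ^ (1 / 2 : ℝ) *
      ∑ k : Fin K, (F.N (O.b (i, j') k) : ℝ) *
        ‖F.τ (cen F.N F.P (O.b (i, j') k) * z)‖ ^ 2 := by
    intro j'
    have := O.tauX hK (i, j') z
    rwa [he i j' j] at this
  refine (Finset.sum_le_sum fun j' _ => h1 j').trans ?_
  rw [← Finset.mul_sum]
  apply mul_le_mul_of_nonneg_left _ (by positivity)
  have hinj : Function.Injective (fun p : Fin m × Fin K => O.b (i, p.1) p.2) := by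
    intro p q hpq
    have := @O.b_inj ((i, p.1), p.2) ((i, q.1), q.2) hpq
    simp only [Prod.mk.injEq] at this
    exact Prod.ext this.1.2 this.2
  have h2 := F.bessel (Finset.univ.map ⟨fun p : Fin m × Fin K => O.b (i, p.1) p.2, hinj⟩) z
  rw [Finset.sum_map] at h2
  simp only [Function.Embedding.coeFn_mk] at h2
  rw [Fintype.sum_prod_type] at h2
  exact h2.trans (F.sq_le_n4 z)

theorem OneStep.rbound (O : OneStep F (Fin L' × Fin m) K Γ) (hK : 1 ≤ K) (hm : 0 < m)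
    (he : ∀ i j j', O.e (i, j) = O.e (i, j')) (Z : ℂ) (hZ : ‖Z‖ ≤ 1) (z : A)
    (l : Fin L' × Fin m) :
    ‖∑ a ∈ Finset.range m, Z ^ a * F.τ (O.X (l.1, ⟨((l.2 : ℕ) + a) % m, Nat.mod_lt _ hm⟩) * z)‖ ^ 2
      ≤ m * (((16 : ℝ) ^ (O.e l + K)) ^ (1 / 2 : ℝ) * F.n4 z ^ 2) := by
  obtain ⟨i, j⟩ := l
  simp only
  have h1 : ‖∑ a ∈ Finset.range m, Z ^ a *
      F.τ (O.X (i, ⟨((j : ℕ) + a) % m, Nat.mod_lt _ hm⟩) * z)‖ ≤
      ∑ a ∈ Finset.range m, ‖F.τ (O.X (i, ⟨((j : ℕ) + a) % m, Nat.mod_lt _ hm⟩) * z)‖ := by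
    refine (norm_sum_le _ _).trans (Finset.sum_le_sum fun a _ => ?_)
    rw [norm_mul, norm_pow]
    exact mul_le_of_le_one_left (norm_nonneg _) (pow_le_one₀ (norm_nonneg _) hZ)
  have h2 := sq_sum_le_card_mul_sum_sq (s := Finset.range m)
    (f := fun a => ‖F.τ (O.X (i, ⟨((j : ℕ) + a) % m, Nat.mod_lt _ hm⟩) * z)‖)
  rw [Finset.card_range] at h2
  have h3 : ∑ a ∈ Finset.range m,
      ‖F.τ (O.X (i, ⟨((j : ℕ) + a) % m, Nat.mod_lt _ hm⟩) * z)‖ ^ 2 ≤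
      ∑ j' : Fin m, ‖F.τ (O.X (i, j') * z)‖ ^ 2 := by
    have hinj : Set.InjOn (fun a => (⟨((j : ℕ) + a) % m, Nat.mod_lt _ hm⟩ : Fin m))
        (Finset.range m : Set ℕ) := by
      intro a ha b hb hab
      simp only [Fin.mk.injEq] at hab
      have h4 : a ≡ b [MOD m] := Nat.ModEq.add_left_cancel' (j : ℕ) hab
      have ha' : a < m := by simpa using ha
      have hb' : b < m := by simpa using hb
      exact Nat.ModEq.eq_of_lt_of_lt h4 ha' hb'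
    rw [← Finset.sum_image (f := fun j' => ‖F.τ (O.X (i, j') * z)‖ ^ 2) hinj]
    exact Finset.sum_le_univ_sum_of_nonneg fun _ => by positivity
  calc _ ≤ (∑ a ∈ Finset.range m,
        ‖F.τ (O.X (i, ⟨((j : ℕ) + a) % m, Nat.mod_lt _ hm⟩) * z)‖) ^ 2 :=
        pow_le_pow_left₀ (norm_nonneg _) h1 2
    _ ≤ _ := h2
    _ ≤ m * ∑ j' : Fin m, ‖F.τ (O.X (i, j') * z)‖ ^ 2 :=
        mul_le_mul_of_nonneg_left h3 (Nat.cast_nonneg _)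
    _ ≤ _ := mul_le_mul_of_nonneg_left (O.rowsum hK he i j z) (Nat.cast_nonneg _)

theorem OneStep.be_le (O : OneStep F (Fin L' × Fin m) K Γ) (hK : 1 ≤ K) (hΓ1 : 1 ≤ Γ)
    (l : Fin L' × Fin m) :
    (K : ℝ) ^ (-(1 / 2) : ℝ) * ∑ k : Fin K, (F.N (O.a l k) : ℝ) ^ (-(1 / 2) : ℝ) ≤
      Γ ^ (-(1 / 2) : ℝ) * (((16 : ℝ) ^ (O.e l + K)) ^ (1 / 2 : ℝ))⁻¹ := by
  have hK0 : (0 : ℝ) < K := by exact_mod_cast hK
  have hΓ0 : 0 < Γ := by linarith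
  obtain ⟨M, hM⟩ : ∃ M, M = (16 : ℝ) ^ (O.e l + K) := ⟨_, rfl⟩
  have hM1 : 1 ≤ M := by rw [hM]; exact one_le_pow₀ (by norm_num)
  have hM0 : 0 < M := by linarith
  have h1 : ∀ k : Fin K, (F.N (O.a l k) : ℝ) ^ (-(1 / 2) : ℝ) ≤
      Γ ^ (-(1 / 2) : ℝ) * (K : ℝ) ^ (-(1 / 2) : ℝ) * (M ^ (1 / 2 : ℝ))⁻¹ := by
    intro k
    have h2 := O.Na l k
    rw [← hM] at h2
    have h3 : Γ * K * M ≤ F.N (O.a l k) := by
      refine le_trans ?_ h2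
      apply mul_le_mul_of_nonneg_left _ (by positivity)
      exact le_self_pow₀ hM1 (by norm_num)
    have h4 := Real.rpow_le_rpow_of_nonpos (z := (-(1 / 2) : ℝ)) (by positivity) h3 (by norm_num)
    refine h4.trans (le_of_eq ?_)
    rw [Real.mul_rpow (by positivity) hM0.le, Real.mul_rpow hΓ0.le hK0.le,
      Real.rpow_neg hM0.le (1 / 2)]
  rw [← hM]
  calc _ ≤ (K : ℝ) ^ (-(1 / 2) : ℝ) * ∑ k : Fin K,
        Γ ^ (-(1 / 2) : ℝ) * (K : ℝ) ^ (-(1 / 2) : ℝ) * (M ^ (1 / 2 : ℝ))⁻¹ :=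
        mul_le_mul_of_nonneg_left (Finset.sum_le_sum fun k _ => h1 k) (by positivity)
    _ = ((K : ℝ) ^ (-(1 / 2) : ℝ) * (K : ℝ) ^ (-(1 / 2) : ℝ) * K) *
        (Γ ^ (-(1 / 2) : ℝ) * (M ^ (1 / 2 : ℝ))⁻¹) := by
        rw [Finset.sum_const, Finset.card_univ, Fintype.card_fin, nsmul_eq_mul]
        ring
    _ = 1 * (Γ ^ (-(1 / 2) : ℝ) * (M ^ (1 / 2 : ℝ))⁻¹) := by
        congr 1
        rw [← Real.rpow_add hK0]
        nth_rewrite 2 [← Real.rpow_one (K : ℝ)]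
        rw [← Real.rpow_add hK0]
        norm_num
    _ = _ := one_mul _

/-- rotated averages are small -/
theorem OneStep.cyc (O : OneStep F (Fin L' × Fin m) K Γ) (hK : 1 ≤ K) (hm : 0 < m)
    (he : ∀ i j j', O.e (i, j) = O.e (i, j'))
    (hΓ : 4 * 16 ^ 5 * (L' : ℝ) ^ 2 ≤ Γ) (hΓ1 : 1 ≤ Γ)
    (hM : ∀ l, 2 * 16 ^ 5 * (L' : ℝ) * 16 ^ (O.e l + K) ≤ m) (Z : ℂ) (hZ : ‖Z‖ ≤ 1) (z : A) :
    F.n4 (∑ l : Fin L' × Fin m, (∑ a ∈ Finset.range m,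
      Z ^ a * F.τ (O.X (l.1, ⟨((l.2 : ℕ) + a) % m, Nat.mod_lt _ hm⟩) * z)) • O.f l) ≤
      (m : ℝ) / 16 * F.n4 z := by
  obtain ⟨r, hr⟩ : ∃ r : Fin L' × Fin m → ℂ, r = fun l => ∑ a ∈ Finset.range m,
      Z ^ a * F.τ (O.X (l.1, ⟨((l.2 : ℕ) + a) % m, Nat.mod_lt _ hm⟩) * z) := ⟨_, rfl⟩
  have hrb : ∀ l, ‖r l‖ ^ 2 ≤ m * (((16 : ℝ) ^ (O.e l + K)) ^ (1 / 2 : ℝ) * F.n4 z ^ 2) := by
    intro l
    rw [hr]
    exact O.rbound hK hm he Z hZ z l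
  have hgoal : (∑ l : Fin L' × Fin m, (∑ a ∈ Finset.range m,
      Z ^ a * F.τ (O.X (l.1, ⟨((l.2 : ℕ) + a) % m, Nat.mod_lt _ hm⟩) * z)) • O.f l) =
      ∑ l : Fin L' × Fin m, r l • O.f l := by rw [hr]
  rw [hgoal]
  have h4 := O.fourth Finset.univ r
  have hT0 : 0 ≤ F.n4 z := F.n4_nonneg z
  obtain ⟨T, hT⟩ : ∃ T, T = F.n4 z := ⟨_, rfl⟩
  rw [← hT] at hrb hT0 ⊢
  have hm0 : (0 : ℝ) < m := by exact_mod_cast hm
  have hΓ0 : 0 < Γ := by linarith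
  have hMpos : ∀ l, (0 : ℝ) < (16 : ℝ) ^ (O.e l + K) := fun l => by positivity
  have hsq : ∀ l, (((16 : ℝ) ^ (O.e l + K)) ^ (1 / 2 : ℝ)) ^ 2 = (16 : ℝ) ^ (O.e l + K) := by
    intro l
    rw [← Real.rpow_natCast, ← Real.rpow_mul (hMpos l).le]
    norm_num
  -- first sum
  have s1 : ∑ l, ‖r l‖ ^ 4 ≤ (m : ℝ) ^ 4 / (2 * 16 ^ 5) * T ^ 4 := by
    rcases Nat.eq_zero_or_pos L' with h0 | h0
    · subst h0
      have : ∑ l : Fin 0 × Fin m, ‖r l‖ ^ 4 = 0 := Finset.sum_eq_zero fun l _ => l.1.elim0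
      rw [this]
      positivity
    have hL0 : (0 : ℝ) < L' := by exact_mod_cast h0
    have h5 : ∀ l, ‖r l‖ ^ 4 ≤ (m : ℝ) ^ 3 / (2 * 16 ^ 5 * L') * T ^ 4 := by
      intro l
      have h6 : ‖r l‖ ^ 4 ≤ (m * (((16 : ℝ) ^ (O.e l + K)) ^ (1 / 2 : ℝ) * T ^ 2)) ^ 2 := by
        have := pow_le_pow_left₀ (by positivity) (hrb l) 2
        rwa [← pow_mul] at this
      refine h6.trans ?_
      rw [mul_pow, mul_pow, hsq]
      have h7 : (16 : ℝ) ^ (O.e l + K) ≤ m / (2 * 16 ^ 5 * L') := by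
        rw [le_div_iff₀ (by positivity)]
        have := hM l
        linarith
      calc (m : ℝ) ^ 2 * ((16 : ℝ) ^ (O.e l + K) * (T ^ 2) ^ 2)
          ≤ (m : ℝ) ^ 2 * (m / (2 * 16 ^ 5 * L') * (T ^ 2) ^ 2) := by gcongr
        _ = _ := by
          have : (L' : ℝ) ≠ 0 := hL0.ne'
          field_simp
    refine (Finset.sum_le_sum fun l _ => h5 l).trans (le_of_eq ?_)
    rw [Finset.sum_const, Finset.card_univ, Fintype.card_prod, Fintype.card_fin, Fintype.card_fin,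
      nsmul_eq_mul]
    push_cast
    have : (L' : ℝ) ≠ 0 := hL0.ne'
    field_simp
  -- second sum
  have s2 : (∑ l, ‖r l‖ ^ 2 * ((K : ℝ) ^ (-(1 / 2) : ℝ) *
          ∑ k : Fin K, (F.N (O.a l k) : ℝ) ^ (-(1 / 2) : ℝ))) ≤
      (L' : ℝ) * m ^ 2 * T ^ 2 * Γ ^ (-(1 / 2) : ℝ) := by
    have h5 : ∀ l, ‖r l‖ ^ 2 * ((K : ℝ) ^ (-(1 / 2) : ℝ) *
          ∑ k : Fin K, (F.N (O.a l k) : ℝ) ^ (-(1 / 2) : ℝ)) ≤
        m * T ^ 2 * Γ ^ (-(1 / 2) : ℝ) := by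
      intro l
      have hb := O.be_le hK hΓ1 l
      have hpos : (0 : ℝ) < ((16 : ℝ) ^ (O.e l + K)) ^ (1 / 2 : ℝ) := Real.rpow_pos_of_pos (hMpos l) _
      calc _ ≤ (m * (((16 : ℝ) ^ (O.e l + K)) ^ (1 / 2 : ℝ) * T ^ 2)) *
            (Γ ^ (-(1 / 2) : ℝ) * (((16 : ℝ) ^ (O.e l + K)) ^ (1 / 2 : ℝ))⁻¹) := by
            apply mul_le_mul (hrb l) hb _ (by positivity)
            have : ∀ k : Fin K, 0 ≤ (F.N (O.a l k) : ℝ) ^ (-(1 / 2) : ℝ) :=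
              fun k => Real.rpow_nonneg (Nat.cast_nonneg _) _
            exact mul_nonneg (Real.rpow_nonneg (Nat.cast_nonneg _) _)
              (Finset.sum_nonneg fun k _ => this k)
        _ = (m * T ^ 2 * Γ ^ (-(1 / 2) : ℝ)) * (((16 : ℝ) ^ (O.e l + K)) ^ (1 / 2 : ℝ) *
            (((16 : ℝ) ^ (O.e l + K)) ^ (1 / 2 : ℝ))⁻¹) := by ring
        _ = _ := by rw [mul_inv_cancel₀ hpos.ne', mul_one]
    refine (Finset.sum_le_sum fun l _ => h5 l).trans (le_of_eq ?_)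
    rw [Finset.sum_const, Finset.card_univ, Fintype.card_prod, Fintype.card_fin, Fintype.card_fin,
      nsmul_eq_mul]
    push_cast
    ring
  have s2n : 0 ≤ (∑ l, ‖r l‖ ^ 2 * ((K : ℝ) ^ (-(1 / 2) : ℝ) *
          ∑ k : Fin K, (F.N (O.a l k) : ℝ) ^ (-(1 / 2) : ℝ))) := by
    apply Finset.sum_nonneg
    intro l _
    have : ∀ k : Fin K, 0 ≤ (F.N (O.a l k) : ℝ) ^ (-(1 / 2) : ℝ) :=
      fun k => Real.rpow_nonneg (Nat.cast_nonneg _) _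
    exact mul_nonneg (by positivity) (mul_nonneg (Real.rpow_nonneg (Nat.cast_nonneg _) _)
      (Finset.sum_nonneg fun k _ => this k))
  have hΓsq : (Γ ^ (-(1 / 2) : ℝ)) ^ 2 = Γ⁻¹ := by
    rw [← Real.rpow_natCast, ← Real.rpow_mul hΓ0.le]
    norm_num
    exact Real.rpow_neg_one Γ
  have s3 : 2 * (∑ l, ‖r l‖ ^ 2 * ((K : ℝ) ^ (-(1 / 2) : ℝ) *
          ∑ k : Fin K, (F.N (O.a l k) : ℝ) ^ (-(1 / 2) : ℝ))) ^ 2 ≤
      (m : ℝ) ^ 4 / (2 * 16 ^ 5) * T ^ 4 := by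
    have h5 := pow_le_pow_left₀ s2n s2 2
    have h6 : ((L' : ℝ) * m ^ 2 * T ^ 2 * Γ ^ (-(1 / 2) : ℝ)) ^ 2 =
        ((L' : ℝ) ^ 2 * Γ⁻¹) * (m ^ 4 * T ^ 4) := by
      rw [mul_pow, hΓsq]
      ring
    have h7 : (L' : ℝ) ^ 2 * Γ⁻¹ ≤ 1 / (4 * 16 ^ 5) := by
      rw [← div_eq_mul_inv, div_le_div_iff₀ hΓ0 (by norm_num)]
      linarith
    rw [h6] at h5
    have h8 : ((L' : ℝ) ^ 2 * Γ⁻¹) * (m ^ 4 * T ^ 4) ≤ 1 / (4 * 16 ^ 5) * (m ^ 4 * T ^ 4) :=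
      mul_le_mul_of_nonneg_right h7 (by positivity)
    calc _ ≤ 2 * (1 / (4 * 16 ^ 5) * (m ^ 4 * T ^ 4)) := by linarith
      _ = _ := by ring
  have h9 : F.n4 (∑ l : Fin L' × Fin m, r l • O.f l) ^ 4 ≤ ((m : ℝ) / 16 * T) ^ 4 := by
    refine h4.trans ?_
    calc _ ≤ 16 * ((m : ℝ) ^ 4 / (2 * 16 ^ 5) * T ^ 4 + (m : ℝ) ^ 4 / (2 * 16 ^ 5) * T ^ 4) := by
          linarith
      _ = _ := by ring
  exact (pow_le_pow_iff_left₀ (F.n4_nonneg _) (by positivity) (by norm_num)).1 h9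

end NCLp
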