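import Pool.Agent.NCLp.Basic

/-! ### THE JOB -/
open Filter Topology
open scoped ENNReal NNReal ComplexOrder ComplexConjugate

namespace NCLp

variable {A : Type*} [CStarAlgebra A] [PartialOrder A] [StarOrderedRing A]


/-- continuous on the spectrum of a positive element -/
lemma contOn_spec {h : A} (hh : 0 ≤ h) {f : ℝ → ℝ} (hf : ContinuousOn f (Set.Ici 0)) :
    ContinuousOn f (spectrum ℝ h) :=
  hf.mono (fun s hs => spectrum_nonneg_of_nonneg hh hs)

lemma TrState.tau_cfc_mono (t : TrState A) {h : A} (hh : 0 ≤ h) {f g : ℝ → ℝ}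
    (hf : ContinuousOn f (Set.Ici 0)) (hg : ContinuousOn g (Set.Ici 0))
    (hfg : ∀ s, 0 ≤ s → f s ≤ g s) : (t.τ (cfc f h)).re ≤ (t.τ (cfc g h)).re := by
  have h1 : cfc f h ≤ cfc g h :=
    cfc_mono (fun s hs => hfg s (spectrum_nonneg_of_nonneg hh hs)) (contOn_spec hh hf)
      (contOn_spec hh hg)
  have h2 := t.tau_nonneg (sub_nonneg.2 h1)
  rw [map_sub, Complex.le_def] at h2
  have := h2.1
  simp only [Complex.zero_re, Complex.sub_re] at this
  linarith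

lemma TrState.tau_cfc_add_const (t : TrState A) {h : A} (hh : 0 ≤ h) {f : ℝ → ℝ}
    (hf : ContinuousOn f (Set.Ici 0)) (c : ℝ) :
    (t.τ (cfc (fun s => f s + c) h)).re = (t.τ (cfc f h)).re + c := by
  have hsa : IsSelfAdjoint h := IsSelfAdjoint.of_nonneg hh
  rw [cfc_add_const c f h (contOn_spec hh hf) hsa, map_add, Complex.add_re]
  congr 1
  rw [Algebra.algebraMap_eq_smul_one]
  have : (c : ℝ) • (1 : A) = ((c : ℂ)) • (1 : A) := by
    simp
  rw [this, map_smul, t.one]; simp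

lemma cont_rpow (e : ℝ) (he : 0 < e) (p : ℝ) :
    ContinuousOn (fun s : ℝ => (s + e) ^ p) (Set.Ici 0) := by
  apply ContinuousOn.rpow_const (by fun_prop)
  intro s hs
  left
  have : (0:ℝ) ≤ s := hs
  linarith

lemma cont_rpow0 (p : ℝ) (hp : 0 ≤ p) :
    ContinuousOn (fun s : ℝ => s ^ p) (Set.Ici 0) := by
  apply ContinuousOn.rpow_const (by fun_prop)
  intro _ _
  right; exact hp

lemma rpow_add_le (s e : ℝ) (hs : 0 ≤ s) (he : 0 ≤ e) :
    (s + e) ^ (2 / 3 : ℝ) ≤ s ^ (2 / 3 : ℝ) + e ^ (2 / 3 : ℝ) :=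
  Real.rpow_add_le_add_rpow hs he (by norm_num) (by norm_num)

/-- Hoelder's inequality between the `L^4` norm and the `L^{4/3}` norm. -/
theorem TrState.holder (t : TrState A) (z x : A) : ‖t.τ (z * x)‖ ≤ t.n4 z * t.n43 x := by
  set h : A := star x * x with hdef
  have hh : 0 ≤ h := star_mul_self_nonneg x
  have hsa : IsSelfAdjoint h := IsSelfAdjoint.of_nonneg hh
  set T : ℝ := (t.τ (cfc (fun s : ℝ => s ^ (2 / 3 : ℝ)) h)).re with hT
  have hn43 : t.n43 x = T ^ (3 / 4 : ℝ) := by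
    rw [TrState.n43, CFC.rpow_eq_cfc_real hh]
  have hT0 : 0 ≤ T := by
    have h0 : 0 ≤ cfc (fun s : ℝ => s ^ (2 / 3 : ℝ)) h :=
      cfc_nonneg (fun s hs => Real.rpow_nonneg (spectrum_nonneg_of_nonneg hh hs) _)
    exact (Complex.le_def.1 (t.tau_nonneg h0)).1
  have key : ∀ e : ℝ, 0 < e → ‖t.τ (z * x)‖ ≤
      Real.sqrt (Real.sqrt (T + e ^ (2 / 3 : ℝ)) * t.n4 z ^ 2) * Real.sqrt T := by
    intro e he
    have ca := cont_rpow e he (1 / 6)
    have cb := cont_rpow e he (-(1 / 6))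
    have ca' := contOn_spec hh ca
    have cb' := contOn_spec hh cb
    set a : A := cfc (fun s : ℝ => (s + e) ^ (1 / 6 : ℝ)) h with ha
    set b : A := cfc (fun s : ℝ => (s + e) ^ (-(1 / 6) : ℝ)) h with hb
    have asa : star a = a := (cfc_predicate (R := ℝ) _ h : IsSelfAdjoint a).star_eq
    have bsa : star b = b := (cfc_predicate (R := ℝ) _ h : IsSelfAdjoint b).star_eq
    have hba : b * a = 1 := by
      rw [ha, hb, ← cfc_mul _ _ h cb' ca', ← cfc_one ℝ h]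
      apply cfc_congr
      intro s hs
      have hs0 : 0 ≤ s := spectrum_nonneg_of_nonneg hh hs
      simp only [Pi.one_apply]
      rw [← Real.rpow_add (by linarith)]
      norm_num
    have e1 : t.τ (z * x) = t.τ ((a * z) * (x * b)) := by
      rw [mul_assoc, t.comm a, mul_assoc, mul_assoc, hba, mul_one]
    have e2 : t.sq (x * b) ≤ T := by
      have : star (x * b) * (x * b) = b * h * b := by
        rw [star_mul, bsa, hdef]; simp only [mul_assoc]
      rw [TrState.sq, this, hT]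
      have : b * h * b = cfc (fun s : ℝ => (s + e) ^ (-(1 / 6) : ℝ) * s *
          (s + e) ^ (-(1 / 6) : ℝ)) h := by
        rw [cfc_mul (fun s : ℝ => (s + e) ^ (-(1 / 6) : ℝ) * s) (fun s => (s + e) ^ (-(1 / 6) : ℝ))
          h (contOn_spec hh (cb.mul continuousOn_id)) cb',
          cfc_mul (fun s : ℝ => (s + e) ^ (-(1 / 6) : ℝ)) (fun s => s) h cb' (by fun_prop),
          cfc_id' ℝ h]
      rw [this]
      apply t.tau_cfc_mono hh ((cb.mul continuousOn_id).mul cb) (cont_rpow0 _ (by norm_num))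
      intro s hs
      have hse : 0 < s + e := by linarith
      have : (s + e) ^ (-(1 / 6) : ℝ) * s * (s + e) ^ (-(1 / 6) : ℝ)
          = s * (s + e) ^ (-(1 / 3) : ℝ) := by
        rw [mul_comm _ s, mul_assoc, ← Real.rpow_add hse]; norm_num
      simp only [Pi.mul_apply, id]
      rw [this]
      rcases hs.eq_or_lt with rfl | hs'
      · simp
      have h3 : (s + e) ^ (-(1 / 3) : ℝ) ≤ s ^ (-(1 / 3) : ℝ) :=
        Real.rpow_le_rpow_of_nonpos hs' (by linarith) (by norm_num)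
      calc s * (s + e) ^ (-(1 / 3) : ℝ) ≤ s * s ^ (-(1 / 3) : ℝ) :=
            mul_le_mul_of_nonneg_left h3 hs
        _ = s ^ (1 : ℝ) * s ^ (-(1 / 3) : ℝ) := by rw [Real.rpow_one]
        _ = s ^ (2 / 3 : ℝ) := by rw [← Real.rpow_add hs']; norm_num
    have e3 : t.sq (a * z) ≤ Real.sqrt (T + e ^ (2 / 3 : ℝ)) * t.n4 z ^ 2 := by
      have h1 : t.τ (star (a * z) * (a * z)) = t.τ ((a * a) * (z * star z)) := by
        rw [star_mul, asa, show star z * a * (a * z) = star z * (a * a * z) by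
          simp only [mul_assoc], t.comm (star z)]
        simp only [mul_assoc]
      have h2 : t.sq (a * z) ≤ ‖t.τ ((a * a) * (z * star z))‖ := by
        rw [TrState.sq, h1]; exact Complex.re_le_norm _
      have h3 := t.cs' (a * a) (z * star z)
      have h4 : Real.sqrt (t.sq (z * star z)) = t.n4 z ^ 2 := by
        have := (t.n4_sq (star z)).symm
        rw [star_star, t.n4_star] at this; exact this
      have h5 : t.sq (a * a) ≤ T + e ^ (2 / 3 : ℝ) := by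
        have h6 : star (a * a) * (a * a) = cfc (fun s : ℝ => (s + e) ^ (2 / 3 : ℝ)) h := by
          rw [star_mul, asa, ha, ← cfc_mul _ _ h ca' ca',
            ← cfc_mul (fun s : ℝ => (s + e) ^ (1 / 6 : ℝ) * (s + e) ^ (1 / 6 : ℝ))
              (fun s : ℝ => (s + e) ^ (1 / 6 : ℝ) * (s + e) ^ (1 / 6 : ℝ)) h
              (ca'.mul ca') (ca'.mul ca')]
          apply cfc_congr
          intro s hs
          have hs0 : 0 ≤ s := spectrum_nonneg_of_nonneg hh hs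
          have hse : 0 < s + e := by linarith
          simp only
          rw [← Real.rpow_add hse, ← Real.rpow_add hse]
          norm_num
        rw [TrState.sq, h6, hT, ← t.tau_cfc_add_const hh (cont_rpow0 _ (by norm_num))]
        apply t.tau_cfc_mono hh (cont_rpow e he _)
          ((cont_rpow0 _ (by norm_num)).add continuousOn_const)
        intro s hs
        exact rpow_add_le s e hs he.le
      calc _ ≤ _ := h2
        _ ≤ _ := h3
        _ ≤ _ := by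
          rw [h4]
          exact mul_le_mul_of_nonneg_right (Real.sqrt_le_sqrt h5) (by positivity)
    rw [e1]
    refine (t.cs' _ _).trans ?_
    exact mul_le_mul (Real.sqrt_le_sqrt e3) (Real.sqrt_le_sqrt e2) (Real.sqrt_nonneg _)
      (Real.sqrt_nonneg _)
  -- limit
  have hlim : Tendsto (fun e : ℝ => Real.sqrt (Real.sqrt (T + e ^ (2 / 3 : ℝ)) * t.n4 z ^ 2) *
      Real.sqrt T) (𝓝[>] 0) (𝓝 (Real.sqrt (Real.sqrt (T + 0 ^ (2 / 3 : ℝ)) * t.n4 z ^ 2) *
      Real.sqrt T)) := by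
    have hc : Continuous (fun e : ℝ => Real.sqrt (Real.sqrt (T + e ^ (2 / 3 : ℝ)) * t.n4 z ^ 2) *
      Real.sqrt T) := by
      have : Continuous (fun e : ℝ => e ^ (2 / 3 : ℝ)) :=
        Real.continuous_rpow_const (by norm_num)
      fun_prop
    exact (hc.tendsto 0).mono_left nhdsWithin_le_nhds
  have hle := ge_of_tendsto hlim (Filter.eventually_of_mem self_mem_nhdsWithin
    (fun e he => key e he))
  refine hle.trans (le_of_eq ?_)
  rw [Real.zero_rpow (by norm_num), add_zero, hn43, Real.sqrt_mul (Real.sqrt_nonneg _),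
    Real.sqrt_sq (t.n4_nonneg z), Real.sqrt_eq_rpow, Real.sqrt_eq_rpow,
    ← Real.rpow_mul hT0]
  have : T ^ (3 / 4 : ℝ) = T ^ (1 / 2 * (1 / 2) : ℝ) * T ^ (1 / 2 : ℝ) := by
    rw [← Real.rpow_add_of_nonneg hT0 (by norm_num) (by norm_num)]; norm_num
  rw [this]; ring

/-- the `L^4`-elements norm `L^{4/3}`. -/
theorem TrState.norming (t : TrState A) (x : A) (ε : ℝ) (hε : 0 < ε) :
    ∃ z : A, t.n4 z ≤ 1 ∧ t.n43 x - ε ≤ ‖t.τ (z * x)‖ := by
  set h : A := star x * x with hdef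
  have hh : 0 ≤ h := star_mul_self_nonneg x
  have hsa : IsSelfAdjoint h := IsSelfAdjoint.of_nonneg hh
  set T : ℝ := (t.τ (cfc (fun s : ℝ => s ^ (2 / 3 : ℝ)) h)).re with hT
  have hn43 : t.n43 x = T ^ (3 / 4 : ℝ) := by
    rw [TrState.n43, CFC.rpow_eq_cfc_real hh]
  have hT0 : 0 ≤ T := by
    have h0 : 0 ≤ cfc (fun s : ℝ => s ^ (2 / 3 : ℝ)) h :=
      cfc_nonneg (fun s hs => Real.rpow_nonneg (spectrum_nonneg_of_nonneg hh hs) _)
    exact (Complex.le_def.1 (t.tau_nonneg h0)).1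
  rcases hT0.eq_or_lt with hT1 | hTpos
  · refine ⟨0, by rw [t.n4_zero]; norm_num, ?_⟩
    rw [hn43, ← hT1, Real.zero_rpow (by norm_num)]
    simp [hε.le]
  set d : ℝ := (ε * T ^ (1 / 4 : ℝ)) ^ (3 / 2 : ℝ) with hd
  have hT4 : 0 < T ^ (1 / 4 : ℝ) := Real.rpow_pos_of_pos hTpos _
  have hdpos : 0 < d := Real.rpow_pos_of_pos (mul_pos hε hT4) _
  have hd23 : d ^ (2 / 3 : ℝ) = ε * T ^ (1 / 4 : ℝ) := by
    rw [hd, ← Real.rpow_mul (mul_pos hε hT4).le]; norm_num
  have cc := cont_rpow d hdpos (-(1 / 3))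
  have cc' := contOn_spec hh cc
  set c : A := cfc (fun s : ℝ => (s + d) ^ (-(1 / 3) : ℝ)) h with hc
  have csa : star c = c := (cfc_predicate (R := ℝ) _ h : IsSelfAdjoint c).star_eq
  set z0 : A := c * star x with hz0
  have hn : t.n4 z0 ^ 4 ≤ T := by
    rw [← t.n4_star, t.n4_pow, star_star]
    have h1 : z0 * star z0 = cfc (fun s : ℝ => (s + d) ^ (-(1 / 3) : ℝ) * s *
          (s + d) ^ (-(1 / 3) : ℝ)) h := by
      rw [cfc_mul (fun s : ℝ => (s + d) ^ (-(1 / 3) : ℝ) * s) (fun s => (s + d) ^ (-(1 / 3) : ℝ))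
          h (contOn_spec hh (cc.mul continuousOn_id)) cc',
          cfc_mul (fun s : ℝ => (s + d) ^ (-(1 / 3) : ℝ)) (fun s => s) h cc' (by fun_prop),
          cfc_id' ℝ h, hz0, star_mul, star_star, csa, ← hc]
      simp only [hdef, mul_assoc]
    have cq : ContinuousOn (fun s : ℝ => (s + d) ^ (-(1 / 3) : ℝ) * s *
        (s + d) ^ (-(1 / 3) : ℝ)) (Set.Ici 0) := (cc.mul (continuousOn_id (α := ℝ))).mul cc
    have cq' := contOn_spec hh cq
    have h2 : star (z0 * star z0) * (z0 * star z0) = cfc (fun s : ℝ =>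
          ((s + d) ^ (-(1 / 3) : ℝ) * s * (s + d) ^ (-(1 / 3) : ℝ)) *
          ((s + d) ^ (-(1 / 3) : ℝ) * s * (s + d) ^ (-(1 / 3) : ℝ))) h := by
      rw [star_mul, star_star, h1, ← cfc_mul _ _ h cq' cq']
    rw [TrState.sq, h2, hT]
    apply t.tau_cfc_mono hh (cq.mul cq) (cont_rpow0 _ (by norm_num))
    intro s hs
    show ((s + d) ^ (-(1 / 3) : ℝ) * s * (s + d) ^ (-(1 / 3) : ℝ)) *
      ((s + d) ^ (-(1 / 3) : ℝ) * s * (s + d) ^ (-(1 / 3) : ℝ)) ≤ s ^ (2 / 3 : ℝ)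
    have hse : 0 < s + d := by linarith
    rcases hs.eq_or_lt with rfl | hs'
    · simp
    have h3 : (s + d) ^ (-(1 / 3) : ℝ) ≤ s ^ (-(1 / 3) : ℝ) :=
      Real.rpow_le_rpow_of_nonpos hs' (by linarith) (by norm_num)
    have h30 : 0 ≤ (s + d) ^ (-(1 / 3) : ℝ) := Real.rpow_nonneg hse.le _
    have h4 : (s + d) ^ (-(1 / 3) : ℝ) * s * (s + d) ^ (-(1 / 3) : ℝ) ≤ s ^ (1 / 3 : ℝ) := by
      calc (s + d) ^ (-(1 / 3) : ℝ) * s * (s + d) ^ (-(1 / 3) : ℝ)
          ≤ s ^ (-(1 / 3) : ℝ) * s * s ^ (-(1 / 3) : ℝ) := by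
            apply mul_le_mul _ h3 h30 (by positivity)
            exact mul_le_mul_of_nonneg_right h3 hs
        _ = s ^ (-(1 / 3) : ℝ) * s ^ (1 : ℝ) * s ^ (-(1 / 3) : ℝ) := by rw [Real.rpow_one]
        _ = s ^ (1 / 3 : ℝ) := by rw [← Real.rpow_add hs', ← Real.rpow_add hs']; norm_num
    have h40 : 0 ≤ (s + d) ^ (-(1 / 3) : ℝ) * s * (s + d) ^ (-(1 / 3) : ℝ) := by positivity
    calc _ ≤ s ^ (1 / 3 : ℝ) * s ^ (1 / 3 : ℝ) := mul_le_mul h4 h4 h40 (by positivity)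
      _ = s ^ (2 / 3 : ℝ) := by rw [← Real.rpow_add hs']; norm_num
  have hre : T - d ^ (2 / 3 : ℝ) ≤ (t.τ (z0 * x)).re := by
    have h1 : z0 * x = cfc (fun s : ℝ => (s + d) ^ (-(1 / 3) : ℝ) * s) h := by
      rw [cfc_mul (fun s : ℝ => (s + d) ^ (-(1 / 3) : ℝ)) (fun s => s) h cc' (by fun_prop),
          cfc_id' ℝ h, hz0, ← hc]
      simp only [hdef, mul_assoc]
    have h2 := t.tau_cfc_add_const hh (f := fun s : ℝ => s ^ (2 / 3 : ℝ))
      (cont_rpow0 _ (by norm_num)) (-d ^ (2 / 3 : ℝ))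
    rw [h1]
    have h3 : T - d ^ (2 / 3 : ℝ) = T + (-d ^ (2 / 3 : ℝ)) := by ring
    rw [h3, hT, ← h2]
    apply t.tau_cfc_mono hh ((cont_rpow0 _ (by norm_num)).add continuousOn_const)
      (cc.mul continuousOn_id)
    intro s hs
    have hse : 0 < s + d := by linarith
    show s ^ (2 / 3 : ℝ) + -d ^ (2 / 3 : ℝ) ≤ (s + d) ^ (-(1 / 3) : ℝ) * s
    have h4 : (s + d) ^ (-(1 / 3) : ℝ) * (s + d) = (s + d) ^ (2 / 3 : ℝ) := by
      calc _ = (s + d) ^ (-(1 / 3) : ℝ) * (s + d) ^ (1 : ℝ) := by rw [Real.rpow_one]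
        _ = _ := by rw [← Real.rpow_add hse]; norm_num
    have h5 : s ^ (2 / 3 : ℝ) ≤ (s + d) ^ (2 / 3 : ℝ) :=
      Real.rpow_le_rpow hs (by linarith) (by norm_num)
    have h6 : (s + d) ^ (-(1 / 3) : ℝ) * d ≤ d ^ (2 / 3 : ℝ) := by
      have h7 : (s + d) ^ (-(1 / 3) : ℝ) ≤ d ^ (-(1 / 3) : ℝ) :=
        Real.rpow_le_rpow_of_nonpos hdpos (by linarith) (by norm_num)
      calc _ ≤ d ^ (-(1 / 3) : ℝ) * d := mul_le_mul_of_nonneg_right h7 hdpos.le
        _ = d ^ (-(1 / 3) : ℝ) * d ^ (1 : ℝ) := by rw [Real.rpow_one]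
        _ = _ := by rw [← Real.rpow_add hdpos]; norm_num
    nlinarith
  have hTm : 0 < T ^ (-(1 / 4) : ℝ) := Real.rpow_pos_of_pos hTpos _
  refine ⟨((T ^ (-(1 / 4) : ℝ) : ℝ) : ℂ) • z0, ?_, ?_⟩
  · rw [t.n4_smul, Complex.norm_real, Real.norm_of_nonneg hTm.le]
    have h1 : (T ^ (-(1 / 4) : ℝ) * t.n4 z0) ^ 4 ≤ 1 ^ 4 := by
      rw [mul_pow, one_pow]
      have h2 : (T ^ (-(1 / 4) : ℝ)) ^ 4 = T⁻¹ := by
        rw [← Real.rpow_natCast, ← Real.rpow_mul hT0, ← Real.rpow_neg_one]; norm_num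
      rw [h2]
      calc T⁻¹ * t.n4 z0 ^ 4 ≤ T⁻¹ * T := mul_le_mul_of_nonneg_left hn (by positivity)
        _ = 1 := inv_mul_cancel₀ hTpos.ne'
    exact (pow_le_pow_iff_left₀ (mul_nonneg hTm.le (t.n4_nonneg _)) zero_le_one
      (by norm_num)).1 h1
  · rw [smul_mul_assoc, map_smul, smul_eq_mul, norm_mul, Complex.norm_real,
      Real.norm_of_nonneg hTm.le, hn43]
    have h1 : (t.τ (z0 * x)).re ≤ ‖t.τ (z0 * x)‖ := Complex.re_le_norm _
    have h2 : T ^ (3 / 4 : ℝ) - ε = T ^ (-(1 / 4) : ℝ) * (T - d ^ (2 / 3 : ℝ)) := by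
      rw [hd23, mul_sub]
      have h3 : T ^ (-(1 / 4) : ℝ) * T = T ^ (3 / 4 : ℝ) := by
        calc _ = T ^ (-(1 / 4) : ℝ) * T ^ (1 : ℝ) := by rw [Real.rpow_one]
          _ = _ := by rw [← Real.rpow_add hTpos]; norm_num
      have h4 : T ^ (-(1 / 4) : ℝ) * (ε * T ^ (1 / 4 : ℝ)) = ε := by
        rw [mul_comm ε, ← mul_assoc, ← Real.rpow_add hTpos]; norm_num
      rw [h3, h4]
    rw [h2]
    exact mul_le_mul_of_nonneg_left (hre.trans h1) hTm.le

end NCLp
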