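import Pool.Agent.NCLp.Basic

/-! ### THE JOB -/
open Filter Topology
open scoped ENNReal NNReal ComplexOrder ComplexConjugate

namespace NCLp

variable {A : Type*} [CStarAlgebra A] [PartialOrder A] [StarOrderedRing A]

variable {I : Type*}


namespace FPD

variable (F : FPD A I)

/-- the coefficient of `φ` in `φ^2` -/
noncomputable def al (i : I) : ℝ := (F.N i : ℝ) ^ (1 / 4 : ℝ) * (1 - 2 / (F.N i : ℝ))

/-- the constant term in `φ^2` -/
noncomputable def be (i : I) : ℝ := (F.N i : ℝ) ^ (-(1 / 2) : ℝ) * (1 - 1 / (F.N i : ℝ))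

lemma N_ge' (i : I) : (16 : ℝ) ≤ F.N i := by exact_mod_cast F.N_ge i

lemma cen_star (i : I) : star (cen F.N F.P i) = cen F.N F.P i := by
  simp [cen, F.P_star i]

lemma cen_sq (i : I) : cen F.N F.P i * cen F.N F.P i =
    (((1 - 2 / (F.N i : ℝ) : ℝ)) : ℂ) • cen F.N F.P i
      + ((((F.N i : ℝ)⁻¹ * (1 - 1 / (F.N i : ℝ)) : ℝ)) : ℂ) • (1 : A) := by
  have hN : ((F.N i : ℝ) : ℂ) ≠ 0 := by
    have := F.N_ge' i
    exact_mod_cast (by linarith : (0:ℝ) < F.N i).ne'
  simp only [cen, sub_mul, mul_sub, F.P_idem i, smul_mul_assoc, mul_smul_comm, one_mul, mul_one,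
    smul_sub, smul_smul]
  push_cast
  module

lemma tau_cen (i : I) : F.τ (cen F.N F.P i) = 0 := by
  simp only [cen, map_sub, F.tP i, map_smul, F.one, smul_eq_mul, mul_one, sub_self]

lemma φ_star (i : I) : star (F.φ i) = F.φ i := by
  simp only [φ, star_smul, F.cen_star i, Complex.star_def, Complex.conj_ofReal]

lemma φ_sq (i : I) : F.φ i * F.φ i = ((F.al i : ℝ) : ℂ) • F.φ i + ((F.be i : ℝ) : ℂ) • (1 : A) := by
  have hN : (0:ℝ) < F.N i := by have := F.N_ge' i; linarith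
  have e1 : (F.N i : ℝ) ^ (1 / 4 : ℝ) * (F.N i : ℝ) ^ (1 / 4 : ℝ) * (F.N i : ℝ)⁻¹
      = (F.N i : ℝ) ^ (-(1 / 2) : ℝ) := by
    rw [← Real.rpow_neg_one, ← Real.rpow_add hN, ← Real.rpow_add hN]
    norm_num
  rw [φ, smul_mul_smul_comm, F.cen_sq i, smul_add, smul_smul, smul_smul, smul_smul]
  congr 2
  · rw [← Complex.ofReal_mul, ← Complex.ofReal_mul, ← Complex.ofReal_mul]
    congr 1
    rw [al]; ring
  · rw [← Complex.ofReal_mul, ← Complex.ofReal_mul]
    congr 1
    rw [be, ← e1]; ring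

lemma tau_φ (i : I) : F.τ (F.φ i) = 0 := by
  simp [φ, F.tau_cen i]

lemma tau2 (i j : I) (h : i ≠ j) : F.τ (F.φ i * F.φ j) = 0 := by
  rw [φ, φ, smul_mul_smul_comm, map_smul, F.alt2 i j h, smul_zero]

lemma tau2' (i : I) : F.τ (F.φ i * F.φ i) = ((F.be i : ℝ) : ℂ) := by
  rw [F.φ_sq, map_add, map_smul, map_smul, F.tau_φ, F.one]; simp

lemma tau3 (i j k : I) (h : i ≠ j) (h' : j ≠ k) : F.τ (F.φ i * F.φ j * F.φ k) = 0 := by
  rw [φ, φ, φ, smul_mul_smul_comm, smul_mul_smul_comm, map_smul, F.alt3 i j k h h', smul_zero]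

lemma tau4 (i j k l : I) (h : i ≠ j) (h' : j ≠ k) (h'' : k ≠ l) :
    F.τ (F.φ i * F.φ j * F.φ k * F.φ l) = 0 := by
  rw [φ, φ, φ, φ, smul_mul_smul_comm, smul_mul_smul_comm, smul_mul_smul_comm, map_smul,
    F.alt4 i j k l h h' h'', smul_zero]

lemma be_nonneg (i : I) : 0 ≤ F.be i := by
  have := F.N_ge' i
  have h1 : 1 / (F.N i : ℝ) ≤ 1 := by
    rw [div_le_one (by linarith)]; linarith
  exact mul_nonneg (Real.rpow_nonneg (by linarith) _) (by linarith)

lemma be_le (i : I) : F.be i ≤ (F.N i : ℝ) ^ (-(1 / 2) : ℝ) := by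
  have := F.N_ge' i
  have h1 : 0 ≤ 1 / (F.N i : ℝ) := by positivity
  exact mul_le_of_le_one_right (Real.rpow_nonneg (by linarith) _) (by linarith)

lemma al_be (i : I) : F.al i ^ 2 * F.be i ≤ 1 := by
  have hN := F.N_ge' i
  have hp : (0:ℝ) < F.N i := by linarith
  have h1 : 1 / (F.N i : ℝ) ≤ 1 := by
    rw [div_le_one (by linarith)]; linarith
  have h0 : 0 ≤ 1 / (F.N i : ℝ) := by positivity
  have h2 : 2 / (F.N i : ℝ) ≤ 1 := by
    rw [div_le_one (by linarith)]; linarith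
  have h20 : 0 ≤ 2 / (F.N i : ℝ) := by positivity
  have e1 : ((F.N i : ℝ) ^ (1 / 4 : ℝ)) ^ 2 * (F.N i : ℝ) ^ (-(1 / 2) : ℝ) = 1 := by
    rw [← Real.rpow_natCast, ← Real.rpow_mul hp.le, ← Real.rpow_add hp]
    norm_num
  have e2 : F.al i ^ 2 * F.be i = (((F.N i : ℝ) ^ (1 / 4 : ℝ)) ^ 2 * (F.N i : ℝ) ^ (-(1 / 2) : ℝ))
      * ((1 - 2 / (F.N i : ℝ)) ^ 2 * (1 - 1 / (F.N i : ℝ))) := by
    rw [al, be]; ring
  rw [e2, e1, one_mul]
  have : (1 - 2 / (F.N i : ℝ)) ^ 2 ≤ 1 := by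
    apply pow_le_one₀ <;> linarith
  have h3 : 0 ≤ (1 - 2 / (F.N i : ℝ)) ^ 2 := by positivity
  nlinarith

open Classical in
/-- all fourth moments -/
lemma m4 (i j k l : I) : F.τ (F.φ i * F.φ j * (F.φ k * F.φ l)) =
    (((if i = j then (if k = l then F.be i * F.be k + (if i = k then F.al i ^ 2 * F.be i else 0)
        else 0) else (if j = k then (if i = l then F.be i * F.be j else 0) else 0) : ℝ)) : ℂ) := by
  by_cases hij : i = j
  · subst hij
    rw [if_pos rfl, F.φ_sq i]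
    by_cases hkl : k = l
    · subst hkl
      rw [if_pos rfl, F.φ_sq k]
      by_cases hik : i = k
      · subst hik
        rw [if_pos rfl]
        simp only [add_mul, mul_add, smul_mul_smul_comm, mul_one, one_mul, map_add, map_smul,
          F.tau2', F.tau_φ, F.one, smul_eq_mul]
        push_cast
        ring
      · rw [if_neg hik]
        simp only [add_mul, mul_add, smul_mul_smul_comm, mul_one, one_mul, map_add, map_smul,
          F.tau2 _ _ hik, F.tau_φ, F.one, smul_eq_mul]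
        push_cast
        ring
    · rw [if_neg hkl]
      by_cases hik : i = k
      · subst hik
        have e : F.τ (F.φ i * (F.φ i * F.φ l)) = 0 := by
          rw [← mul_assoc, F.φ_sq i, add_mul, smul_mul_assoc, smul_mul_assoc, one_mul, map_add,
            map_smul, map_smul, F.tau2 _ _ hkl, F.tau_φ]
          simp
        simp only [add_mul, smul_mul_assoc, one_mul, map_add, map_smul, e, F.tau2 _ _ hkl]
        simp
      · simp only [add_mul, smul_mul_assoc, one_mul, map_add, map_smul, ← mul_assoc,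
          F.tau3 _ _ _ hik hkl, F.tau2 _ _ hkl]
        simp
  · rw [if_neg hij]
    by_cases hjk : j = k
    · subst hjk
      rw [if_pos rfl]
      have e : F.φ i * F.φ j * (F.φ j * F.φ l) = ((F.al j : ℝ) : ℂ) • (F.φ i * F.φ j * F.φ l)
          + ((F.be j : ℝ) : ℂ) • (F.φ i * F.φ l) := by
        rw [mul_assoc, ← mul_assoc (F.φ j), F.φ_sq j]
        simp only [add_mul, mul_add, smul_mul_assoc, mul_smul_comm, one_mul, mul_assoc]
      rw [e, map_add, map_smul, map_smul]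
      by_cases hjl : j = l
      · subst hjl
        have hil : i ≠ j := hij
        rw [if_neg hil, F.tau2 _ _ hil]
        have e2 : F.τ (F.φ i * F.φ j * F.φ j) = 0 := by
          rw [mul_assoc, F.φ_sq j, mul_add, mul_smul_comm, mul_smul_comm, mul_one, map_add,
            map_smul, map_smul, F.tau2 _ _ hil, F.tau_φ]
          simp
        rw [e2]; simp
      · rw [F.tau3 _ _ _ hij hjl]
        by_cases hil : i = l
        · subst hil
          rw [if_pos rfl, F.tau2']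
          simp only [smul_eq_mul, mul_zero, zero_add]
          push_cast; ring
        · rw [if_neg hil, F.tau2 _ _ hil]; simp
    · rw [if_neg hjk]
      by_cases hkl : k = l
      · subst hkl
        rw [F.φ_sq k]
        simp only [mul_add, mul_smul_comm, mul_one, map_add, map_smul, F.tau3 _ _ _ hij hjk,
          F.tau2 _ _ hij]
        simp
      · rw [← mul_assoc, F.tau4 _ _ _ _ hij hjk hkl]; simp

end FPD

/-- Fourth moment bound, real coefficients. -/
theorem FPD.fourth_real (F : FPD A I) (s : Finset I) (b : I → ℝ) :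
    F.n4 (∑ i ∈ s, ((b i : ℝ) : ℂ) • F.φ i) ^ 4 ≤
      ∑ i ∈ s, b i ^ 4 + 2 * (∑ i ∈ s, b i ^ 2 * (F.N i : ℝ) ^ (-(1 / 2) : ℝ)) ^ 2 := by
  classical
  set Φ := ∑ i ∈ s, ((b i : ℝ) : ℂ) • F.φ i with hΦ
  have hstar : star Φ = Φ := by
    rw [hΦ, star_sum]
    refine Finset.sum_congr rfl fun i _ => ?_
    rw [star_smul, F.φ_star, Complex.star_def, Complex.conj_ofReal]
  set S : ℝ := ∑ i ∈ s, b i ^ 2 * F.be i with hS
  have hcalc : F.τ (Φ * Φ * (Φ * Φ)) = (((∑ i ∈ s, ∑ j ∈ s,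
      (if i = j then (b i ^ 2 * F.be i * S + b i ^ 4 * (F.al i ^ 2 * F.be i))
        else b i ^ 2 * F.be i * (b j ^ 2 * F.be j)) : ℝ)) : ℂ) := by
    have e1 : Φ * Φ = ∑ i ∈ s, ∑ j ∈ s, ((b i * b j : ℝ) : ℂ) • (F.φ i * F.φ j) := by
      rw [hΦ, Finset.sum_mul_sum]
      refine Finset.sum_congr rfl fun i _ => Finset.sum_congr rfl fun j _ => ?_
      rw [smul_mul_smul_comm]; push_cast; rfl
    rw [e1, Finset.sum_mul, map_sum, Complex.ofReal_sum]
    refine Finset.sum_congr rfl fun i hi => ?_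
    rw [Finset.sum_mul, map_sum, Complex.ofReal_sum]
    refine Finset.sum_congr rfl fun j hj => ?_
    rw [Finset.mul_sum, map_sum]
    have e2 : ∀ k ∈ s, F.τ (((b i * b j : ℝ) : ℂ) • (F.φ i * F.φ j) *
        ∑ l ∈ s, ((b k * b l : ℝ) : ℂ) • (F.φ k * F.φ l)) =
        (((∑ l ∈ s, b i * b j * (b k * b l) * (if i = j then (if k = l then F.be i * F.be k + (if i = k then F.al i ^ 2 * F.be i else 0)
        else 0) else (if j = k then (if i = l then F.be i * F.be j else 0) else 0)) : ℝ)) : ℂ) := by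
      intro k _
      rw [Finset.mul_sum, map_sum, Complex.ofReal_sum]
      refine Finset.sum_congr rfl fun l _ => ?_
      rw [smul_mul_smul_comm, map_smul, F.m4, smul_eq_mul]
      push_cast; ring
    rw [Finset.sum_congr rfl e2, ← Complex.ofReal_sum]
    congr 1
    by_cases hij : i = j
    · subst hij
      simp only [if_true]
      have e3 : ∀ k ∈ s, (∑ l ∈ s, b i * b i * (b k * b l) *
          (if k = l then F.be i * F.be k + (if i = k then F.al i ^ 2 * F.be i else 0) else 0)) =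
          b i ^ 2 * F.be i * (b k ^ 2 * F.be k) + (if i = k then b i ^ 4 * (F.al i ^ 2 * F.be i) else 0) := by
        intro k hk
        have : ∀ l ∈ s, b i * b i * (b k * b l) *
          (if k = l then F.be i * F.be k + (if i = k then F.al i ^ 2 * F.be i else 0) else 0) =
          (if k = l then b i * b i * (b k * b l) * (F.be i * F.be k + (if i = k then F.al i ^ 2 * F.be i else 0)) else 0) := by
          intro l _; split_ifs <;> ring
        rw [Finset.sum_congr rfl this, Finset.sum_ite_eq, if_pos hk]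
        split_ifs with h
        · subst h; ring
        · ring
      rw [Finset.sum_congr rfl e3, Finset.sum_add_distrib, ← Finset.mul_sum, Finset.sum_ite_eq, if_pos hi]
    · simp only [if_neg hij]
      have e3 : ∀ k ∈ s, (∑ l ∈ s, b i * b j * (b k * b l) *
          (if j = k then (if i = l then F.be i * F.be j else 0) else 0)) =
          (if j = k then b i ^ 2 * F.be i * (b j ^ 2 * F.be j) else 0) := by
        intro k hk
        by_cases hjk : j = k
        · subst hjk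
          simp only [if_true]
          have : ∀ l ∈ s, b i * b j * (b j * b l) * (if i = l then F.be i * F.be j else 0) =
            (if i = l then b i * b j * (b j * b l) * (F.be i * F.be j) else 0) := by
            intro l _; split_ifs <;> ring
          rw [Finset.sum_congr rfl this, Finset.sum_ite_eq, if_pos hi]; ring
        · simp [hjk]
      rw [Finset.sum_congr rfl e3, Finset.sum_ite_eq, if_pos hj]
  have hn4 : F.n4 Φ ^ 4 = ∑ i ∈ s, ∑ j ∈ s,
      (if i = j then (b i ^ 2 * F.be i * S + b i ^ 4 * (F.al i ^ 2 * F.be i))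
        else b i ^ 2 * F.be i * (b j ^ 2 * F.be j)) := by
    rw [F.n4_pow, hstar, TrState.sq, star_mul, hstar, hcalc, Complex.ofReal_re]
  rw [hn4]
  have hbe : ∀ i, 0 ≤ b i ^ 2 * F.be i := fun i => mul_nonneg (sq_nonneg _) (F.be_nonneg i)
  have step1 : ∑ i ∈ s, ∑ j ∈ s,
      (if i = j then (b i ^ 2 * F.be i * S + b i ^ 4 * (F.al i ^ 2 * F.be i))
        else b i ^ 2 * F.be i * (b j ^ 2 * F.be j)) ≤ ∑ i ∈ s, b i ^ 4 + 2 * S ^ 2 := by
    have h1 : ∀ i ∈ s, ∑ j ∈ s,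
      (if i = j then (b i ^ 2 * F.be i * S + b i ^ 4 * (F.al i ^ 2 * F.be i))
        else b i ^ 2 * F.be i * (b j ^ 2 * F.be j)) ≤ b i ^ 4 + 2 * (b i ^ 2 * F.be i * S) := by
      intro i hi
      have h2 : ∀ j ∈ s, (if i = j then (b i ^ 2 * F.be i * S + b i ^ 4 * (F.al i ^ 2 * F.be i))
        else b i ^ 2 * F.be i * (b j ^ 2 * F.be j)) ≤
        (if i = j then (b i ^ 2 * F.be i * S + b i ^ 4) else 0) + b i ^ 2 * F.be i * (b j ^ 2 * F.be j) := by
        intro j _
        split_ifs with h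
        · have h3 := F.al_be i
          have h4 : 0 ≤ b i ^ 4 := by positivity
          have h5 := mul_nonneg (hbe i) (hbe j)
          nlinarith
        · linarith
      refine (Finset.sum_le_sum h2).trans ?_
      rw [Finset.sum_add_distrib, Finset.sum_ite_eq, if_pos hi, ← Finset.mul_sum, ← hS]
      linarith
    refine (Finset.sum_le_sum h1).trans ?_
    rw [Finset.sum_add_distrib, ← Finset.mul_sum, ← Finset.sum_mul, ← hS]
    apply le_of_eq; ring
  refine step1.trans ?_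
  have hS0 : 0 ≤ S := Finset.sum_nonneg fun i _ => hbe i
  have hSle : S ≤ ∑ i ∈ s, b i ^ 2 * (F.N i : ℝ) ^ (-(1 / 2) : ℝ) :=
    Finset.sum_le_sum fun i _ => mul_le_mul_of_nonneg_left (F.be_le i) (sq_nonneg _)
  have := pow_le_pow_left₀ hS0 hSle 2
  linarith

/-- Fourth moment bound, complex coefficients (from the real one and Minkowski). -/
theorem FPD.fourth (F : FPD A I) (s : Finset I) (b : I → ℂ) :
    F.n4 (∑ i ∈ s, b i • F.φ i) ^ 4 ≤
      16 * (∑ i ∈ s, ‖b i‖ ^ 4 +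
        2 * (∑ i ∈ s, ‖b i‖ ^ 2 * (F.N i : ℝ) ^ (-(1 / 2) : ℝ)) ^ 2) := by
  set R : ℝ := ∑ i ∈ s, ‖b i‖ ^ 4 +
        2 * (∑ i ∈ s, ‖b i‖ ^ 2 * (F.N i : ℝ) ^ (-(1 / 2) : ℝ)) ^ 2 with hR
  have hR0 : 0 ≤ R := by positivity
  have key : ∀ a : I → ℝ, (∀ i, |a i| ≤ ‖b i‖) →
      F.n4 (∑ i ∈ s, ((a i : ℝ) : ℂ) • F.φ i) ^ 4 ≤ R := by
    intro a ha
    refine (F.fourth_real s a).trans ?_
    have h2 : ∀ i, a i ^ 2 ≤ ‖b i‖ ^ 2 := fun i => by
      rw [← sq_abs]; exact pow_le_pow_left₀ (abs_nonneg _) (ha i) 2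
    have h4 : ∀ i, a i ^ 4 ≤ ‖b i‖ ^ 4 := fun i => by
      have := pow_le_pow_left₀ (sq_nonneg (a i)) (h2 i) 2
      calc a i ^ 4 = (a i ^ 2) ^ 2 := by ring
        _ ≤ (‖b i‖ ^ 2) ^ 2 := this
        _ = _ := by ring
    have h5 : ∑ i ∈ s, a i ^ 2 * (F.N i : ℝ) ^ (-(1 / 2) : ℝ) ≤
        ∑ i ∈ s, ‖b i‖ ^ 2 * (F.N i : ℝ) ^ (-(1 / 2) : ℝ) :=
      Finset.sum_le_sum fun i _ => mul_le_mul_of_nonneg_right (h2 i)
        (Real.rpow_nonneg (Nat.cast_nonneg _) _)
    have h6 : 0 ≤ ∑ i ∈ s, a i ^ 2 * (F.N i : ℝ) ^ (-(1 / 2) : ℝ) :=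
      Finset.sum_nonneg fun i _ => mul_nonneg (sq_nonneg _) (Real.rpow_nonneg (Nat.cast_nonneg _) _)
    have h7 := pow_le_pow_left₀ h6 h5 2
    have h8 : ∑ i ∈ s, a i ^ 4 ≤ ∑ i ∈ s, ‖b i‖ ^ 4 := Finset.sum_le_sum fun i _ => h4 i
    rw [hR]; linarith
  have k1 := key (fun i => (b i).re) (fun i => Complex.abs_re_le_norm _)
  have k2 := key (fun i => (b i).im) (fun i => Complex.abs_im_le_norm _)
  have hsum : ∑ i ∈ s, b i • F.φ i = ∑ i ∈ s, (((b i).re : ℝ) : ℂ) • F.φ i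
      + Complex.I • ∑ i ∈ s, (((b i).im : ℝ) : ℂ) • F.φ i := by
    rw [Finset.smul_sum, ← Finset.sum_add_distrib]
    refine Finset.sum_congr rfl fun i _ => ?_
    rw [smul_smul, ← add_smul]
    congr 1
    rw [mul_comm]; exact (Complex.re_add_im (b i)).symm
  rw [hsum]
  set x := F.n4 (∑ i ∈ s, (((b i).re : ℝ) : ℂ) • F.φ i) with hx
  set y := F.n4 (∑ i ∈ s, (((b i).im : ℝ) : ℂ) • F.φ i) with hy
  have hx0 : 0 ≤ x := F.n4_nonneg _
  have hy0 : 0 ≤ y := F.n4_nonneg _
  have hle : F.n4 (∑ i ∈ s, (((b i).re : ℝ) : ℂ) • F.φ i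
      + Complex.I • ∑ i ∈ s, (((b i).im : ℝ) : ℂ) • F.φ i) ≤ x + y := by
    refine (F.n4_add _ _).trans ?_
    rw [F.n4_smul, Complex.norm_I, one_mul]
  refine (pow_le_pow_left₀ (F.n4_nonneg _) hle 4).trans ?_
  rcases le_total x y with h | h
  · calc (x + y) ^ 4 ≤ (2 * y) ^ 4 := pow_le_pow_left₀ (by positivity) (by linarith) 4
      _ = 16 * y ^ 4 := by ring
      _ ≤ 16 * R := by linarith
  · calc (x + y) ^ 4 ≤ (2 * x) ^ 4 := pow_le_pow_left₀ (by positivity) (by linarith) 4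
      _ = 16 * x ^ 4 := by ring
      _ ≤ 16 * R := by linarith

end NCLp
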