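import Pool.Agent.NCLp.OneStepDef
import Pool.Agent.NCLp.Fourth
import Pool.Agent.NCLp.BesselE
import Pool.Agent.NCLp.Dual

/-! ### THE JOB -/
open Filter Topology
open scoped ENNReal NNReal ComplexOrder ComplexConjugate

namespace NCLp

variable {A : Type*} [CStarAlgebra A] [PartialOrder A] [StarOrderedRing A]

variable {I : Type*} {F : FPD A I} {L : Type*} [Fintype L] {K : ℕ} {Γ : ℝ}

/-- fourth moment bound for combinations of the `f_l` -/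
theorem OneStep.fourth (O : OneStep F L K Γ) (S : Finset L) (r : L → ℂ) :
    F.n4 (∑ l ∈ S, r l • O.f l) ^ 4 ≤
      16 * (∑ l ∈ S, ‖r l‖ ^ 4 +
        2 * (∑ l ∈ S, ‖r l‖ ^ 2 * ((K : ℝ) ^ (-(1 / 2) : ℝ) *
          ∑ k : Fin K, (F.N (O.a l k) : ℝ) ^ (-(1 / 2) : ℝ))) ^ 2) := by
  classical
  set e : L × Fin K ↪ I := ⟨fun p => O.a p.1 p.2, O.a_inj⟩ with he
  set κ : ℝ := (K : ℝ) ^ (-(1 / 4) : ℝ) with hκ
  have hκ0 : 0 ≤ κ := Real.rpow_nonneg (Nat.cast_nonneg _) _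
  have hκ4 : κ ^ 4 = (K : ℝ)⁻¹ := by
    rw [hκ, ← Real.rpow_natCast, ← Real.rpow_mul (Nat.cast_nonneg _), ← Real.rpow_neg_one]
    norm_num
  have hκ2 : κ ^ 2 = (K : ℝ) ^ (-(1 / 2) : ℝ) := by
    rw [hκ, ← Real.rpow_natCast, ← Real.rpow_mul (Nat.cast_nonneg _)]
    norm_num
  set b : I → ℂ := Function.extend e (fun p => r p.1 * (κ : ℂ)) 0 with hb
  have hbe : ∀ p, b (e p) = r p.1 * (κ : ℂ) := fun p =>
    Function.Injective.extend_apply e.injective _ _ p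
  have h := F.fourth ((S ×ˢ (Finset.univ : Finset (Fin K))).map e) b
  rw [Finset.sum_map, Finset.sum_map, Finset.sum_map, Finset.sum_product, Finset.sum_product,
    Finset.sum_product] at h
  simp only [hbe] at h
  have e1 : ∑ l ∈ S, r l • O.f l = ∑ l ∈ S, ∑ k : Fin K, (r l * (κ : ℂ)) • F.φ (e (l, k)) := by
    refine Finset.sum_congr rfl fun l _ => ?_
    rw [OneStep.f, smul_smul, Finset.smul_sum]
    rfl
  rw [e1]
  refine h.trans ?_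
  have hn : ∀ l, ‖r l * (κ : ℂ)‖ = ‖r l‖ * κ := fun l => by
    rw [norm_mul, Complex.norm_real, Real.norm_of_nonneg hκ0]
  have hA : ∑ l ∈ S, ∑ _k : Fin K, ‖r l * (κ : ℂ)‖ ^ 4 ≤ ∑ l ∈ S, ‖r l‖ ^ 4 := by
    refine Finset.sum_le_sum fun l _ => ?_
    rw [Finset.sum_const, Finset.card_univ, Fintype.card_fin, nsmul_eq_mul, hn, mul_pow, hκ4]
    have h1 : (K : ℝ) * (K : ℝ)⁻¹ ≤ 1 := mul_inv_le_one
    have h2 : 0 ≤ ‖r l‖ ^ 4 := by positivity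
    nlinarith
  have hB : ∑ l ∈ S, ∑ k : Fin K, ‖r l * (κ : ℂ)‖ ^ 2 * (F.N (e (l, k)) : ℝ) ^ (-(1 / 2) : ℝ) =
      ∑ l ∈ S, ‖r l‖ ^ 2 * ((K : ℝ) ^ (-(1 / 2) : ℝ) *
          ∑ k : Fin K, (F.N (O.a l k) : ℝ) ^ (-(1 / 2) : ℝ)) := by
    refine Finset.sum_congr rfl fun l _ => ?_
    rw [← Finset.mul_sum, hn, mul_pow, hκ2, mul_assoc]
    rfl
  rw [hB]
  gcongr

/-- boundedness of the dual operator -/
theorem OneStep.bound (O : OneStep F L K Γ) (hK : 1 ≤ K) (hΓ : 1 ≤ Γ) (z : A) :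
    F.n4 (∑ l : L, F.τ (O.X l * z) • O.f l) ≤ 9 * F.n4 z := by
  classical
  have hK0 : (0 : ℝ) < K := by exact_mod_cast hK
  have hK1 : (1 : ℝ) ≤ K := by exact_mod_cast hK
  set r : L → ℂ := fun l => F.τ (O.X l * z) with hr
  set u : L → Fin K → ℂ := fun l k => F.τ (F.s (O.b l k) * z) with hu
  set κ : ℝ := (K : ℝ) ^ (-(3 / 4) : ℝ) with hκ
  have hκ0 : 0 ≤ κ := Real.rpow_nonneg hK0.le _
  have hκ2 : κ ^ 2 * K = (K : ℝ) ^ (-(1 / 2) : ℝ) := by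
    rw [hκ, ← Real.rpow_natCast, ← Real.rpow_mul hK0.le]
    nth_rewrite 2 [← Real.rpow_one (K : ℝ)]
    rw [← Real.rpow_add hK0]
    norm_num
  have hhalf2 : ((K : ℝ) ^ (-(1 / 2) : ℝ)) ^ 2 * K = 1 := by
    rw [← Real.rpow_natCast, ← Real.rpow_mul hK0.le]
    nth_rewrite 2 [← Real.rpow_one (K : ℝ)]
    rw [← Real.rpow_add hK0]
    norm_num
  have hhalf0 : 0 ≤ (K : ℝ) ^ (-(1 / 2) : ℝ) := Real.rpow_nonneg hK0.le _
  have hhalf1 : (K : ℝ) ^ (-(1 / 2) : ℝ) ≤ 1 :=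
    Real.rpow_le_one_of_one_le_of_nonpos hK1 (by norm_num)
  have hru : ∀ l, r l = (κ : ℂ) * ∑ k, u l k := by
    intro l
    simp only [hr, OneStep.X, smul_mul_assoc, map_smul, smul_eq_mul, Finset.sum_mul, map_sum]
    rfl
  have hnorm : ∀ l, ‖r l‖ ≤ κ * ∑ k, ‖u l k‖ := by
    intro l
    rw [hru, norm_mul, Complex.norm_real, Real.norm_of_nonneg hκ0]
    exact mul_le_mul_of_nonneg_left (norm_sum_le _ _) hκ0
  have h2 : ∀ l, ‖r l‖ ^ 2 ≤ (K : ℝ) ^ (-(1 / 2) : ℝ) * ∑ k, ‖u l k‖ ^ 2 := by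
    intro l
    have h := pow_le_pow_left₀ (norm_nonneg _) (hnorm l) 2
    have h3 : (∑ k, ‖u l k‖) ^ 2 ≤ (K : ℝ) * ∑ k, ‖u l k‖ ^ 2 := by
      have := sq_sum_le_card_mul_sum_sq (s := (Finset.univ : Finset (Fin K))) (f := fun k => ‖u l k‖)
      rwa [Finset.card_univ, Fintype.card_fin] at this
    calc ‖r l‖ ^ 2 ≤ (κ * ∑ k, ‖u l k‖) ^ 2 := h
      _ = κ ^ 2 * (∑ k, ‖u l k‖) ^ 2 := by ring
      _ ≤ κ ^ 2 * ((K : ℝ) * ∑ k, ‖u l k‖ ^ 2) := by gcongr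
      _ = (κ ^ 2 * K) * ∑ k, ‖u l k‖ ^ 2 := by ring
      _ = _ := by rw [hκ2]
  have h4 : ∀ l, ‖r l‖ ^ 4 ≤ ∑ k, ‖u l k‖ ^ 4 := by
    intro l
    have h := pow_le_pow_left₀ (sq_nonneg _) (h2 l) 2
    have h3 : (∑ k, ‖u l k‖ ^ 2) ^ 2 ≤ (K : ℝ) * ∑ k, (‖u l k‖ ^ 2) ^ 2 := by
      have := sq_sum_le_card_mul_sum_sq (s := (Finset.univ : Finset (Fin K)))
        (f := fun k => ‖u l k‖ ^ 2)
      rwa [Finset.card_univ, Fintype.card_fin] at this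
    calc ‖r l‖ ^ 4 = (‖r l‖ ^ 2) ^ 2 := by ring
      _ ≤ ((K : ℝ) ^ (-(1 / 2) : ℝ) * ∑ k, ‖u l k‖ ^ 2) ^ 2 := h
      _ = ((K : ℝ) ^ (-(1 / 2) : ℝ)) ^ 2 * (∑ k, ‖u l k‖ ^ 2) ^ 2 := by ring
      _ ≤ ((K : ℝ) ^ (-(1 / 2) : ℝ)) ^ 2 * ((K : ℝ) * ∑ k, (‖u l k‖ ^ 2) ^ 2) := by gcongr
      _ = (((K : ℝ) ^ (-(1 / 2) : ℝ)) ^ 2 * K) * ∑ k, (‖u l k‖ ^ 2) ^ 2 := by ring
      _ = ∑ k, ‖u l k‖ ^ 4 := by
          rw [hhalf2, one_mul]
          refine Finset.sum_congr rfl fun k _ => by ring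
  set eb : L × Fin K ↪ I := ⟨fun p => O.b p.1 p.2, O.b_inj⟩ with heb
  have hsum4 : ∑ l : L, ‖r l‖ ^ 4 ≤ 384 * F.n4 z ^ 4 := by
    have h := F.E1 (((Finset.univ : Finset L) ×ˢ (Finset.univ : Finset (Fin K))).map eb) z
    rw [Finset.sum_map, Finset.sum_product] at h
    exact (Finset.sum_le_sum fun l _ => h4 l).trans h
  -- the second sum
  set β : L → ℝ := fun l => (K : ℝ) ^ (-(1 / 2) : ℝ) *
          ∑ k : Fin K, (F.N (O.a l k) : ℝ) ^ (-(1 / 2) : ℝ) with hβ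
  set M : L → ℝ := fun l => (16 : ℝ) ^ (O.e l + K) with hM
  have hM1 : ∀ l, 1 ≤ M l := fun l => one_le_pow₀ (by norm_num)
  have hM0 : ∀ l, 0 < M l := fun l => lt_of_lt_of_le one_pos (hM1 l)
  have hβle : ∀ l, β l ≤ (M l ^ 3) ^ (-(1 / 2) : ℝ) := by
    intro l
    have hM3 : 0 < M l ^ 3 := pow_pos (hM0 l) 3
    have h1 : ∀ k : Fin K, (F.N (O.a l k) : ℝ) ^ (-(1 / 2) : ℝ) ≤
        (K : ℝ) ^ (-(1 / 2) : ℝ) * (M l ^ 3) ^ (-(1 / 2) : ℝ) := by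
      intro k
      rw [← Real.mul_rpow hK0.le hM3.le]
      apply Real.rpow_le_rpow_of_nonpos (mul_pos hK0 hM3) _ (by norm_num)
      refine le_trans ?_ (O.Na l k)
      have h5 : 0 < (K : ℝ) * M l ^ 3 := mul_pos hK0 hM3
      calc (K : ℝ) * M l ^ 3 = 1 * ((K : ℝ) * M l ^ 3) := by ring
        _ ≤ Γ * ((K : ℝ) * M l ^ 3) := by gcongr
        _ = Γ * K * ((16 : ℝ) ^ (O.e l + K)) ^ 3 := by rw [hM]; ring
    calc β l ≤ (K : ℝ) ^ (-(1 / 2) : ℝ) * ∑ _k : Fin K,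
          ((K : ℝ) ^ (-(1 / 2) : ℝ) * (M l ^ 3) ^ (-(1 / 2) : ℝ)) :=
          mul_le_mul_of_nonneg_left (Finset.sum_le_sum fun k _ => h1 k) hhalf0
      _ = (((K : ℝ) ^ (-(1 / 2) : ℝ)) ^ 2 * K) * (M l ^ 3) ^ (-(1 / 2) : ℝ) := by
          rw [Finset.sum_const, Finset.card_univ, Fintype.card_fin, nsmul_eq_mul]; ring
      _ = _ := by rw [hhalf2, one_mul]
  have hβ0 : ∀ l, 0 ≤ β l := fun l => mul_nonneg hhalf0
    (Finset.sum_nonneg fun k _ => Real.rpow_nonneg (Nat.cast_nonneg _) _)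
  have hu2 : ∀ l k, ‖u l k‖ ^ 2 = (F.N (O.b l k) : ℝ) ^ (1 / 2 : ℝ) *
      ((F.N (O.b l k) : ℝ) * ‖F.τ (cen F.N F.P (O.b l k) * z)‖ ^ 2) := by
    intro l k
    have hN : (0 : ℝ) < F.N (O.b l k) := by
      have := F.N_ge (O.b l k); exact_mod_cast (by omega : 0 < F.N (O.b l k))
    simp only [hu, FPD.s, smul_mul_assoc, map_smul, smul_eq_mul, norm_mul, Complex.norm_real]
    rw [Real.norm_of_nonneg (Real.rpow_nonneg hN.le _), mul_pow, ← mul_assoc]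
    congr 1
    rw [← Real.rpow_natCast, ← Real.rpow_mul hN.le]
    nth_rewrite 3 [← Real.rpow_one (F.N (O.b l k) : ℝ)]
    rw [← Real.rpow_add hN]
    norm_num
  have hterm : ∀ l, ‖r l‖ ^ 2 * β l ≤
      ∑ k : Fin K, (F.N (O.b l k) : ℝ) * ‖F.τ (cen F.N F.P (O.b l k) * z)‖ ^ 2 := by
    intro l
    have hsumnn : 0 ≤ ∑ k, ‖u l k‖ ^ 2 := Finset.sum_nonneg fun k _ => sq_nonneg _
    have hr2 : ‖r l‖ ^ 2 ≤ ∑ k, ‖u l k‖ ^ 2 := by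
      refine (h2 l).trans ?_
      exact mul_le_of_le_one_left hsumnn hhalf1
    have hM3nn : 0 ≤ (M l ^ 3) ^ (-(1 / 2) : ℝ) := Real.rpow_nonneg (pow_pos (hM0 l) 3).le _
    calc ‖r l‖ ^ 2 * β l ≤ (∑ k, ‖u l k‖ ^ 2) * (M l ^ 3) ^ (-(1 / 2) : ℝ) :=
          mul_le_mul hr2 (hβle l) (hβ0 l) hsumnn
      _ = ∑ k, ‖u l k‖ ^ 2 * (M l ^ 3) ^ (-(1 / 2) : ℝ) := Finset.sum_mul _ _ _
      _ ≤ _ := by
          refine Finset.sum_le_sum fun k _ => ?_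
          rw [hu2 l k]
          have hN : (0 : ℝ) < F.N (O.b l k) := by
            have := F.N_ge (O.b l k); exact_mod_cast (by omega : 0 < F.N (O.b l k))
          have hNM : (F.N (O.b l k) : ℝ) ≤ M l := by
            rw [O.Nb l k, hM]
            push_cast
            apply pow_le_pow_right₀ (by norm_num)
            have := k.2; omega
          have h6 : (F.N (O.b l k) : ℝ) ^ (1 / 2 : ℝ) * (M l ^ 3) ^ (-(1 / 2) : ℝ) ≤ 1 := by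
            have h7 : (F.N (O.b l k) : ℝ) ^ (1 / 2 : ℝ) ≤ (M l ^ 3) ^ (1 / 2 : ℝ) := by
              apply Real.rpow_le_rpow hN.le _ (by norm_num)
              refine hNM.trans ?_
              exact le_self_pow₀ (hM1 l) (by norm_num)
            calc _ ≤ (M l ^ 3) ^ (1 / 2 : ℝ) * (M l ^ 3) ^ (-(1 / 2) : ℝ) := by gcongr
              _ = 1 := by
                  rw [← Real.rpow_add (pow_pos (hM0 l) 3)]
                  norm_num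
          have hw : 0 ≤ (F.N (O.b l k) : ℝ) * ‖F.τ (cen F.N F.P (O.b l k) * z)‖ ^ 2 := by
            positivity
          calc _ = ((F.N (O.b l k) : ℝ) ^ (1 / 2 : ℝ) * (M l ^ 3) ^ (-(1 / 2) : ℝ)) *
                ((F.N (O.b l k) : ℝ) * ‖F.τ (cen F.N F.P (O.b l k) * z)‖ ^ 2) := by ring
            _ ≤ 1 * _ := mul_le_mul_of_nonneg_right h6 hw
            _ = _ := one_mul _
  have hsum2 : ∑ l : L, ‖r l‖ ^ 2 * β l ≤ F.n4 z ^ 2 := by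
    have h := F.bessel (((Finset.univ : Finset L) ×ˢ (Finset.univ : Finset (Fin K))).map eb) z
    rw [Finset.sum_map, Finset.sum_product] at h
    exact ((Finset.sum_le_sum fun l _ => hterm l).trans h).trans (F.sq_le_n4 z)
  have hsum2nn : 0 ≤ ∑ l : L, ‖r l‖ ^ 2 * β l :=
    Finset.sum_nonneg fun l _ => mul_nonneg (sq_nonneg _) (hβ0 l)
  have hmain := O.fourth Finset.univ r
  have hz0 := F.n4_nonneg z
  have hsq := pow_le_pow_left₀ hsum2nn hsum2 2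
  have hfin : F.n4 (∑ l : L, r l • O.f l) ^ 4 ≤ (9 * F.n4 z) ^ 4 := by
    refine hmain.trans ?_
    have h8 : (F.n4 z ^ 2) ^ 2 = F.n4 z ^ 4 := by ring
    rw [h8] at hsq
    have h9 : 0 ≤ F.n4 z ^ 4 := by positivity
    have h10 : (9 * F.n4 z) ^ 4 = 6561 * F.n4 z ^ 4 := by ring
    rw [h10]
    have h11 : (∑ l : L, ‖r l‖ ^ 2 * ((K : ℝ) ^ (-(1 / 2) : ℝ) *
          ∑ k : Fin K, (F.N (O.a l k) : ℝ) ^ (-(1 / 2) : ℝ))) ^ 2 ≤ F.n4 z ^ 4 := hsq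
    linarith
  exact (pow_le_pow_iff_left₀ (F.n4_nonneg _) (by positivity) (by norm_num)).1 hfin

end NCLp
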