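import Pool.Agent.NCLp.OneStepNeg
import Pool.Agent.NCLp.OneStepBound

open Filter Topology
open scoped ENNReal NNReal ComplexOrder ComplexConjugate

namespace NCLp

variable {A : Type*} [CStarAlgebra A] [PartialOrder A] [StarOrderedRing A]

/-- source elements of level `i`, copy `j` -/
noncomputable def chF (F : FPD A (ℕ × ℕ)) (K : ℕ) (E : ℕ → ℕ) (i j : ℕ) : A :=
  (((K : ℝ) ^ (-(1 / 4) : ℝ) : ℝ) : ℂ) • ∑ k : Fin K, F.φ (E i + k, j)

/-- target elements of level `i`, copy `j` -/
noncomputable def chX (F : FPD A (ℕ × ℕ)) (K : ℕ) (E : ℕ → ℕ) (i j : ℕ) : A :=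
  (((K : ℝ) ^ (-(3 / 4) : ℝ) : ℝ) : ℂ) • ∑ k : Fin K, F.s (E i + k, j)

/-- the one-step data of the whole chain: sources are the levels `i < L'`, targets the levels
`i + 1` -/
def chainStep (F : FPD A (ℕ × ℕ)) (hN : ∀ i, F.N i = 16 ^ (i.1 + 1)) (K : ℕ) (E : ℕ → ℕ)
    (L' m : ℕ) (Γ : ℝ) (hE : ∀ i < L', E (i + 1) + K ≤ E i)
    (hΓ : ∀ i < L', Γ * K * ((16 : ℝ) ^ (E (i + 1) + K)) ^ 3 ≤ (16 : ℝ) ^ (E i + 1)) :
    OneStep F (Fin L' × Fin m) K Γ where
  a l k := (E l.1 + k, l.2)
  b l k := (E (l.1 + 1) + k, l.2)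
  e l := E (l.1 + 1)
  a_inj := by
    have key : ∀ d i : ℕ, i + d ≤ L' → E (i + d) + d * K ≤ E i := by
      intro d
      induction d with
      | zero => intro i _; simp
      | succ d ih =>
        intro i hi
        have h1 := ih i (by omega)
        have h2 := hE (i + d) (by omega)
        rw [show i + (d + 1) = i + d + 1 by ring, Nat.succ_mul]
        omega
    have lt : ∀ i i' : ℕ, i < i' → i' ≤ L' → E i' + K ≤ E i := by
      intro i i' h h'
      have h1 := key (i' - i) i (by omega)
      rw [show i + (i' - i) = i' by omega] at h1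
      have : K ≤ (i' - i) * K := Nat.le_mul_of_pos_left K (by omega)
      omega
    rintro ⟨⟨i, j⟩, k⟩ ⟨⟨i', j'⟩, k'⟩ h
    simp only [Prod.mk.injEq] at h
    obtain ⟨h1, h2⟩ := h
    have hi : (i : ℕ) = i' := by
      by_contra hne
      rcases Nat.lt_or_gt_of_ne hne with h | h
      · have := lt i i' h (by omega); omega
      · have := lt i' i h (by omega); omega
    have hi' : i = i' := Fin.ext hi
    subst hi'
    have hk : k = k' := Fin.ext (by omega)
    have hj : j = j' := Fin.ext h2
    subst hk; subst hj; rfl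
  b_inj := by
    have key : ∀ d i : ℕ, i + d ≤ L' → E (i + d) + d * K ≤ E i := by
      intro d
      induction d with
      | zero => intro i _; simp
      | succ d ih =>
        intro i hi
        have h1 := ih i (by omega)
        have h2 := hE (i + d) (by omega)
        rw [show i + (d + 1) = i + d + 1 by ring, Nat.succ_mul]
        omega
    have lt : ∀ i i' : ℕ, i < i' → i' ≤ L' → E i' + K ≤ E i := by
      intro i i' h h'
      have h1 := key (i' - i) i (by omega)
      rw [show i + (i' - i) = i' by omega] at h1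
      have : K ≤ (i' - i) * K := Nat.le_mul_of_pos_left K (by omega)
      omega
    rintro ⟨⟨i, j⟩, k⟩ ⟨⟨i', j'⟩, k'⟩ h
    simp only [Prod.mk.injEq] at h
    obtain ⟨h1, h2⟩ := h
    have hi : (i : ℕ) = i' := by
      by_contra hne
      rcases Nat.lt_or_gt_of_ne hne with h | h
      · have := lt (i + 1) (i' + 1) (by omega) (by omega); omega
      · have := lt (i' + 1) (i + 1) (by omega) (by omega); omega
    have hi' : i = i' := Fin.ext hi
    subst hi'
    have hk : k = k' := Fin.ext (by omega)
    have hj : j = j' := Fin.ext h2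
    subst hk; subst hj; rfl
  Nb l k := by rw [hN]
  Na l k := by
    rw [hN]
    refine (hΓ l.1 l.1.2).trans ?_
    push_cast
    exact pow_le_pow_right₀ (by norm_num) (by simp)

end NCLp
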