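import Pool.Agent.NCLp.ChainDef

/-! ### THE JOB -/
open Filter Topology
open scoped ENNReal NNReal ComplexOrder ComplexConjugate

namespace NCLp

variable {A : Type*} [CStarAlgebra A] [PartialOrder A] [StarOrderedRing A]

/-- the self-pairing constant -/
noncomputable def chc (K : ℕ) (E : ℕ → ℕ) (i : ℕ) : ℝ :=
  (K : ℝ)⁻¹ * ∑ k : Fin K, (1 - ((16 : ℝ) ^ (E i + k + 1))⁻¹)

theorem chc_ge (K : ℕ) (hK : 1 ≤ K) (E : ℕ → ℕ) (i : ℕ) : 15 / 16 ≤ chc K E i := by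
  have hKpos : (0 : ℝ) < K := by exact_mod_cast hK
  have h1 : ∑ k : Fin K, (15 / 16 : ℝ) ≤ ∑ k : Fin K, (1 - ((16 : ℝ) ^ (E i + k + 1))⁻¹) := by
    refine Finset.sum_le_sum fun k _ => ?_
    have h2 : (16 : ℝ) ≤ (16 : ℝ) ^ (E i + (k : ℕ) + 1) := le_self_pow₀ (by norm_num) (by omega)
    have h3 : ((16 : ℝ) ^ (E i + (k : ℕ) + 1))⁻¹ ≤ (16 : ℝ)⁻¹ :=
      inv_anti₀ (by norm_num) h2
    norm_num at h3 ⊢
    linarith
  rw [Finset.sum_const, Finset.card_univ, Fintype.card_fin, nsmul_eq_mul] at h1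
  unfold chc
  calc (15 / 16 : ℝ) = (K : ℝ)⁻¹ * ((K : ℝ) * (15 / 16)) := by field_simp
    _ ≤ _ := mul_le_mul_of_nonneg_left h1 (by positivity)

theorem chc_le (K : ℕ) (hK : 1 ≤ K) (E : ℕ → ℕ) (i : ℕ) : chc K E i ≤ 1 := by
  have hKpos : (0 : ℝ) < K := by exact_mod_cast hK
  have h1 : ∑ k : Fin K, (1 - ((16 : ℝ) ^ (E i + k + 1))⁻¹) ≤ ∑ k : Fin K, (1 : ℝ) := by
    refine Finset.sum_le_sum fun k _ => ?_
    have h2 : (0 : ℝ) ≤ ((16 : ℝ) ^ (E i + (k : ℕ) + 1))⁻¹ := by positivity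
    linarith
  rw [Finset.sum_const, Finset.card_univ, Fintype.card_fin, nsmul_eq_mul, mul_one] at h1
  unfold chc
  calc _ ≤ (K : ℝ)⁻¹ * (K : ℝ) := mul_le_mul_of_nonneg_left h1 (by positivity)
    _ = 1 := inv_mul_cancel₀ hKpos.ne'

theorem cen_star' {I : Type*} (F : FPD A I) (a : I) : star (cen F.N F.P a) = cen F.N F.P a := by
  unfold cen
  rw [star_sub, star_smul, star_one, F.P_star, Complex.star_def, Complex.conj_ofReal]

theorem cen_tau' {I : Type*} (F : FPD A I) (a : I) : F.τ (cen F.N F.P a) = 0 := by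
  unfold cen
  rw [map_sub, map_smul, F.tP, F.one, smul_eq_mul, mul_one, sub_self]

theorem cen_sq' {I : Type*} (F : FPD A I) (a : I) : F.τ (cen F.N F.P a * cen F.N F.P a) =
    (((F.N a : ℝ)⁻¹ - (F.N a : ℝ)⁻¹ * (F.N a : ℝ)⁻¹ : ℝ) : ℂ) := by
  unfold cen
  rw [sub_mul, mul_sub, mul_sub, F.P_idem, smul_mul_assoc, one_mul, mul_smul_comm, mul_one,
    smul_mul_assoc, one_mul, map_sub, map_sub, map_sub, map_smul, map_smul, map_smul, F.tP, F.one]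
  simp only [smul_eq_mul, mul_one]
  push_cast
  ring

theorem phi_s {I : Type*} (F : FPD A I) (a : I) : F.τ (F.φ a * F.s a) =
    ((1 - (F.N a : ℝ)⁻¹ : ℝ) : ℂ) := by
  have hN : (0 : ℝ) < (F.N a : ℝ) := by
    have := F.N_ge a
    exact_mod_cast (by omega : 0 < F.N a)
  unfold FPD.φ FPD.s
  rw [smul_mul_smul_comm, map_smul, cen_sq', ← Complex.ofReal_mul, smul_eq_mul,
    ← Complex.ofReal_mul, ← Real.rpow_add hN]
  congr 1
  norm_num
  field_simp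

theorem phi_s_ne {I : Type*} (F : FPD A I) (a b : I) (hab : a ≠ b) : F.τ (F.φ a * F.s b) = 0 := by
  unfold FPD.φ FPD.s
  rw [smul_mul_smul_comm, map_smul, F.alt2 a b hab, smul_zero]

theorem ch_mul (F : FPD A (ℕ × ℕ)) (K : ℕ) (E : ℕ → ℕ) (i j i' j' : ℕ) :
    F.τ (chF F K E i j * chX F K E i' j') =
      (((K : ℝ) ^ (-(1 / 4) : ℝ) * (K : ℝ) ^ (-(3 / 4) : ℝ) : ℝ) : ℂ) *
      ∑ k : Fin K, ∑ k' : Fin K, F.τ (F.φ (E i + k, j) * F.s (E i' + k', j')) := by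
  unfold chF chX
  rw [smul_mul_smul_comm, map_smul, Finset.sum_mul_sum, map_sum, smul_eq_mul, Complex.ofReal_mul]
  congr 1
  refine Finset.sum_congr rfl fun k _ => ?_
  rw [map_sum]

theorem ch_pair_eq (F : FPD A (ℕ × ℕ)) (hN : ∀ i, F.N i = 16 ^ (i.1 + 1)) (K : ℕ) (hK : 1 ≤ K)
    (E : ℕ → ℕ) (i j : ℕ) : F.τ (chF F K E i j * chX F K E i j) = ((chc K E i : ℝ) : ℂ) := by
  have hKpos : (0 : ℝ) < K := by exact_mod_cast hK
  rw [ch_mul]
  have h1 : ∀ k : Fin K, ∑ k' : Fin K, F.τ (F.φ (E i + k, j) * F.s (E i + k', j)) =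
      (((1 - ((16 : ℝ) ^ (E i + k + 1))⁻¹ : ℝ)) : ℂ) := by
    intro k
    rw [Finset.sum_eq_single k, phi_s, hN]
    · push_cast; rfl
    · intro k' _ hk'
      apply phi_s_ne
      intro he
      apply hk'
      have := congrArg Prod.fst he
      simp only at this
      exact Fin.ext (by omega)
    · intro h; exact absurd (Finset.mem_univ _) h
  simp only [h1]
  rw [← Complex.ofReal_sum, ← Complex.ofReal_mul]
  unfold chc
  congr 2
  rw [← Real.rpow_add hKpos, ← Real.rpow_neg_one]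
  norm_num

theorem ch_pair_ne (F : FPD A (ℕ × ℕ)) (K : ℕ) (E : ℕ → ℕ) (i j i' j' : ℕ)
    (h : i ≠ i' ∨ j ≠ j')
    (hE : i ≠ i' → ∀ k < K, ∀ k' < K, E i + k ≠ E i' + k') :
    F.τ (chF F K E i j * chX F K E i' j') = 0 := by
  rw [ch_mul]
  have h1 : ∀ k k' : Fin K, F.τ (F.φ (E i + k, j) * F.s (E i' + k', j')) = 0 := by
    intro k k'
    apply phi_s_ne
    intro he
    have e1 := congrArg Prod.fst he
    have e2 := congrArg Prod.snd he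
    simp only at e1 e2
    rcases h with h | h
    · exact hE h k k.2 k' k'.2 e1
    · exact h e2
  simp [h1]

theorem chF_one (F : FPD A (ℕ × ℕ)) (K : ℕ) (E : ℕ → ℕ) (i j : ℕ) :
    F.τ (chF F K E i j) = 0 := by
  unfold chF FPD.φ
  rw [map_smul, map_sum]
  simp [cen_tau']

theorem chX_one (F : FPD A (ℕ × ℕ)) (K : ℕ) (E : ℕ → ℕ) (i j : ℕ) :
    F.τ (chX F K E i j) = 0 := by
  unfold chX FPD.s
  rw [map_smul, map_sum]
  simp [cen_tau']

theorem chF_star (F : FPD A (ℕ × ℕ)) (K : ℕ) (E : ℕ → ℕ) (i j : ℕ) :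
    IsSelfAdjoint (chF F K E i j) := by
  unfold chF FPD.φ IsSelfAdjoint
  rw [star_smul, star_sum]
  simp only [star_smul, cen_star', Complex.star_def, Complex.conj_ofReal]

theorem chX_star (F : FPD A (ℕ × ℕ)) (K : ℕ) (E : ℕ → ℕ) (i j : ℕ) :
    IsSelfAdjoint (chX F K E i j) := by
  unfold chX FPD.s IsSelfAdjoint
  rw [star_smul, star_sum]
  simp only [star_smul, cen_star', Complex.star_def, Complex.conj_ofReal]

theorem sum_img {M : Type*} [AddCommMonoid M] (K m j : ℕ) (f : ℕ × ℕ → M) :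
    ∑ a ∈ (Finset.univ.image fun k : Fin K => (m + (k : ℕ), j)), f a =
      ∑ k : Fin K, f (m + k, j) := by
  rw [Finset.sum_image]
  intro x _ y _ h
  have := congrArg Prod.fst h
  simp only at this
  exact Fin.ext (by omega)

theorem chF_norm (F : FPD A (ℕ × ℕ)) (hN : ∀ i, F.N i = 16 ^ (i.1 + 1)) (K : ℕ) (hK : 1 ≤ K)
    (E : ℕ → ℕ) (i j : ℕ) : F.n4 (chF F K E i j) ≤ 3 := by
  have hKpos : (0 : ℝ) < K := by exact_mod_cast hK
  have hK1 : (1 : ℝ) ≤ K := by exact_mod_cast hK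
  set b : ℝ := (K : ℝ) ^ (-(1 / 4) : ℝ) with hb
  have hb0 : 0 ≤ b := by positivity
  have hb4 : b ^ 4 = (K : ℝ)⁻¹ := by
    rw [hb, ← Real.rpow_natCast, ← Real.rpow_mul hKpos.le, ← Real.rpow_neg_one]
    norm_num
  have hb1 : b ≤ 1 := by
    have h1 : b ^ 4 ≤ 1 := by rw [hb4]; exact inv_le_one_of_one_le₀ hK1
    exact (pow_le_one_iff_of_nonneg hb0 (by norm_num)).1 h1
  have h := F.fourth_real (Finset.univ.image fun k : Fin K => (E i + (k : ℕ), j)) (fun _ => b)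
  rw [sum_img, sum_img, sum_img] at h
  have e1 : ∑ k : Fin K, ((b : ℝ) : ℂ) • F.φ (E i + k, j) = chF F K E i j := by
    unfold chF
    rw [Finset.smul_sum]
  rw [e1] at h
  have e2 : ∑ _k : Fin K, b ^ 4 = 1 := by
    rw [Finset.sum_const, Finset.card_univ, Fintype.card_fin, nsmul_eq_mul, hb4,
      mul_inv_cancel₀ hKpos.ne']
  rw [e2] at h
  have e3 : ∑ k : Fin K, b ^ 2 * (F.N (E i + k, j) : ℝ) ^ (-(1 / 2) : ℝ) ≤ 1 / 3 := by
    have t1 : ∀ k : Fin K, b ^ 2 * (F.N (E i + k, j) : ℝ) ^ (-(1 / 2) : ℝ) ≤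
        (1 / 4) * (1 / 4 : ℝ) ^ (k : ℕ) := by
      intro k
      have t2 : (F.N (E i + k, j) : ℝ) ^ (-(1 / 2) : ℝ) = (1 / 4 : ℝ) ^ (E i + (k : ℕ) + 1) := by
        rw [hN]
        push_cast
        rw [← Real.rpow_natCast, ← Real.rpow_mul (by norm_num), mul_comm, Real.rpow_mul (by norm_num),
          Real.rpow_natCast]
        congr 1
        rw [show (16 : ℝ) = 4 ^ (2 : ℝ) by norm_num, ← Real.rpow_mul (by norm_num)]
        norm_num
      rw [t2]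
      have t3 : (1 / 4 : ℝ) ^ (E i + (k : ℕ) + 1) ≤ (1 / 4) * (1 / 4 : ℝ) ^ (k : ℕ) := by
        rw [pow_succ, pow_add, mul_comm]
        have : (1 / 4 : ℝ) ^ (E i) ≤ 1 := pow_le_one₀ (by norm_num) (by norm_num)
        have h0 : (0 : ℝ) ≤ (1 / 4 : ℝ) ^ (k : ℕ) := by positivity
        nlinarith
      have t4 : b ^ 2 ≤ 1 := pow_le_one₀ hb0 hb1
      calc b ^ 2 * (1 / 4 : ℝ) ^ (E i + (k : ℕ) + 1) ≤ 1 * (1 / 4 : ℝ) ^ (E i + (k : ℕ) + 1) :=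
            mul_le_mul_of_nonneg_right t4 (by positivity)
        _ ≤ _ := by rw [one_mul]; exact t3
    refine (Finset.sum_le_sum fun k _ => t1 k).trans ?_
    rw [← Finset.mul_sum, Fin.sum_univ_eq_sum_range (fun k => (1 / 4 : ℝ) ^ k) K,
      geom_sum_eq (by norm_num)]
    have hq : (0 : ℝ) ≤ (1 / 4 : ℝ) ^ K := by positivity
    have hq2 : (1 / 4 : ℝ) * (((1 / 4 : ℝ) ^ K - 1) / (1 / 4 - 1)) =
        1 / 3 - (1 / 3) * (1 / 4 : ℝ) ^ K := by ring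
    rw [hq2]
    linarith
  have e4 : 0 ≤ ∑ k : Fin K, b ^ 2 * (F.N (E i + k, j) : ℝ) ^ (-(1 / 2) : ℝ) :=
    Finset.sum_nonneg fun k _ => by positivity
  have e5 : F.n4 (chF F K E i j) ^ 4 ≤ 3 ^ 4 := by
    refine h.trans ?_
    nlinarith
  exact le_of_pow_le_pow_left₀ (by norm_num) (by norm_num) e5

theorem inner_le_aux (K : ℕ) (f : Fin K → ℝ) (hf : ∀ k, 0 ≤ f k) :
    (∑ k : Fin K, f k) ^ 4 ≤ (K : ℝ) ^ 3 * ∑ k : Fin K, f k ^ 4 := by
  have h1 : (∑ k : Fin K, f k) ^ 2 ≤ (K : ℝ) * ∑ k : Fin K, f k ^ 2 := by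
    have := sq_sum_le_card_mul_sum_sq (s := (Finset.univ : Finset (Fin K))) (f := f)
    simpa using this
  have h2 : (∑ k : Fin K, f k ^ 2) ^ 2 ≤ (K : ℝ) * ∑ k : Fin K, (f k ^ 2) ^ 2 := by
    have := sq_sum_le_card_mul_sum_sq (s := (Finset.univ : Finset (Fin K))) (f := fun k => f k ^ 2)
    simpa using this
  have h0 : 0 ≤ (∑ k : Fin K, f k) ^ 2 := by positivity
  calc (∑ k : Fin K, f k) ^ 4 = ((∑ k : Fin K, f k) ^ 2) ^ 2 := by ring
    _ ≤ ((K : ℝ) * ∑ k : Fin K, f k ^ 2) ^ 2 := pow_le_pow_left₀ h0 h1 2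
    _ = (K : ℝ) ^ 2 * (∑ k : Fin K, f k ^ 2) ^ 2 := by ring
    _ ≤ (K : ℝ) ^ 2 * ((K : ℝ) * ∑ k : Fin K, (f k ^ 2) ^ 2) :=
      mul_le_mul_of_nonneg_left h2 (by positivity)
    _ = (K : ℝ) ^ 3 * ∑ k : Fin K, f k ^ 4 := by
      rw [← mul_assoc]
      congr 1
      refine Finset.sum_congr rfl fun k _ => by ring

theorem chX_norm (F : FPD A (ℕ × ℕ)) (K : ℕ) (hK : 1 ≤ K)
    (E : ℕ → ℕ) (i j : ℕ) (z : A) : ‖F.τ (chX F K E i j * z)‖ ≤ 5 * F.n4 z := by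
  have hKpos : (0 : ℝ) < K := by exact_mod_cast hK
  set b : ℝ := (K : ℝ) ^ (-(3 / 4) : ℝ) with hb
  have hb0 : 0 ≤ b := by positivity
  have hb4 : b ^ 4 * (K : ℝ) ^ 3 = 1 := by
    rw [hb, ← Real.rpow_natCast, ← Real.rpow_mul hKpos.le, ← Real.rpow_natCast,
      ← Real.rpow_add hKpos]
    norm_num
  have hE1 := F.E1 (Finset.univ.image fun k : Fin K => (E i + (k : ℕ), j)) z
  rw [sum_img] at hE1
  have hx : F.τ (chX F K E i j * z) = ((b : ℝ) : ℂ) * ∑ k : Fin K, F.τ (F.s (E i + k, j) * z) := by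
    unfold chX
    rw [smul_mul_assoc, map_smul, Finset.sum_mul, map_sum, smul_eq_mul]
  have h1 : ‖F.τ (chX F K E i j * z)‖ ≤ b * ∑ k : Fin K, ‖F.τ (F.s (E i + k, j) * z)‖ := by
    rw [hx, norm_mul, Complex.norm_real, Real.norm_of_nonneg hb0]
    exact mul_le_mul_of_nonneg_left (norm_sum_le _ _) hb0
  have h2 := inner_le_aux K (fun k => ‖F.τ (F.s (E i + k, j) * z)‖) (fun _ => norm_nonneg _)
  have h3 : (b * ∑ k : Fin K, ‖F.τ (F.s (E i + k, j) * z)‖) ^ 4 ≤ (5 * F.n4 z) ^ 4 := by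
    rw [mul_pow]
    calc b ^ 4 * (∑ k : Fin K, ‖F.τ (F.s (E i + k, j) * z)‖) ^ 4 ≤
          b ^ 4 * ((K : ℝ) ^ 3 * ∑ k : Fin K, ‖F.τ (F.s (E i + k, j) * z)‖ ^ 4) :=
          mul_le_mul_of_nonneg_left h2 (by positivity)
      _ = ∑ k : Fin K, ‖F.τ (F.s (E i + k, j) * z)‖ ^ 4 := by rw [← mul_assoc, hb4, one_mul]
      _ ≤ 384 * F.n4 z ^ 4 := hE1
      _ ≤ (5 * F.n4 z) ^ 4 := by
        have : 0 ≤ F.n4 z ^ 4 := by positivity
        rw [mul_pow]; nlinarith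
  exact h1.trans (le_of_pow_le_pow_left₀ (by norm_num)
    (mul_nonneg (by norm_num) (F.n4_nonneg z)) h3)

end NCLp
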