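import Pool.Agent.NCLp.YOps
import Pool.Agent.NCLp.ChainCyc
import Pool.Agent.NCLp.ChainPair
import Pool.Agent.Helper86.NC.BlockDefs

open Filter Topology
open scoped ENNReal NNReal ComplexOrder ComplexConjugate

namespace NCLp

variable {A : Type} [CStarAlgebra A] [PartialOrder A] [StarOrderedRing A]

section sigma

variable {t : TrState A} (T : A →⋆ₐ[ℂ] A) (hT : ∀ x, t.τ (T x) = t.τ x)

include hT in
lemma n4_T (x : A) : t.n4 (T x) = t.n4 x := by
  unfold TrState.n4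
  rw [← map_star, ← map_mul, ← map_mul, hT]

include hT in
lemma n43_T (x : A) : t.n43 (T x) = t.n43 x := by
  unfold TrState.n43
  rw [← map_star, ← map_mul, ← starHom_rpow T _ (star_mul_self_nonneg x) _ (by norm_num), hT]

variable {Y : Type} [NormedAddCommGroup Y] [NormedSpace ℂ Y] [CompleteSpace Y] (D : YD t Y)
  {m : ℕ} (hm : 1 ≤ m) (hTm : ∀ x, T^[m] x = x)

include hT hm hTm in
theorem exists_sigma : ∃ σ : Y ≃ₗᵢ[ℂ] Y, (∀ x, σ (D.ι x) = D.ι (T x)) ∧ ∀ y, σ^[m] y = y := by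
  obtain ⟨S, hS⟩ := D.exists_ext (T : A →ₗ[ℂ] A) 1 (fun x => by
    rw [one_mul]; exact (n43_T T hT x).le)
  have hS' : ∀ x, S (D.ι x) = D.ι (T x) := hS
  have hnorm : ∀ y, ‖S y‖ = ‖y‖ := by
    refine D.dense_ind (p := fun y => ‖S y‖ = ‖y‖) (isClosed_eq (by fun_prop) (by fun_prop)) ?_
    intro x
    rw [hS', D.norm_ι, D.norm_ι, n43_T T hT]
  have hiter : ∀ (k : ℕ) (x : A), S^[k] (D.ι x) = D.ι (T^[k] x) := by
    intro k
    induction k with
    | zero => intro x; rfl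
    | succ k ih => intro x; rw [Function.iterate_succ_apply, hS', ih, Function.iterate_succ_apply]
  have hcont : ∀ k : ℕ, Continuous (S^[k]) := fun k => S.continuous.iterate k
  have hSm : ∀ y, S^[m] y = y := by
    refine D.dense_ind (p := fun y => S^[m] y = y) (isClosed_eq (hcont m) continuous_id) ?_
    intro x
    rw [hiter, hTm]
  have hsurj : Function.Surjective S := by
    intro y
    refine ⟨S^[m - 1] y, ?_⟩
    rw [← Function.iterate_succ_apply' (f := S), show (m - 1).succ = m by omega, hSm]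
  let S' : Y →ₗᵢ[ℂ] Y := ⟨S.toLinearMap, hnorm⟩
  refine ⟨LinearIsometryEquiv.ofSurjective S' hsurj, hS', hSm⟩

end sigma

section chain

variable (Φ : FPD A (ℕ × ℕ)) (T : A →⋆ₐ[ℂ] A) {m : ℕ}
  (hTP : ∀ s u, u < m → T (Φ.P (s, u)) = Φ.P (s, (u + 1) % m))
  (hN : ∀ i, Φ.N i = 16 ^ (i.1 + 1))

include hTP hN in
lemma T_cen (s u : ℕ) (hu : u < m) :
    T (cen Φ.N Φ.P (s, u)) = cen Φ.N Φ.P (s, (u + 1) % m) := by
  rw [cen, cen, map_sub, map_smul, map_one, hTP s u hu, hN, hN]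

include hTP hN in
lemma T_chF (K : ℕ) (E : ℕ → ℕ) (i j : ℕ) (hj : j < m) :
    T (chF Φ K E i j) = chF Φ K E i ((j + 1) % m) := by
  rw [chF, chF, map_smul, map_sum]
  congr 1
  apply Finset.sum_congr rfl
  intro k _
  rw [FPD.φ, FPD.φ, map_smul, T_cen Φ T hTP hN _ _ hj, hN, hN]

include hTP hN in
lemma T_chX (K : ℕ) (E : ℕ → ℕ) (i j : ℕ) (hj : j < m) :
    T (chX Φ K E i j) = chX Φ K E i ((j + 1) % m) := by
  rw [chX, chX, map_smul, map_sum]
  congr 1
  apply Finset.sum_congr rfl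
  intro k _
  rw [FPD.s, FPD.s, map_smul, T_cen Φ T hTP hN _ _ hj, hN, hN]

include hTP hN in
lemma T_chX_iter (K : ℕ) (E : ℕ → ℕ) (i j : ℕ) (hj : j < m) (a : ℕ) :
    T^[a] (chX Φ K E i j) = chX Φ K E i ((j + a) % m) := by
  induction a with
  | zero => simp [Nat.mod_eq_of_lt hj]
  | succ a ih =>
    rw [Function.iterate_succ_apply', ih, T_chX Φ T hTP hN _ _ _ _ (Nat.mod_lt _ (by omega))]
    congr 1
    rw [Nat.mod_add_mod, add_assoc]

end chain

end NCLp
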