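import Pool.Agent.NCLp.Real3

/-!
# The realisation theorem (helper990)
-/

set_option autoImplicit false

open Filter Topology
open scoped ENNReal NNReal ComplexOrder InnerProductSpace
open Pool.Agent.Helper86.NC (L2 delta permOp rho LG vnOf mem_vnOf permOp_apply permOp_star
  inner_delta mem_LG rho_star permOp_mul permOp_delta LG_tracial p43 Blk p43_toReal p43_ne_top)

namespace NCLp.Real

lemma absPow_four_thirds {H : Type*} [NormedAddCommGroup H] [InnerProductSpace ℂ H]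
    [CompleteSpace H] (x : H →L[ℂ] H) : absPow (4 / 3) x = (star x * x) ^ (2 / 3 : ℝ) := by
  unfold absPow
  norm_num

/-- weights on the disjoint union of the finite sets `Fin (R n)` -/
noncomputable def wt (R : ℕ → ℕ) (i : Σ n, Fin (R n)) : ℝ := (1 / 2 : ℝ) ^ (i.1 + 1) / R i.1

lemma wt_isWt (R : ℕ → ℕ) (hR : ∀ n, 1 ≤ R n) : Wt (wt R) := by
  have h0 : ∀ n, (0 : ℝ) < R n := fun n => by exact_mod_cast hR n
  have hpos : ∀ i, 0 < wt R i := fun i => by
    have := h0 i.1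
    unfold wt; positivity
  have h1 : HasSum (fun n : ℕ => (1 / 2 : ℝ) ^ (n + 1)) 1 := by
    have h := (hasSum_geometric_of_lt_one (r := (1 / 2 : ℝ)) (by norm_num) (by norm_num)).mul_left
      (1 / 2 : ℝ)
    have e : (fun n : ℕ => (1 / 2 : ℝ) ^ (n + 1)) = fun n => (1 / 2 : ℝ) * (1 / 2) ^ n := by
      funext n; rw [pow_succ]; ring
    rw [e]
    have e2 : (1 / 2 : ℝ) * (1 - 1 / 2)⁻¹ = 1 := by norm_num
    rw [e2] at h
    exact h
  have h2 : ∀ n, HasSum (fun r : Fin (R n) => wt R ⟨n, r⟩) ((1 / 2 : ℝ) ^ (n + 1)) := by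
    intro n
    have h := hasSum_fintype (fun r : Fin (R n) => wt R ⟨n, r⟩)
    have e : ∑ r : Fin (R n), wt R ⟨n, r⟩ = (1 / 2 : ℝ) ^ (n + 1) := by
      unfold wt
      simp only [Finset.sum_const, Finset.card_univ, Fintype.card_fin, nsmul_eq_mul]
      field_simp [(h0 n).ne']
    rwa [e] at h
  refine ⟨hpos, HasSum.sigma_of_hasSum h1 h2 ?_⟩
  rw [summable_sigma_of_nonneg fun i => (hpos i).le]
  refine ⟨fun n => (h2 n).summable, ?_⟩
  have e : (fun n => ∑' r : Fin (R n), wt R ⟨n, r⟩) = fun n : ℕ => (1 / 2 : ℝ) ^ (n + 1) := by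
    funext n; exact (h2 n).tsum_eq
  rw [e]
  exact h1.summable

/-- **Realisation.** The `ℓ^{4/3}`-sum of the blocks `ℓ^{4/3}(R n; Y)`, with
`Y = L^{4/3}(L(G))`, is the noncommutative `L^{4/3}`-space of a (finite) von Neumann algebra,
and its positive cone is the cone of sequences with entries in the positive cone `C` of `Y`. -/
theorem realise {G : Type} [Group G] [DecidableEq G] {Y : Type} [NormedAddCommGroup Y]
    [NormedSpace ℂ Y] (iY : (L2 G →L[ℂ] L2 G) → Y) (h : YInt iY) (C : Set Y)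
    (hC : C = closure (iY '' {x | x ∈ LG G ∧ 0 ≤ x})) (R : ℕ → ℕ) (hR : ∀ n, 1 ≤ R n) :
    ∃ (H : Type) (_ : NormedAddCommGroup H) (_ : InnerProductSpace ℂ H) (_ : CompleteSpace H)
      (M : VonNeumannAlgebra H) (τ : NSFTrace M)
      (ι : (H →L[ℂ] H) → lp (fun n => Blk Y (R n)) p43),
      IsLp τ (4 / 3) (lp (fun n => Blk Y (R n)) p43) ι ∧
      posCone τ (4 / 3) ι =
        {f : lp (fun n => Blk Y (R n)) p43 | ∀ n r, (f : ∀ n, Blk Y (R n)) n r ∈ C} := by
  subst hC
  exact ⟨_, _, _, inferInstance, MI (Σ n, Fin (R n)) G, trMI (wt_isWt R hR),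
    io (wt_isWt R hR) h, io_isLp _ h, io_posCone _ h⟩

end NCLp.Real
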