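import Pool.Agent.NCLp.BaseExists
import Pool.Agent.NCLp.Real4
import Pool.Agent.Helper86.NC.Assemble

set_option autoImplicit false
open Filter Topology
open scoped ENNReal NNReal InnerProductSpace
open Pool.Agent.Helper86.NC (L2 delta LG p43 Blk Cone Base assemble)

namespace NCLp

/-- **Disproof.** -/
theorem disproof : ∃ (H : Type) (_ : NormedAddCommGroup H) (_ : InnerProductSpace ℂ H)
    (_ : CompleteSpace H) (M : VonNeumannAlgebra H) (τ : NSFTrace M) (p : ℝ) (_ : 1 ≤ p)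
    (E : Type) (_ : NormedAddCommGroup E) (_ : NormedSpace ℂ E) (_ : CompleteSpace E)
    (ι : (H →L[ℂ] H) → E) (_ : IsLp τ p E ι) (S : C0Semigroup E),
    S.IndEvPos (posCone τ p ι) ∧ S.spectralBound < S.growthBound := by
  obtain ⟨G, hG, hdec, Y, nY, sY, cY, iY, C, u, tr, C0, h1, h2, h3, h4, h5, h6, h7, h8, h9, h10,
    h11, h12, h13, h14⟩ := base_exists
  obtain ⟨R, hR, S, hS1, hS2, hS3⟩ := assemble C u tr h9 h10 (fun f hf => by
    obtain ⟨a, ha, hfa⟩ := h11 f hf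
    exact ⟨a, ha, hfa, fun h0 => h12 f hf (by rw [hfa, h0]; simp)⟩) C0 h13 h14
  obtain ⟨H, nH, iH, cH, M, τ, ι, hι, hpos⟩ := Real.realise iY ⟨h1, h2, h3, h4⟩ C h5 R hR
  refine ⟨H, nH, iH, cH, M, τ, 4 / 3, by norm_num, _, _, _, inferInstance, ι, hι, S, ?_, ?_⟩
  · rw [hpos]; exact hS1
  · refine lt_of_le_of_lt hS2 (lt_of_lt_of_le ?_ hS3)
    exact_mod_cast Real.log_pos (by norm_num : (1 : ℝ) < 2)

end NCLp

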