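import Pool.Agent.NCLp.Basic

open Filter Topology
open scoped ENNReal NNReal ComplexOrder ComplexConjugate

namespace NCLp

variable {A : Type*} [CStarAlgebra A] [PartialOrder A] [StarOrderedRing A] {I : Type*}

/-- Index data of one step: sources `a l k`, targets `b l k` (`k < K`), the orders of the targets
of `l` are `16^(e l + 1), …, 16^(e l + K)`, the orders of the sources are much larger. -/
structure OneStep (F : FPD A I) (L : Type*) (K : ℕ) (Γ : ℝ) where
  a : L → Fin K → I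
  b : L → Fin K → I
  e : L → ℕ
  a_inj : Function.Injective (fun p : L × Fin K => a p.1 p.2)
  b_inj : Function.Injective (fun p : L × Fin K => b p.1 p.2)
  Nb : ∀ l k, F.N (b l k) = 16 ^ (e l + k + 1)
  Na : ∀ l k, Γ * K * ((16 : ℝ) ^ (e l + K)) ^ 3 ≤ F.N (a l k)

variable {F : FPD A I} {L : Type*} {K : ℕ} {Γ : ℝ}

/-- the target elements `x_l = K^{-3/4} ∑_k s_{b(l,k)}` -/
noncomputable def OneStep.X (O : OneStep F L K Γ) (l : L) : A :=
  (((K : ℝ) ^ (-(3 / 4) : ℝ) : ℝ) : ℂ) • ∑ k : Fin K, F.s (O.b l k)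

/-- the source elements `f_l = K^{-1/4} ∑_k φ_{a(l,k)}` -/
noncomputable def OneStep.f (O : OneStep F L K Γ) (l : L) : A :=
  (((K : ℝ) ^ (-(1 / 4) : ℝ) : ℝ) : ℂ) • ∑ k : Fin K, F.φ (O.a l k)

end NCLp
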