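import Pool.Agent.NCLp.OneStepDef
import Pool.Agent.NCLp.Fourth
import Pool.Agent.NCLp.BesselE
import Pool.Agent.NCLp.Dual

/-! ### THE JOB -/
open Filter Topology
open scoped ENNReal NNReal ComplexOrder ComplexConjugate

namespace NCLp

variable {A : Type*} [CStarAlgebra A] [PartialOrder A] [StarOrderedRing A]

variable {I : Type*} {F : FPD A I} {L : Type*} [Fintype L] {K : ℕ} {Γ : ℝ}

/-- pointwise inequality -/
theorem geom_ineq (K : ℕ) : ∀ (c : ℝ), 0 < c → ∀ (D q : Fin K → ℝ), (∀ k, 0 ≤ D k) →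
    (∀ k, 0 ≤ q k) →
    (∀ k, D k ≤ c * (1 / 2 : ℝ) ^ (k : ℕ)) → (∀ k, D k ≤ 3 * c⁻¹ * 2 ^ (k : ℕ) * q k) →
    (∑ k, D k ≤ 2 * c) ∧ (∑ k, D k) ^ 2 ≤ 9 * ∑ k, q k := by
  induction K with
  | zero =>
    intro c hc D q _ _ _ _
    simp
    exact hc.le
  | succ K ih =>
    intro c hc D q hD hq h1 h2
    have ih' := ih (c / 2) (by positivity) (fun k => D k.succ) (fun k => q k.succ)
      (fun k => hD _) (fun k => hq _) (fun k => by
        have := h1 k.succ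
        rw [Fin.val_succ, pow_succ] at this
        linarith) (fun k => by
        have := h2 k.succ
        rw [Fin.val_succ, pow_succ] at this
        have e : 3 * (c / 2)⁻¹ * 2 ^ (k : ℕ) * q k.succ
            = 3 * c⁻¹ * (2 ^ (k : ℕ) * 2) * q k.succ := by
          rw [inv_div]; ring
        rw [e]; exact this)
    rw [Fin.sum_univ_succ, Fin.sum_univ_succ]
    have a1 := h1 0
    have a2 := h2 0
    have a0 := hD 0
    have b0 := hq 0
    rw [Fin.val_zero, pow_zero, mul_one] at a1 a2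
    obtain ⟨i1, i2⟩ := ih'
    set s := ∑ k : Fin K, D k.succ with hs
    set Q := ∑ k : Fin K, q k.succ with hQ
    have s0 : 0 ≤ s := Finset.sum_nonneg fun k _ => hD _
    refine ⟨by linarith, ?_⟩
    have e : D 0 * (2 * s + D 0) ≤ (3 * c⁻¹ * q 0) * (3 * c) := by
      apply mul_le_mul a2 (by linarith) (by positivity) (by positivity)
    have e2 : (3 * c⁻¹ * q 0) * (3 * c) = 9 * q 0 := by
      field_simp
      ring
    nlinarith

/-- fourth moment bound for real combinations of the `f_l` -/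
theorem OneStep.fourth_real (O : OneStep F L K Γ) (S : Finset L) (r : L → ℝ) :
    F.n4 (∑ l ∈ S, ((r l : ℝ) : ℂ) • O.f l) ^ 4 ≤
      ∑ l ∈ S, r l ^ 4 +
        2 * (∑ l ∈ S, r l ^ 2 * ((K : ℝ) ^ (-(1 / 2) : ℝ) *
          ∑ k : Fin K, (F.N (O.a l k) : ℝ) ^ (-(1 / 2) : ℝ))) ^ 2 := by
  classical
  set g : L × Fin K → I := fun p => O.a p.1 p.2 with hg
  have ginj : Function.Injective g := O.a_inj
  set b : I → ℝ := Function.extend g (fun p => (K : ℝ) ^ (-(1 / 4) : ℝ) * r p.1) 0 with hb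
  have hbg : ∀ l k, b (O.a l k) = (K : ℝ) ^ (-(1 / 4) : ℝ) * r l := by
    intro l k
    exact ginj.extend_apply (fun p : L × Fin K => (K : ℝ) ^ (-(1 / 4) : ℝ) * r p.1) 0 (l, k)
  have h := FPD.fourth_real F ((S ×ˢ (Finset.univ : Finset (Fin K))).map ⟨g, ginj⟩) b
  rw [Finset.sum_map, Finset.sum_map, Finset.sum_map, Finset.sum_product, Finset.sum_product,
    Finset.sum_product] at h
  simp only [Function.Embedding.coeFn_mk, hg, hbg] at h
  have e1 : ∑ l ∈ S, ((r l : ℝ) : ℂ) • O.f l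
      = ∑ x ∈ S, ∑ y : Fin K, (((K : ℝ) ^ (-(1 / 4) : ℝ) * r x : ℝ) : ℂ) • F.φ (O.a x y) := by
    refine Finset.sum_congr rfl fun l _ => ?_
    rw [OneStep.f, smul_smul, Finset.smul_sum]
    refine Finset.sum_congr rfl fun k _ => ?_
    congr 1
    push_cast
    ring
  rw [← e1] at h
  refine h.trans (add_le_add ?_ ?_)
  · refine Finset.sum_le_sum fun l _ => ?_
    rw [Finset.sum_const, Finset.card_univ, Fintype.card_fin, nsmul_eq_mul, mul_pow]
    have h4 : ((K : ℝ) ^ (-(1 / 4) : ℝ)) ^ 4 = (K : ℝ)⁻¹ := by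
      rw [← Real.rpow_natCast, ← Real.rpow_mul (Nat.cast_nonneg _)]
      norm_num
      rw [Real.rpow_neg_one]
    rw [h4, ← mul_assoc]
    have h5 : (K : ℝ) * (K : ℝ)⁻¹ ≤ 1 := mul_inv_le_one
    have h6 : 0 ≤ r l ^ 4 := by positivity
    nlinarith
  · apply le_of_eq
    congr 2
    refine Finset.sum_congr rfl fun l _ => ?_
    rw [← Finset.mul_sum]
    have h2 : ((K : ℝ) ^ (-(1 / 4) : ℝ)) ^ 2 = (K : ℝ) ^ (-(1 / 2) : ℝ) := by
      rw [← Real.rpow_natCast, ← Real.rpow_mul (Nat.cast_nonneg _)]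
      norm_num
    rw [mul_pow, h2]
    ring

/-- the bounds on the numbers `d_l` -/
theorem real_b (K : ℕ) (_hK : 1 ≤ K) (w : ℝ) (hw : 0 < w) (hw4 : w ^ 4 = K) (e : ℕ)
    (p q : Fin K → ℝ) (hp : ∀ k, 0 ≤ p k) (hq : ∀ k, 0 ≤ q k)
    (h1 : ∀ k : Fin K, (((2 : ℝ) ^ (e + (k : ℕ) + 1)) ^ 4)⁻¹ - p k ≤
      3 * (((2 : ℝ) ^ (e + (k : ℕ) + 1)) ^ 2)⁻¹ * q k)
    (h2 : ∀ k : Fin K, |p k - (((2 : ℝ) ^ (e + (k : ℕ) + 1)) ^ 4)⁻¹| ≤ 3 * q k)
    (d : ℝ) (hd : d = (w ^ 3)⁻¹ * ∑ k : Fin K, ((2 : ℝ) ^ (e + (k : ℕ) + 1)) ^ 3 *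
      (p k - (((2 : ℝ) ^ (e + (k : ℕ) + 1)) ^ 4)⁻¹)) :
    (max (-d) 0) ^ 4 ≤ 81 * (w ^ 8)⁻¹ * ∑ k, q k ^ 2 ∧
    (max (-d) 0) ^ 2 ≤ 9 * (w ^ 2)⁻¹ * ((2 : ℝ) ^ (e + K)) ^ 2 * ∑ k, q k ^ 2 ∧
    d ^ 2 ≤ 9 * (w ^ 2)⁻¹ * ((2 : ℝ) ^ (e + K)) ^ 6 * ∑ k, q k ^ 2 := by
  set u : Fin K → ℝ := fun k => (2 : ℝ) ^ (e + (k : ℕ) + 1) with hu
  have upos : ∀ k, 0 < u k := fun k => by simp only [hu]; positivity
  set m : ℝ := (2 : ℝ) ^ (e + K) with hm
  have um : ∀ k, u k ≤ m := by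
    intro k
    simp only [hu, hm]
    exact pow_le_pow_right₀ (by norm_num) (by have := k.2; omega)
  have h1' : ∀ k, (u k ^ 4)⁻¹ - p k ≤ 3 * (u k ^ 2)⁻¹ * q k := h1
  have h2' : ∀ k, |p k - (u k ^ 4)⁻¹| ≤ 3 * q k := h2
  have hd' : d = (w ^ 3)⁻¹ * ∑ k : Fin K, u k ^ 3 * (p k - (u k ^ 4)⁻¹) := hd
  have cs : ∀ z : Fin K → ℝ, (∑ k, z k) ^ 2 ≤ w ^ 4 * ∑ k, z k ^ 2 := by
    intro z
    have := sq_sum_le_card_mul_sum_sq (s := (Finset.univ : Finset (Fin K))) (f := z)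
    rw [Finset.card_univ, Fintype.card_fin, ← hw4] at this
    exact this
  have Q0 : 0 ≤ ∑ k, q k ^ 2 := Finset.sum_nonneg fun k _ => by positivity
  set D : Fin K → ℝ := fun k => u k ^ 3 * max ((u k ^ 4)⁻¹ - p k) 0 with hD
  have D0 : ∀ k, 0 ≤ D k := fun k => mul_nonneg (pow_nonneg (upos k).le _) (le_max_right _ _)
  have D1 : ∀ k, D k ≤ (u k)⁻¹ := by
    intro k
    have hu0 := upos k
    have : max ((u k ^ 4)⁻¹ - p k) 0 ≤ (u k ^ 4)⁻¹ :=
      max_le (by linarith [hp k]) (by positivity)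
    calc D k ≤ u k ^ 3 * (u k ^ 4)⁻¹ := mul_le_mul_of_nonneg_left this (by positivity)
      _ = (u k)⁻¹ := by field_simp
  have D2 : ∀ k, D k ≤ 3 * u k * q k := by
    intro k
    have hu0 := upos k
    have : max ((u k ^ 4)⁻¹ - p k) 0 ≤ 3 * (u k ^ 2)⁻¹ * q k :=
      max_le (h1' k) (mul_nonneg (by positivity) (hq k))
    calc D k ≤ u k ^ 3 * (3 * (u k ^ 2)⁻¹ * q k) := mul_le_mul_of_nonneg_left this (by positivity)
      _ = 3 * u k * q k := by field_simp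
  have G := (geom_ineq K (((2 : ℝ) ^ (e + 1))⁻¹) (by positivity) D q D0 hq (fun k => by
      refine (D1 k).trans (le_of_eq ?_)
      simp only [hu]
      rw [show e + (k : ℕ) + 1 = (e + 1) + k by ring, pow_add, mul_inv, one_div, inv_pow])
      (fun k => by
      refine (D2 k).trans (le_of_eq ?_)
      simp only [hu]
      rw [show e + (k : ℕ) + 1 = (e + 1) + k by ring, pow_add (2 : ℝ) (e + 1) k, inv_inv]
      ring)).2
  have S0 : 0 ≤ ∑ k, D k := Finset.sum_nonneg fun k _ => D0 k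
  have dm : max (-d) 0 ≤ (w ^ 3)⁻¹ * ∑ k, D k := by
    apply max_le
    · rw [hd', ← mul_neg, ← Finset.sum_neg_distrib]
      apply mul_le_mul_of_nonneg_left _ (by positivity)
      refine Finset.sum_le_sum fun k _ => ?_
      rw [← mul_neg]
      apply mul_le_mul_of_nonneg_left _ (pow_nonneg (upos k).le _)
      rw [neg_sub]
      exact le_max_left _ _
    · positivity
  have dm0 : 0 ≤ max (-d) 0 := le_max_right _ _
  have dm2 : (max (-d) 0) ^ 2 ≤ (w ^ 6)⁻¹ * (∑ k, D k) ^ 2 := by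
    calc (max (-d) 0) ^ 2 ≤ ((w ^ 3)⁻¹ * ∑ k, D k) ^ 2 := pow_le_pow_left₀ dm0 dm 2
      _ = _ := by rw [mul_pow, inv_pow, ← pow_mul]
  refine ⟨?_, ?_, ?_⟩
  · have a1 : (max (-d) 0) ^ 2 ≤ (w ^ 6)⁻¹ * (9 * ∑ k, q k) :=
      dm2.trans (mul_le_mul_of_nonneg_left G (by positivity))
    calc (max (-d) 0) ^ 4 = ((max (-d) 0) ^ 2) ^ 2 := by ring
      _ ≤ ((w ^ 6)⁻¹ * (9 * ∑ k, q k)) ^ 2 := pow_le_pow_left₀ (by positivity) a1 2
      _ = 81 * (w ^ 12)⁻¹ * (∑ k, q k) ^ 2 := by field_simp; ring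
      _ ≤ 81 * (w ^ 12)⁻¹ * (w ^ 4 * ∑ k, q k ^ 2) :=
        mul_le_mul_of_nonneg_left (cs q) (by positivity)
      _ = _ := by field_simp
  · calc (max (-d) 0) ^ 2 ≤ (w ^ 6)⁻¹ * (∑ k, D k) ^ 2 := dm2
      _ ≤ (w ^ 6)⁻¹ * (w ^ 4 * ∑ k, D k ^ 2) :=
        mul_le_mul_of_nonneg_left (cs D) (by positivity)
      _ ≤ (w ^ 6)⁻¹ * (w ^ 4 * ∑ k, (9 * m ^ 2) * q k ^ 2) := by
        apply mul_le_mul_of_nonneg_left _ (by positivity)
        apply mul_le_mul_of_nonneg_left _ (by positivity)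
        refine Finset.sum_le_sum fun k _ => ?_
        calc D k ^ 2 ≤ (3 * u k * q k) ^ 2 := pow_le_pow_left₀ (D0 k) (D2 k) 2
          _ = 9 * u k ^ 2 * q k ^ 2 := by ring
          _ ≤ 9 * m ^ 2 * q k ^ 2 := by
            apply mul_le_mul_of_nonneg_right _ (by positivity)
            apply mul_le_mul_of_nonneg_left _ (by positivity)
            exact pow_le_pow_left₀ (upos k).le (um k) 2
      _ = _ := by
        rw [← Finset.mul_sum]
        field_simp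
  · calc d ^ 2 = (w ^ 6)⁻¹ * (∑ k : Fin K, u k ^ 3 * (p k - (u k ^ 4)⁻¹)) ^ 2 := by
          rw [hd', mul_pow, inv_pow, ← pow_mul]
      _ ≤ (w ^ 6)⁻¹ * (w ^ 4 * ∑ k : Fin K, (u k ^ 3 * (p k - (u k ^ 4)⁻¹)) ^ 2) :=
        mul_le_mul_of_nonneg_left (cs _) (by positivity)
      _ ≤ (w ^ 6)⁻¹ * (w ^ 4 * ∑ k, (9 * m ^ 6) * q k ^ 2) := by
        apply mul_le_mul_of_nonneg_left _ (by positivity)
        apply mul_le_mul_of_nonneg_left _ (by positivity)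
        refine Finset.sum_le_sum fun k _ => ?_
        have b1 : (p k - (u k ^ 4)⁻¹) ^ 2 ≤ (3 * q k) ^ 2 := by
          rw [← sq_abs]
          exact pow_le_pow_left₀ (abs_nonneg _) (h2' k) 2
        calc (u k ^ 3 * (p k - (u k ^ 4)⁻¹)) ^ 2 = u k ^ 6 * (p k - (u k ^ 4)⁻¹) ^ 2 := by ring
          _ ≤ m ^ 6 * (3 * q k) ^ 2 :=
            mul_le_mul (pow_le_pow_left₀ (upos k).le (um k) 6) b1 (by positivity) (by positivity)
          _ = _ := by ring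
      _ = _ := by
        rw [← Finset.mul_sum]
        field_simp

omit [Fintype L] in
/-- abstract form of the final estimate -/
theorem neg_real [Fintype L] (c d : L → ℝ) (w γ Y : ℝ) (m Qs be : L → ℝ) (n4 : (L → ℝ) → ℝ)
    (hw : 1 ≤ w) (hγ : w ≤ γ) (hY : 0 ≤ Y) (hm : ∀ l, 1 ≤ m l)
    (hQ : ∀ l, 0 ≤ Qs l) (hQ1 : ∑ l, Qs l ≤ 1)
    (hbe0 : ∀ l, 0 ≤ be l) (hbe : ∀ l, be l * m l ^ 6 ≤ (γ ^ 2)⁻¹)
    (d1 : ∀ l, (max (-d l) 0) ^ 4 ≤ 81 * (w ^ 8)⁻¹ * Qs l)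
    (d2 : ∀ l, (max (-d l) 0) ^ 2 ≤ 9 * (w ^ 2)⁻¹ * m l ^ 2 * Qs l)
    (d3 : ∀ l, d l ^ 2 ≤ 9 * (w ^ 2)⁻¹ * m l ^ 6 * Qs l)
    (cm : ∀ l, m l ^ 9 * max (-c l) 0 ≤ (γ ^ 3)⁻¹ * Y)
    (fourth : ∀ r : L → ℝ, n4 r ^ 4 ≤ ∑ l, r l ^ 4 + 2 * (∑ l, r l ^ 2 * be l) ^ 2)
    (hold : ∀ r : L → ℝ, ∑ l, r l * c l ≤ n4 r * Y)
    (hold' : ∀ r : L → ℝ, -∑ l, r l * c l ≤ n4 r * Y) :
    0 ≤ ∑ l, c l * d l + (4 * (w ^ 2)⁻¹ + 5 * γ⁻¹) * Y := by
  have w0 : 0 < w := by linarith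
  have γ0 : 0 < γ := by linarith
  have hcd : ∀ l, -(max (c l) 0 * max (-d l) 0) - max (-c l) 0 * |d l| ≤ c l * d l := by
    intro l
    rcases le_total 0 (c l) with h | h
    · rw [max_eq_left h, max_eq_right (by linarith : -c l ≤ 0)]
      have := le_max_left (-d l) 0
      nlinarith
    · rw [max_eq_right h, max_eq_left (by linarith : 0 ≤ -c l)]
      have := le_abs_self (d l)
      nlinarith
  -- TERM 1
  have T1 : ∑ l, max (c l) 0 * max (-d l) 0 ≤ 4 * (w ^ 2)⁻¹ * Y := by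
    set r : L → ℝ := fun l => if 0 < c l then max (-d l) 0 else 0 with hr
    have e : ∑ l, max (c l) 0 * max (-d l) 0 = ∑ l, r l * c l := by
      refine Finset.sum_congr rfl fun l _ => ?_
      simp only [hr]
      split_ifs with h
      · rw [max_eq_left h.le]; ring
      · rw [max_eq_right (not_lt.1 h)]; ring
    rw [e]
    refine (hold r).trans (mul_le_mul_of_nonneg_right ?_ hY)
    have r4 : ∀ l, r l ^ 4 ≤ 81 * (w ^ 8)⁻¹ * Qs l := by
      intro l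
      simp only [hr]
      split_ifs
      · exact d1 l
      · have := hQ l
        rw [zero_pow (by norm_num)]; positivity
    have r2 : ∀ l, r l ^ 2 ≤ 9 * (w ^ 2)⁻¹ * m l ^ 2 * Qs l := by
      intro l
      simp only [hr]
      split_ifs
      · exact d2 l
      · have := hQ l
        rw [zero_pow (by norm_num)]; positivity
    have s4 : ∑ l, r l ^ 4 ≤ 81 * (w ^ 8)⁻¹ := by
      calc ∑ l, r l ^ 4 ≤ ∑ l, 81 * (w ^ 8)⁻¹ * Qs l := Finset.sum_le_sum fun l _ => r4 l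
        _ = 81 * (w ^ 8)⁻¹ * ∑ l, Qs l := by rw [Finset.mul_sum]
        _ ≤ 81 * (w ^ 8)⁻¹ * 1 := mul_le_mul_of_nonneg_left hQ1 (by positivity)
        _ = _ := by ring
    have s2 : ∑ l, r l ^ 2 * be l ≤ 9 * (w ^ 2)⁻¹ * (γ ^ 2)⁻¹ := by
      calc ∑ l, r l ^ 2 * be l ≤ ∑ l, 9 * (w ^ 2)⁻¹ * (γ ^ 2)⁻¹ * Qs l := by
            refine Finset.sum_le_sum fun l _ => ?_
            have m0 : 0 < m l := by linarith [hm l]
            have hq := hQ l
            have b0 := hbe0 l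
            have m26 : m l ^ 2 ≤ m l ^ 6 := pow_le_pow_right₀ (hm l) (by norm_num)
            calc r l ^ 2 * be l ≤ (9 * (w ^ 2)⁻¹ * m l ^ 2 * Qs l) * be l :=
                  mul_le_mul_of_nonneg_right (r2 l) b0
              _ = 9 * (w ^ 2)⁻¹ * Qs l * (be l * m l ^ 2) := by ring
              _ ≤ 9 * (w ^ 2)⁻¹ * Qs l * (be l * m l ^ 6) := by
                  apply mul_le_mul_of_nonneg_left _ (by positivity)
                  exact mul_le_mul_of_nonneg_left m26 b0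
              _ ≤ 9 * (w ^ 2)⁻¹ * Qs l * (γ ^ 2)⁻¹ :=
                  mul_le_mul_of_nonneg_left (hbe l) (by positivity)
              _ = _ := by ring
        _ = 9 * (w ^ 2)⁻¹ * (γ ^ 2)⁻¹ * ∑ l, Qs l := by rw [Finset.mul_sum]
        _ ≤ 9 * (w ^ 2)⁻¹ * (γ ^ 2)⁻¹ * 1 := mul_le_mul_of_nonneg_left hQ1 (by positivity)
        _ = _ := by ring
    have s20 : 0 ≤ ∑ l, r l ^ 2 * be l :=
      Finset.sum_nonneg fun l _ => mul_nonneg (by positivity) (hbe0 l)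
    have wγ : (γ ^ 2)⁻¹ ≤ (w ^ 2)⁻¹ :=
      inv_anti₀ (by positivity) (pow_le_pow_left₀ w0.le hγ 2)
    have f4 : n4 r ^ 4 ≤ (4 * (w ^ 2)⁻¹) ^ 4 := by
      refine (fourth r).trans ?_
      have s22 : (∑ l, r l ^ 2 * be l) ^ 2 ≤ (9 * (w ^ 2)⁻¹ * (w ^ 2)⁻¹) ^ 2 := by
        apply pow_le_pow_left₀ s20
        exact s2.trans (mul_le_mul_of_nonneg_left wγ (by positivity))
      have e8 : (w ^ 8)⁻¹ = ((w ^ 2)⁻¹) ^ 4 := by rw [← inv_pow, ← inv_pow, ← pow_mul]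
      rw [e8] at s4
      have : 0 ≤ ((w ^ 2)⁻¹) ^ 4 := by positivity
      nlinarith
    exact le_of_pow_le_pow_left₀ (by norm_num) (by positivity) f4
  -- TERM 2
  have T2 : ∑ l, max (-c l) 0 * |d l| ≤ 5 * γ⁻¹ * Y := by
    set X : ℝ := ∑ l, m l ^ 6 * (max (-c l) 0) ^ 2 with hX
    have X0 : 0 ≤ X := Finset.sum_nonneg fun l _ => by
      have := hm l
      positivity
    have T0 : 0 ≤ ∑ l, max (-c l) 0 * |d l| :=
      Finset.sum_nonneg fun l _ => mul_nonneg (le_max_right _ _) (abs_nonneg _)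
    have CS : (∑ l, max (-c l) 0 * |d l|) ^ 2 ≤ X * 9 := by
      have h := Finset.sum_mul_sq_le_sq_mul_sq Finset.univ
        (fun l => m l ^ 3 * max (-c l) 0) (fun l => |d l| * (m l ^ 3)⁻¹)
      have e1 : ∀ l, (m l ^ 3 * max (-c l) 0) * (|d l| * (m l ^ 3)⁻¹)
          = max (-c l) 0 * |d l| := by
        intro l
        have m0 : m l ≠ 0 := by linarith [hm l]
        field_simp
      simp only [e1] at h
      have e2 : ∑ l, (m l ^ 3 * max (-c l) 0) ^ 2 = X := by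
        refine Finset.sum_congr rfl fun l _ => ?_
        ring
      have e3 : ∑ l, (|d l| * (m l ^ 3)⁻¹) ^ 2 ≤ 9 := by
        calc ∑ l, (|d l| * (m l ^ 3)⁻¹) ^ 2 ≤ ∑ l, 9 * Qs l := by
              refine Finset.sum_le_sum fun l _ => ?_
              have m0 : 0 < m l := by linarith [hm l]
              have hq := hQ l
              have w1 : (w ^ 2)⁻¹ ≤ 1 := inv_le_one_of_one_le₀ (one_le_pow₀ hw)
              calc (|d l| * (m l ^ 3)⁻¹) ^ 2 = d l ^ 2 * (m l ^ 6)⁻¹ := by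
                    rw [mul_pow, sq_abs, inv_pow, ← pow_mul]
                _ ≤ (9 * (w ^ 2)⁻¹ * m l ^ 6 * Qs l) * (m l ^ 6)⁻¹ :=
                    mul_le_mul_of_nonneg_right (d3 l) (by positivity)
                _ = 9 * (w ^ 2)⁻¹ * Qs l := by field_simp
                _ ≤ 9 * 1 * Qs l := by
                    apply mul_le_mul_of_nonneg_right _ hq
                    exact mul_le_mul_of_nonneg_left w1 (by norm_num)
                _ = _ := by ring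
          _ = 9 * ∑ l, Qs l := by rw [Finset.mul_sum]
          _ ≤ 9 * 1 := mul_le_mul_of_nonneg_left hQ1 (by positivity)
          _ = _ := by ring
      rw [e2] at h
      exact h.trans (mul_le_mul_of_nonneg_left e3 X0)
    set r : L → ℝ := fun l => m l ^ 6 * max (-c l) 0 with hr
    have hXr : X = -∑ l, r l * c l := by
      rw [hX, ← Finset.sum_neg_distrib]
      refine Finset.sum_congr rfl fun l _ => ?_
      simp only [hr]
      rcases le_total 0 (c l) with h | h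
      · rw [max_eq_right (by linarith : -c l ≤ 0)]; ring
      · rw [max_eq_left (by linarith : 0 ≤ -c l)]; ring
    have hX1 : X ≤ n4 r * Y := by rw [hXr]; exact hold' r
    set g : ℝ := (γ ^ 2)⁻¹ with hg
    have g0 : 0 < g := by positivity
    have r4 : ∑ l, r l ^ 4 ≤ g ^ 3 * Y ^ 2 * X := by
      rw [hX, Finset.mul_sum]
      refine Finset.sum_le_sum fun l _ => ?_
      have m0 : 0 < m l := by linarith [hm l]
      have c0 : 0 ≤ max (-c l) 0 := le_max_right _ _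
      have h2 : (m l ^ 9 * max (-c l) 0) ^ 2 ≤ ((γ ^ 3)⁻¹ * Y) ^ 2 :=
        pow_le_pow_left₀ (by positivity) (cm l) 2
      have e3 : ((γ ^ 3)⁻¹ * Y) ^ 2 = g ^ 3 * Y ^ 2 := by
        rw [mul_pow, hg, inv_pow, inv_pow, ← pow_mul, ← pow_mul]
      rw [e3] at h2
      calc r l ^ 4 = (m l ^ 9 * max (-c l) 0) ^ 2 * (m l ^ 6 * (max (-c l) 0) ^ 2) := by
            simp only [hr]; ring
        _ ≤ _ := mul_le_mul_of_nonneg_right h2 (by positivity)
    have r2 : ∑ l, r l ^ 2 * be l ≤ g * X := by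
      rw [hX, Finset.mul_sum]
      refine Finset.sum_le_sum fun l _ => ?_
      have m0 : 0 < m l := by linarith [hm l]
      calc r l ^ 2 * be l = (be l * m l ^ 6) * (m l ^ 6 * (max (-c l) 0) ^ 2) := by
            simp only [hr]; ring
        _ ≤ _ := mul_le_mul_of_nonneg_right (hbe l) (by positivity)
    have s20 : 0 ≤ ∑ l, r l ^ 2 * be l :=
      Finset.sum_nonneg fun l _ => mul_nonneg (by positivity) (hbe0 l)
    have hX4 : X ^ 4 ≤ (g ^ 3 * Y ^ 2 * X + 2 * (g * X) ^ 2) * Y ^ 4 := by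
      calc X ^ 4 ≤ (n4 r * Y) ^ 4 := pow_le_pow_left₀ X0 hX1 4
        _ = n4 r ^ 4 * Y ^ 4 := by ring
        _ ≤ _ := by
          apply mul_le_mul_of_nonneg_right _ (by positivity)
          refine (fourth r).trans (add_le_add r4 ?_)
          exact mul_le_mul_of_nonneg_left (pow_le_pow_left₀ s20 r2 2) (by norm_num)
    have hX2 : X ≤ 2 * (g * Y ^ 2) := by
      by_contra hcon
      push Not at hcon
      set G : ℝ := g * Y ^ 2 with hG
      have G0 : 0 ≤ G := by positivity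
      have Xp : 0 < X := by linarith
      have e5 : (g ^ 3 * Y ^ 2 * X + 2 * (g * X) ^ 2) * Y ^ 4 = G ^ 3 * X + 2 * G ^ 2 * X ^ 2 := by
        rw [hG]; ring
      rw [e5] at hX4
      have hG2 : G ≤ X / 2 := by linarith
      have a3 : G ^ 3 ≤ (X / 2) ^ 3 := pow_le_pow_left₀ G0 hG2 3
      have a2 : G ^ 2 ≤ (X / 2) ^ 2 := pow_le_pow_left₀ G0 hG2 2
      have a4 : G ^ 3 * X ≤ (X / 2) ^ 3 * X := mul_le_mul_of_nonneg_right a3 Xp.le
      have a5 : G ^ 2 * X ^ 2 ≤ (X / 2) ^ 2 * X ^ 2 := mul_le_mul_of_nonneg_right a2 (by positivity)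
      have : 0 < X ^ 4 := by positivity
      nlinarith
    have fin : (∑ l, max (-c l) 0 * |d l|) ^ 2 ≤ (5 * γ⁻¹ * Y) ^ 2 := by
      refine CS.trans ?_
      have e6 : (5 * γ⁻¹ * Y) ^ 2 = 25 * (g * Y ^ 2) := by
        rw [hg, mul_pow, mul_pow, inv_pow]; ring
      rw [e6]
      have : 0 ≤ g * Y ^ 2 := by positivity
      linarith
    exact le_of_pow_le_pow_left₀ (by norm_num) (by positivity) fin
  have S : ∑ l, (-(max (c l) 0 * max (-d l) 0) - max (-c l) 0 * |d l|) ≤ ∑ l, c l * d l :=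
    Finset.sum_le_sum fun l _ => hcd l
  rw [Finset.sum_sub_distrib, Finset.sum_neg_distrib] at S
  nlinarith

theorem FPD.P_nonneg (F : FPD A I) (i : I) : 0 ≤ F.P i := by
  have h := star_mul_self_nonneg (F.P i)
  rwa [F.P_star, F.P_idem] at h

theorem FPD.cen_sa2 (F : FPD A I) (i : I) : IsSelfAdjoint (cen F.N F.P i) := by
  rw [IsSelfAdjoint, cen, star_sub, F.P_star, star_smul, star_one, Complex.star_def,
    Complex.conj_ofReal]

theorem real_smul_sa {x : A} (hx : IsSelfAdjoint x) (r : ℝ) :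
    IsSelfAdjoint (((r : ℝ) : ℂ) • x) := by
  rw [IsSelfAdjoint, star_smul, hx.star_eq, Complex.star_def, Complex.conj_ofReal]

theorem sum_sa {ι : Type*} (s : Finset ι) (f : ι → A) (h : ∀ i ∈ s, IsSelfAdjoint (f i)) :
    IsSelfAdjoint (∑ i ∈ s, f i) := by
  rw [IsSelfAdjoint, star_sum]
  exact Finset.sum_congr rfl fun i hi => (h i hi).star_eq

omit [Fintype L] in
theorem OneStep.X_sa (O : OneStep F L K Γ) (l : L) : IsSelfAdjoint (O.X l) :=
  real_smul_sa (sum_sa _ _ fun k _ => real_smul_sa (F.cen_sa2 _) _) _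

omit [Fintype L] in
theorem OneStep.f_sa (O : OneStep F L K Γ) (l : L) : IsSelfAdjoint (O.f l) :=
  real_smul_sa (sum_sa _ _ fun k _ => real_smul_sa (F.cen_sa2 _) _) _

theorem psi_smul (φ : A →ₗ[ℝ] ℝ) (r : ℝ) (x : A) : φ (((r : ℝ) : ℂ) • x) = r * φ x := by
  have : ((r : ℝ) : ℂ) • x = r • x := rfl
  rw [this, map_smul, smul_eq_mul]

theorem tau_smul_re (t : TrState A) (r : ℝ) (x : A) :
    (t.τ (((r : ℝ) : ℂ) • x)).re = r * (t.τ x).re := by
  rw [map_smul, smul_eq_mul, Complex.re_ofReal_mul]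

theorem sqrt_inv_four (u : ℝ) (hu : 0 < u) : Real.sqrt ((u ^ 4)⁻¹) = (u ^ 2)⁻¹ := by
  rw [show (u ^ 4)⁻¹ = ((u ^ 2)⁻¹) ^ 2 by rw [inv_pow, ← pow_mul]]
  exact Real.sqrt_sq (by positivity)

theorem four_rpow_three (z : ℝ) (hz : 0 < z) : (z ^ 4) ^ (-(3 / 4) : ℝ) = (z ^ 3)⁻¹ := by
  rw [← Real.rpow_natCast, ← Real.rpow_mul hz.le, ← Real.rpow_natCast, ← Real.rpow_neg hz.le]
  norm_num

/-- almost positivity of the operator `y ↦ ∑ τ(f_l y) x_l` -/
theorem OneStep.neg (O : OneStep F L K Γ) (hK : 1 ≤ K) (hΓ : (K : ℝ) ≤ Γ) (y : A) (hy : 0 ≤ y) :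
    0 ≤ ∑ l : L, F.τ (O.f l * y) • O.X l +
      ((((4 * (K : ℝ) ^ (-(1 / 2) : ℝ) + 5 * Γ ^ (-(1 / 4) : ℝ)) * F.n43 y : ℝ)) : ℂ) •
        (1 : A) := by
  have hysa : IsSelfAdjoint y := IsSelfAdjoint.of_nonneg hy
  have hK1 : (1 : ℝ) ≤ K := by exact_mod_cast hK
  have hK0 : (0 : ℝ) ≤ K := by linarith
  have hΓ0 : (0 : ℝ) ≤ Γ := by linarith
  obtain ⟨w, hw⟩ : ∃ w : ℝ, w = (K : ℝ) ^ (1 / 4 : ℝ) := ⟨_, rfl⟩
  obtain ⟨γ, hγ⟩ : ∃ γ : ℝ, γ = Γ ^ (1 / 4 : ℝ) := ⟨_, rfl⟩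
  have w1 : 1 ≤ w := by rw [hw]; exact Real.one_le_rpow hK1 (by norm_num)
  have wγ : w ≤ γ := by rw [hw, hγ]; exact Real.rpow_le_rpow hK0 hΓ (by norm_num)
  have w0 : 0 < w := by linarith
  have γ0 : 0 < γ := by linarith
  have w4 : w ^ 4 = K := by
    rw [hw, ← Real.rpow_natCast, ← Real.rpow_mul hK0]; norm_num
  have γ4 : γ ^ 4 = Γ := by
    rw [hγ, ← Real.rpow_natCast, ← Real.rpow_mul hΓ0]; norm_num
  have wa : (K : ℝ) ^ (-(1 / 2) : ℝ) = (w ^ 2)⁻¹ := by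
    rw [← w4, ← Real.rpow_natCast, ← Real.rpow_mul w0.le, ← Real.rpow_natCast, 
      ← Real.rpow_neg w0.le]
    norm_num
  have wb : (K : ℝ) ^ (-(3 / 4) : ℝ) = (w ^ 3)⁻¹ := by
    rw [← w4, ← Real.rpow_natCast, ← Real.rpow_mul w0.le, ← Real.rpow_natCast,
      ← Real.rpow_neg w0.le]
    norm_num
  have wc : (K : ℝ) ^ (-(1 / 4) : ℝ) = w⁻¹ := by
    rw [← w4, ← Real.rpow_natCast, ← Real.rpow_mul w0.le]
    norm_num
    rw [Real.rpow_neg_one]
  have γa : Γ ^ (-(1 / 4) : ℝ) = γ⁻¹ := by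
    rw [← γ4, ← Real.rpow_natCast, ← Real.rpow_mul γ0.le]
    norm_num
    rw [Real.rpow_neg_one]
  obtain ⟨Y, hYdef⟩ : ∃ Y : ℝ, Y = F.n43 y := ⟨_, rfl⟩
  have hτ1 : ‖F.τ y‖ ≤ Y := by
    have := F.toTrState.holder 1 y
    rwa [one_mul, F.toTrState.n4_one, one_mul, ← hYdef] at this
  have hY : 0 ≤ Y := (norm_nonneg _).trans hτ1
  obtain ⟨c, hc⟩ : ∃ c : L → ℝ, ∀ l, F.τ (O.f l * y) = ((c l : ℝ) : ℂ) :=
    ⟨fun l => (F.τ (O.f l * y)).re, fun l => F.toTrState.tau_mul_real (O.f_sa l) hysa⟩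
  rw [wa, γa, ← hYdef]
  simp only [hc]
  apply F.nonneg_of_ψ
  · refine IsSelfAdjoint.add (sum_sa _ _ fun l _ => real_smul_sa (O.X_sa l) _) ?_
    exact real_smul_sa (IsSelfAdjoint.one A) _
  intro ξ
  rw [map_add, psi_smul, F.ψ_one, mul_one, map_sum]
  simp only [psi_smul]
  obtain ⟨q, q0, q1, q2, q3⟩ := F.pp ξ
  have hp : ∀ i, 0 ≤ F.ψ ξ (F.P i) := fun i => F.ψ_nonneg ξ _ (F.P_nonneg i)
  obtain ⟨m, hm⟩ : ∃ m : L → ℝ, ∀ l, m l = (2 : ℝ) ^ (O.e l + K) := ⟨_, fun l => rfl⟩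
  have m1 : ∀ l, 1 ≤ m l := fun l => by rw [hm]; exact one_le_pow₀ (by norm_num)
  -- the numbers d_l
  have hNb : ∀ l k, (F.N (O.b l k) : ℝ) = ((2 : ℝ) ^ (O.e l + (k : ℕ) + 1)) ^ 4 := by
    intro l k
    rw [O.Nb]
    push_cast
    rw [← pow_mul, mul_comm, pow_mul]
    norm_num
  have hd : ∀ l, F.ψ ξ (O.X l) = (w ^ 3)⁻¹ * ∑ k : Fin K,
      ((2 : ℝ) ^ (O.e l + (k : ℕ) + 1)) ^ 3 *
        (F.ψ ξ (F.P (O.b l k)) - (((2 : ℝ) ^ (O.e l + (k : ℕ) + 1)) ^ 4)⁻¹) := by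
    intro l
    rw [OneStep.X, psi_smul, wb, map_sum]
    congr 1
    refine Finset.sum_congr rfl fun k _ => ?_
    rw [FPD.s, psi_smul, cen, map_sub, psi_smul, F.ψ_one, mul_one, hNb]
    congr 1
    rw [← Real.rpow_natCast _ 4, ← Real.rpow_mul (by positivity), ← Real.rpow_natCast _ 3]
    norm_num
  have B := fun l => real_b K hK w w0 w4 (O.e l) (fun k => F.ψ ξ (F.P (O.b l k)))
    (fun k => q (O.b l k)) (fun k => hp _) (fun k => q0 _) (fun k => by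
      have := q2 (O.b l k)
      rw [hNb, sqrt_inv_four _ (by positivity)] at this
      exact this) (fun k => by
      have := q3 (O.b l k)
      rw [hNb] at this
      exact this) (F.ψ ξ (O.X l)) (hd l)
  -- the numbers N a
  have hNa : ∀ l k, (γ * w * m l ^ 3) ^ 4 ≤ (F.N (O.a l k) : ℝ) := by
    intro l k
    refine le_trans (le_of_eq ?_) (O.Na l k)
    rw [hm, mul_pow, mul_pow, γ4, w4]
    congr 1
    rw [show (16 : ℝ) = 2 ^ 4 by norm_num, ← pow_mul, ← pow_mul, ← pow_mul, ← pow_mul]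
    congr 1
    ring
  have z0 : ∀ l, 0 < γ * w * m l ^ 3 := fun l => by
    have := m1 l
    positivity
  -- be
  obtain ⟨be, hbe⟩ : ∃ be : L → ℝ, ∀ l, be l = (w ^ 2)⁻¹ *
      ∑ k : Fin K, (F.N (O.a l k) : ℝ) ^ (-(1 / 2) : ℝ) := ⟨_, fun l => rfl⟩
  have be0 : ∀ l, 0 ≤ be l := fun l => by
    rw [hbe]
    exact mul_nonneg (by positivity) (Finset.sum_nonneg fun k _ => by positivity)
  have be1 : ∀ l, be l * m l ^ 6 ≤ (γ ^ 2)⁻¹ := by
    intro l
    have m0 : 0 < m l := by linarith [m1 l]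
    have h : ∀ k, (F.N (O.a l k) : ℝ) ^ (-(1 / 2) : ℝ) ≤ ((γ * w * m l ^ 3) ^ 2)⁻¹ := by
      intro k
      calc (F.N (O.a l k) : ℝ) ^ (-(1 / 2) : ℝ)
          ≤ ((γ * w * m l ^ 3) ^ 4) ^ (-(1 / 2) : ℝ) :=
            Real.rpow_le_rpow_of_nonpos (by have := z0 l; positivity) (hNa l k) (by norm_num)
        _ = ((γ * w * m l ^ 3) ^ 2)⁻¹ := by
            rw [← Real.rpow_natCast _ 4, ← Real.rpow_mul (z0 l).le, ← Real.rpow_natCast _ 2,
              ← Real.rpow_neg (z0 l).le]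
            norm_num
    calc be l * m l ^ 6 ≤ ((w ^ 2)⁻¹ * ∑ k : Fin K, ((γ * w * m l ^ 3) ^ 2)⁻¹) * m l ^ 6 := by
          rw [hbe]
          apply mul_le_mul_of_nonneg_right _ (by positivity)
          apply mul_le_mul_of_nonneg_left _ (by positivity)
          exact Finset.sum_le_sum fun k _ => h k
      _ = (γ ^ 2)⁻¹ := by
          rw [Finset.sum_const, Finset.card_univ, Fintype.card_fin, nsmul_eq_mul, ← w4]
          field_simp
  -- c
  have cexp : ∀ l, c l = w⁻¹ * ∑ k : Fin K, (F.N (O.a l k) : ℝ) ^ (1 / 4 : ℝ) *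
      ((F.τ (F.P (O.a l k) * y)).re - ((F.N (O.a l k) : ℝ))⁻¹ * (F.τ y).re) := by
    intro l
    have h1 : c l = (F.τ (O.f l * y)).re := by rw [hc, Complex.ofReal_re]
    rw [h1, OneStep.f, smul_mul_assoc, tau_smul_re F.toTrState, wc, Finset.sum_mul, map_sum,
      Complex.re_sum]
    congr 1
    refine Finset.sum_congr rfl fun k _ => ?_
    rw [FPD.φ, smul_mul_assoc, tau_smul_re F.toTrState, cen, sub_mul, smul_mul_assoc, one_mul,
      map_sub, Complex.sub_re, tau_smul_re F.toTrState]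
  have cm : ∀ l, m l ^ 9 * max (-c l) 0 ≤ (γ ^ 3)⁻¹ * Y := by
    intro l
    have m0 : 0 < m l := by linarith [m1 l]
    have hle : -c l ≤ (γ ^ 3 * m l ^ 9)⁻¹ * Y := by
      rw [cexp, ← mul_neg, ← Finset.sum_neg_distrib]
      calc w⁻¹ * ∑ k : Fin K, -((F.N (O.a l k) : ℝ) ^ (1 / 4 : ℝ) *
            ((F.τ (F.P (O.a l k) * y)).re - ((F.N (O.a l k) : ℝ))⁻¹ * (F.τ y).re))
          ≤ w⁻¹ * ∑ k : Fin K, ((γ * w * m l ^ 3) ^ 3)⁻¹ * Y := by
            apply mul_le_mul_of_nonneg_left _ (by positivity)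
            refine Finset.sum_le_sum fun k _ => ?_
            have N0 : 0 < (F.N (O.a l k) : ℝ) :=
              lt_of_lt_of_le (by have := z0 l; positivity) (hNa l k)
            have τ0 : 0 ≤ (F.τ (F.P (O.a l k) * y)).re :=
              (Complex.le_def.1 (F.toTrState.mul_nonneg' (F.P_nonneg _) hy)).1
            have τY : (F.τ y).re ≤ Y := (Complex.re_le_norm _).trans hτ1
            have hN : (F.N (O.a l k) : ℝ) ^ (1 / 4 : ℝ) * ((F.N (O.a l k) : ℝ))⁻¹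
                ≤ ((γ * w * m l ^ 3) ^ 3)⁻¹ := by
              calc (F.N (O.a l k) : ℝ) ^ (1 / 4 : ℝ) * ((F.N (O.a l k) : ℝ))⁻¹
                  = (F.N (O.a l k) : ℝ) ^ (-(3 / 4) : ℝ) := by
                    rw [← Real.rpow_neg_one, ← Real.rpow_add N0]; norm_num
                _ ≤ ((γ * w * m l ^ 3) ^ 4) ^ (-(3 / 4) : ℝ) :=
                    Real.rpow_le_rpow_of_nonpos (by have := z0 l; positivity) (hNa l k)
                      (by norm_num)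
                _ = ((γ * w * m l ^ 3) ^ 3)⁻¹ := by
                    exact four_rpow_three _ (z0 l)
            have Nq : 0 ≤ (F.N (O.a l k) : ℝ) ^ (1 / 4 : ℝ) := by positivity
            have e1 : -((F.N (O.a l k) : ℝ) ^ (1 / 4 : ℝ) *
                ((F.τ (F.P (O.a l k) * y)).re - ((F.N (O.a l k) : ℝ))⁻¹ * (F.τ y).re))
                = ((F.N (O.a l k) : ℝ) ^ (1 / 4 : ℝ) * ((F.N (O.a l k) : ℝ))⁻¹) * (F.τ y).re
                  - (F.N (O.a l k) : ℝ) ^ (1 / 4 : ℝ) * (F.τ (F.P (O.a l k) * y)).re := by ring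
            rw [e1]
            have i1 : 0 ≤ (F.N (O.a l k) : ℝ) ^ (1 / 4 : ℝ) *
              (F.τ (F.P (O.a l k) * y)).re := mul_nonneg Nq τ0
            have i2 : ((F.N (O.a l k) : ℝ) ^ (1 / 4 : ℝ) * ((F.N (O.a l k) : ℝ))⁻¹) *
                (F.τ y).re ≤ ((γ * w * m l ^ 3) ^ 3)⁻¹ * Y :=
              mul_le_mul hN τY (Complex.le_def.1 (F.toTrState.tau_nonneg hy)).1
                (by have := z0 l; positivity)
            linarith
        _ = (γ ^ 3 * m l ^ 9)⁻¹ * Y := by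
            rw [Finset.sum_const, Finset.card_univ, Fintype.card_fin, nsmul_eq_mul, ← w4]
            field_simp
    have hmax : max (-c l) 0 ≤ (γ ^ 3 * m l ^ 9)⁻¹ * Y := max_le hle (by positivity)
    calc m l ^ 9 * max (-c l) 0 ≤ m l ^ 9 * ((γ ^ 3 * m l ^ 9)⁻¹ * Y) :=
          mul_le_mul_of_nonneg_left hmax (by positivity)
      _ = _ := by field_simp
  -- assemble
  have hold : ∀ r : L → ℝ, |∑ l, r l * c l| ≤
      F.n4 (∑ l : L, ((r l : ℝ) : ℂ) • O.f l) * Y := by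
    intro r
    have h := F.toTrState.holder (∑ l : L, ((r l : ℝ) : ℂ) • O.f l) y
    rw [← hYdef, Finset.sum_mul, map_sum] at h
    simp only [smul_mul_assoc, map_smul, hc, smul_eq_mul] at h
    have e : ∑ l, ((r l : ℝ) : ℂ) * ((c l : ℝ) : ℂ) = (((∑ l, r l * c l : ℝ)) : ℂ) := by
      push_cast; rfl
    rw [e, Complex.norm_real, Real.norm_eq_abs] at h
    exact h
  refine neg_real c (fun l => F.ψ ξ (O.X l)) w γ Y m (fun l => ∑ k, q (O.b l k) ^ 2) be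
    (fun r => F.n4 (∑ l : L, ((r l : ℝ) : ℂ) • O.f l)) w1 wγ hY m1
    (fun l => Finset.sum_nonneg fun k _ => by positivity) ?_ be0 be1
    (fun l => (B l).1) (fun l => ?_) (fun l => ?_) cm ?_
    (fun r => (le_abs_self _).trans (hold r)) (fun r => (neg_le_abs _).trans (hold r))
  · have h := q1 (Finset.univ.map ⟨fun p : L × Fin K => O.b p.1 p.2, O.b_inj⟩)
    rw [Finset.sum_map] at h
    simp only [Function.Embedding.coeFn_mk] at h
    rw [← Finset.univ_product_univ, Finset.sum_product] at h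
    exact h
  · rw [hm]; exact (B l).2.1
  · rw [hm]; exact (B l).2.2
  · intro r
    have h := O.fourth_real Finset.univ r
    simp only [wa, ← hbe] at h
    exact h

end NCLp
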