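import Pool.Agent.Helper86.NC.LGBasic
import Pool.Agent.NCLp.Comm
import Pool.Agent.NCLp.Defs

/-!
# The von Neumann algebra `ℓ^∞(I) ⊗ L(G)` on `ℓ²(I × G)` (helper990)
-/

set_option autoImplicit false

open Filter Topology
open scoped ENNReal NNReal ComplexOrder InnerProductSpace
open Pool.Agent.Helper86.NC (L2 delta permOp rho LG vnOf mem_vnOf permOp_apply permOp_star
  inner_delta mem_LG rho_star permOp_mul permOp_delta LG_tracial)

namespace NCLp.Real

variable {G : Type} {I : Type}

lemma memlp_res (i : I) (F : L2 (I × G)) : Memℓp (fun g => (F : I × G → ℂ) (i, g)) 2 := by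
  have h := lp.memℓp F
  rw [memℓp_gen_iff (by norm_num)] at h ⊢
  exact h.comp_injective (i := fun g : G => (i, g)) (Prod.mk_right_injective i)

/-- restriction to the `i`-th coordinate space -/
noncomputable def res (i : I) : L2 (I × G) →L[ℂ] L2 G :=
  LinearMap.mkContinuous
    { toFun := fun F => ⟨fun g => (F : I × G → ℂ) (i, g), memlp_res i F⟩
      map_add' := fun F F' => by ext; rfl
      map_smul' := fun c F => by ext; rfl } 1 (fun F => by
    rw [one_mul]
    refine lp.norm_le_of_tsum_le (by norm_num) (norm_nonneg _) ?_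
    rw [lp.norm_rpow_eq_tsum (by norm_num) F]
    have h := lp.memℓp F
    rw [memℓp_gen_iff (by norm_num)] at h
    exact Summable.tsum_le_tsum_of_inj (fun g : G => (i, g)) (Prod.mk_right_injective i)
      (fun _ _ => by positivity) (fun _ => le_rfl)
      (h.comp_injective (i := fun g : G => (i, g)) (Prod.mk_right_injective i)) h)

lemma res_apply (i : I) (F : L2 (I × G)) (g : G) :
    (res i F : G → ℂ) g = (F : I × G → ℂ) (i, g) := rfl

/-- the inclusion of the `i`-th coordinate space -/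
noncomputable def emb (i : I) : L2 G →L[ℂ] L2 (I × G) := ContinuousLinearMap.adjoint (res i)

lemma emb_apply [DecidableEq I] (i j : I) (f : L2 G) (g : G) :
    (emb i f : I × G → ℂ) (j, g) = if j = i then (f : G → ℂ) g else 0 := by
  classical
  have h1 : (emb i f : I × G → ℂ) (j, g) = ⟪res i (delta (j, g)), f⟫_ℂ := by
    rw [← inner_delta, emb, ContinuousLinearMap.adjoint_inner_right]
  have h2 : res i (delta (j, g)) = if j = i then delta g else (0 : L2 G) := by
    ext k
    rw [res_apply]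
    unfold delta
    rw [lp.single_apply, Pi.single_apply]
    split_ifs with h3 h4 h4
    · obtain ⟨rfl, rfl⟩ := Prod.mk.inj h3
      rw [lp.single_apply, Pi.single_eq_same]
    · exact absurd (Prod.mk.inj h3).1.symm h4
    · rw [lp.single_apply, Pi.single_apply, if_neg]
      intro h5; exact h3 (by rw [h4, h5])
    · rfl
  rw [h1, h2]
  split_ifs with h
  · rw [inner_delta]
  · rw [inner_zero_left]

lemma res_emb (i : I) : (res i : L2 (I × G) →L[ℂ] L2 G) ∘L emb i = 1 := by
  classical
  ext f g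
  change (res i (emb i f) : G → ℂ) g = (f : G → ℂ) g
  rw [res_apply, emb_apply, if_pos rfl]

lemma res_emb_apply (i : I) (f : L2 G) : res i (emb i f) = f :=
  DFunLike.congr_fun (res_emb i) f

lemma res_emb_ne {i j : I} (h : j ≠ i) (f : L2 G) : res j (emb i f) = 0 := by
  classical
  ext g
  rw [res_apply, emb_apply, if_neg h]; rfl

lemma adjoint_emb (i : I) : ContinuousLinearMap.adjoint (emb i : L2 G →L[ℂ] L2 (I × G)) = res i :=
  ContinuousLinearMap.adjoint_adjoint _

lemma norm_res_le (i : I) : ‖(res i : L2 (I × G) →L[ℂ] L2 G)‖ ≤ 1 :=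
  LinearMap.mkContinuous_norm_le _ zero_le_one _

lemma norm_emb_le (i : I) : ‖(emb i : L2 G →L[ℂ] L2 (I × G))‖ ≤ 1 := by
  rw [emb, LinearIsometryEquiv.norm_map]; exact norm_res_le i

/-- the coordinate projection -/
noncomputable def cproj (i : I) : L2 (I × G) →L[ℂ] L2 (I × G) := emb i ∘L res i

lemma cproj_star (i : I) : star (cproj i : L2 (I × G) →L[ℂ] L2 (I × G)) = cproj i := by
  rw [ContinuousLinearMap.star_eq_adjoint, cproj, ContinuousLinearMap.adjoint_comp, adjoint_emb,
    emb]

set_option linter.unusedSectionVars false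

section grp

variable [Group G]

/-- right translation on `ℓ²(I × G)` -/
noncomputable def rhoI (I : Type) (g : G) : L2 (I × G) →L[ℂ] L2 (I × G) :=
  permOp (Equiv.prodCongr (Equiv.refl I) (Equiv.mulRight g))

lemma rhoI_star (g : G) : star (rhoI I g) = rhoI I g⁻¹ := by
  unfold rhoI
  rw [permOp_star]
  congr 1
  ext k <;> simp

lemma res_rhoI (i : I) (g : G) : res i ∘L rhoI I g = rho g ∘L res i := by
  ext F k
  rfl

lemma rhoI_emb (i : I) (g : G) : rhoI I g ∘L emb i = emb i ∘L rho g := by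
  have h := congrArg ContinuousLinearMap.adjoint (res_rhoI i g⁻¹)
  rw [ContinuousLinearMap.adjoint_comp, ContinuousLinearMap.adjoint_comp] at h
  have h1 : ContinuousLinearMap.adjoint (rhoI I g⁻¹) = rhoI I g := by
    rw [← ContinuousLinearMap.star_eq_adjoint, rhoI_star, inv_inv]
  have h2 : ContinuousLinearMap.adjoint (rho g⁻¹) = rho g := by
    rw [← ContinuousLinearMap.star_eq_adjoint, rho_star, inv_inv]
  rw [h1, h2] at h
  exact h

/-- the von Neumann algebra `ℓ^∞(I) ⊗ L(G)` on `ℓ²(I × G)`: the operators commuting with the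
right translations and with the coordinate projections -/
noncomputable def MI (I G : Type) [Group G] : VonNeumannAlgebra (L2 (I × G)) :=
  vnOf (Set.range (rhoI I) ∪ Set.range cproj)

lemma mem_MI {x : L2 (I × G) →L[ℂ] L2 (I × G)} :
    x ∈ MI I G ↔ (∀ g, rhoI I g * x = x * rhoI I g) ∧ ∀ i, cproj i * x = x * cproj i := by
  unfold MI
  rw [mem_vnOf]
  constructor
  · intro h
    exact ⟨fun g => (h _ (Or.inl ⟨g, rfl⟩)).1, fun i => (h _ (Or.inr ⟨i, rfl⟩)).1⟩
  · rintro ⟨h1, h2⟩ y (⟨g, rfl⟩ | ⟨i, rfl⟩)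
    · rw [rhoI_star]; exact ⟨h1 g, h1 _⟩
    · rw [cproj_star]; exact ⟨h2 i, h2 i⟩

/-- the `i`-th component of an operator -/
noncomputable def comp (i : I) (x : L2 (I × G) →L[ℂ] L2 (I × G)) : L2 G →L[ℂ] L2 G :=
  res i ∘L x ∘L emb i

lemma comp_mem {x : L2 (I × G) →L[ℂ] L2 (I × G)} (hx : x ∈ MI I G) (i : I) :
    comp i x ∈ LG G := by
  rw [mem_LG]
  intro g
  have h := (mem_MI.1 hx).1 g
  calc rho g * comp i x = (rho g ∘L res i) ∘L x ∘L emb i := rfl
    _ = res i ∘L (rhoI I g * x) ∘L emb i := by rw [← res_rhoI]; rfl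
    _ = res i ∘L x ∘L (rhoI I g ∘L emb i) := by rw [h]; rfl
    _ = comp i x * rho g := by rw [rhoI_emb]; rfl

lemma comp_add (i : I) (x y : L2 (I × G) →L[ℂ] L2 (I × G)) :
    comp i (x + y) = comp i x + comp i y := by
  ext f g; simp [comp]

lemma comp_smul (i : I) (c : ℂ) (x : L2 (I × G) →L[ℂ] L2 (I × G)) :
    comp i (c • x) = c • comp i x := by
  ext f g; simp [comp]

lemma comp_one (i : I) : comp i (1 : L2 (I × G) →L[ℂ] L2 (I × G)) = (1 : L2 G →L[ℂ] L2 G) :=
  res_emb i

lemma comp_star (i : I) (x : L2 (I × G) →L[ℂ] L2 (I × G)) :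
    comp i (star x) = star (comp i x) := by
  rw [ContinuousLinearMap.star_eq_adjoint, ContinuousLinearMap.star_eq_adjoint, comp, comp,
    ContinuousLinearMap.adjoint_comp, ContinuousLinearMap.adjoint_comp, adjoint_emb,
    ContinuousLinearMap.comp_assoc]
  rfl

lemma norm_comp_le (i : I) (x : L2 (I × G) →L[ℂ] L2 (I × G)) : ‖comp i x‖ ≤ ‖x‖ := by
  calc ‖comp i x‖ ≤ ‖(res i : L2 (I × G) →L[ℂ] L2 G)‖ * (‖x‖ * ‖(emb i : L2 G →L[ℂ] L2 (I × G))‖) :=
        (ContinuousLinearMap.opNorm_comp_le _ _).trans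
          (mul_le_mul_of_nonneg_left (ContinuousLinearMap.opNorm_comp_le _ _) (norm_nonneg _))
    _ ≤ 1 * (‖x‖ * 1) := by
        gcongr
        · exact norm_res_le i
        · exact norm_emb_le i
    _ = ‖x‖ := by ring

/-- elements of `MI` preserve the coordinate spaces -/
lemma apply_emb {x : L2 (I × G) →L[ℂ] L2 (I × G)} (hx : x ∈ MI I G) (i : I) (f : L2 G) :
    x (emb i f) = emb i (comp i x f) := by
  have h := DFunLike.congr_fun ((mem_MI.1 hx).2 i) (emb i f)
  have h1 : (cproj i * x : L2 (I × G) →L[ℂ] L2 (I × G)) (emb i f) = emb i (comp i x f) := rfl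
  have h2 : (x * cproj i : L2 (I × G) →L[ℂ] L2 (I × G)) (emb i f) =
    x (emb i (res i (emb i f))) := rfl
  rw [h1, h2, res_emb_apply] at h
  exact h.symm

lemma comp_mul {x y : L2 (I × G) →L[ℂ] L2 (I × G)} (hy : y ∈ MI I G) (i : I) :
    comp i (x * y) = comp i x * comp i y := by
  ext1 f
  change res i (x (y (emb i f))) = res i (x (emb i (comp i y f)))
  rw [apply_emb hy]

/-- the `i`-th component as a star homomorphism on `MI` -/
noncomputable def compHom (i : I) : (MI I G).toStarSubalgebra →⋆ₐ[ℂ] (L2 G →L[ℂ] L2 G) where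
  toFun x := comp i x
  map_one' := comp_one i
  map_mul' x y := comp_mul y.2 i
  map_zero' := by ext f g; simp [comp]
  map_add' x y := comp_add i _ _
  commutes' c := by
    have : ((algebraMap ℂ (MI I G).toStarSubalgebra c : (MI I G).toStarSubalgebra) :
        L2 (I × G) →L[ℂ] L2 (I × G)) = c • 1 := by
      rw [Algebra.algebraMap_eq_smul_one]; rfl
    rw [this, comp_smul, comp_one, Algebra.algebraMap_eq_smul_one]
  map_star' x := comp_star i _

end grp

end NCLp.Real
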