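import Pool.Agent.NCLp.Real1

/-!
# The trace on `ℓ^∞(I) ⊗ L(G)` (helper990)
-/

set_option autoImplicit false

open Filter Topology
open scoped ENNReal NNReal ComplexOrder InnerProductSpace
open Pool.Agent.Helper86.NC (L2 delta permOp rho LG vnOf mem_vnOf permOp_apply permOp_star
  inner_delta mem_LG rho_star permOp_mul permOp_delta LG_tracial)

namespace NCLp

/-- For a positive operator `T ≤ x`: `‖T ξ‖² ≤ ‖x‖ * re ⟪ξ, T ξ⟫`. -/
private theorem vn_norm_sq_le {H : Type*} [NormedAddCommGroup H] [InnerProductSpace ℂ H]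
    [CompleteSpace H] (T x : H →L[ℂ] H) (h0 : 0 ≤ T) (hx : T ≤ x) (ξ : H) :
    ‖T ξ‖ ^ 2 ≤ ‖x‖ * (⟪ξ, T ξ⟫_ℂ).re := by
  have hn : ‖T‖ ≤ ‖x‖ := CStarAlgebra.norm_le_norm_of_nonneg_of_le h0 hx
  obtain ⟨b, rfl⟩ := CStarAlgebra.nonneg_iff_eq_star_mul_self.mp h0
  have hb : ‖star b * b‖ = ‖b‖ * ‖b‖ := CStarRing.norm_star_mul_self
  have h1 : (⟪ξ, (star b * b) ξ⟫_ℂ).re = ‖b ξ‖ ^ 2 := by
    rw [ContinuousLinearMap.mul_apply, ContinuousLinearMap.star_eq_adjoint,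
      ContinuousLinearMap.adjoint_inner_right]
    have := inner_self_eq_norm_sq (𝕜 := ℂ) (b ξ)
    simpa using this
  have h2 : ‖(star b * b) ξ‖ ≤ ‖b‖ * ‖b ξ‖ := by
    rw [ContinuousLinearMap.mul_apply]
    calc ‖(star b) (b ξ)‖ ≤ ‖star b‖ * ‖b ξ‖ := (star b).le_opNorm _
      _ = ‖b‖ * ‖b ξ‖ := by rw [norm_star]
  rw [h1]
  have h3 : ‖(star b * b) ξ‖ ^ 2 ≤ (‖b‖ * ‖b ξ‖) ^ 2 :=
    pow_le_pow_left₀ (norm_nonneg _) h2 2
  have h4 : (‖b‖ * ‖b ξ‖) ^ 2 = ‖star b * b‖ * ‖b ξ‖ ^ 2 := by rw [hb]; ring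
  rw [h4] at h3
  exact h3.trans (mul_le_mul_of_nonneg_right hn (by positivity))

private theorem vn_mono {H : Type*} [NormedAddCommGroup H] [InnerProductSpace ℂ H]
    {a b : H →L[ℂ] H} (h : a ≤ b) (ξ : H) :
    (⟪ξ, a ξ⟫_ℂ).re ≤ (⟪ξ, b ξ⟫_ℂ).re := by
  rw [ContinuousLinearMap.le_def] at h
  have h1 := h.inner_nonneg_right ξ
  have h2 : (⟪ξ, (b - a) ξ⟫_ℂ) = ⟪ξ, b ξ⟫_ℂ - ⟪ξ, a ξ⟫_ℂ := by
    rw [ContinuousLinearMap.sub_apply, inner_sub_right]
  rw [h2] at h1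
  have h3 := (Complex.le_def.mp h1).1
  simp at h3
  linarith

/-- Vector functionals are normal: they preserve suprema of directed sets of positive operators. -/
theorem vector_normal {H : Type*} [NormedAddCommGroup H] [InnerProductSpace ℂ H] [CompleteSpace H]
    (D : Set (H →L[ℂ] H)) (x : H →L[ℂ] H) (hne : D.Nonempty) (hdir : DirectedOn (· ≤ ·) D)
    (hpos : ∀ d ∈ D, 0 ≤ d) (hx : IsLUB D x) (Ω : H) :
    ENNReal.ofReal (⟪Ω, x Ω⟫_ℂ).re = ⨆ d ∈ D, ENNReal.ofReal (⟪Ω, d Ω⟫_ℂ).re := by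
  classical
  haveI : Nonempty D := hne.to_subtype
  haveI : IsDirectedOrder D := hdir.isDirectedOrder
  -- the net `d ξ` is Cauchy
  have hcauchy : ∀ ξ : H, Cauchy (map (fun d : D => (d : H →L[ℂ] H) ξ) atTop) := by
    intro ξ
    rw [Metric.cauchy_iff]
    refine ⟨inferInstance, fun ε hε => ?_⟩
    have hbdd : BddAbove (Set.range fun d : D => (⟪ξ, (d : H →L[ℂ] H) ξ⟫_ℂ).re) := by
      refine ⟨(⟪ξ, x ξ⟫_ℂ).re, ?_⟩
      rintro _ ⟨d, rfl⟩
      exact vn_mono (hx.1 d.2) ξ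
    set s := ⨆ d : D, (⟪ξ, (d : H →L[ℂ] H) ξ⟫_ℂ).re with hs
    set δ : ℝ := (ε / 4) ^ 2 / (‖x‖ + 1) with hδ
    have hxpos : 0 < ‖x‖ + 1 := by positivity
    have hδpos : 0 < δ := by positivity
    obtain ⟨d0, hd0⟩ := exists_lt_of_lt_ciSup (show s - δ < s by linarith)
    have key : ∀ d : D, d0 ≤ d → ‖(d : H →L[ℂ] H) ξ - (d0 : H →L[ℂ] H) ξ‖ ≤ ε / 4 := by
      intro d hd
      have hd' : (d0 : H →L[ℂ] H) ≤ d := hd
      have hT0 : 0 ≤ (d : H →L[ℂ] H) - d0 := sub_nonneg.mpr hd'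
      have hTx : (d : H →L[ℂ] H) - d0 ≤ x :=
        (sub_le_self _ (hpos d0 d0.2)).trans (hx.1 d.2)
      have h1 := vn_norm_sq_le _ x hT0 hTx ξ
      rw [ContinuousLinearMap.sub_apply, inner_sub_right, Complex.sub_re] at h1
      have h2 : (⟪ξ, (d : H →L[ℂ] H) ξ⟫_ℂ).re ≤ s := le_ciSup hbdd d
      have h3 : ‖x‖ * ((⟪ξ, (d : H →L[ℂ] H) ξ⟫_ℂ).re - (⟪ξ, (d0 : H →L[ℂ] H) ξ⟫_ℂ).re)
          ≤ ‖x‖ * δ := by
        apply mul_le_mul_of_nonneg_left _ (norm_nonneg _)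
        linarith
      have h4 : ‖x‖ * δ ≤ (ε / 4) ^ 2 := by
        rw [hδ]
        rw [mul_div_assoc', div_le_iff₀ hxpos]
        nlinarith [sq_nonneg (ε / 4), norm_nonneg x]
      exact le_of_sq_le_sq (h1.trans (h3.trans h4)) (by positivity)
    refine ⟨(fun d : D => (d : H →L[ℂ] H) ξ) '' Set.Ici d0, ?_, ?_⟩
    · exact image_mem_map (Ici_mem_atTop d0)
    · rintro _ ⟨d, hd, rfl⟩ _ ⟨e, he, rfl⟩
      have h1 := key d hd
      have h2 := key e he
      calc dist ((d : H →L[ℂ] H) ξ) ((e : H →L[ℂ] H) ξ)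
          ≤ dist ((d : H →L[ℂ] H) ξ) ((d0 : H →L[ℂ] H) ξ)
            + dist ((e : H →L[ℂ] H) ξ) ((d0 : H →L[ℂ] H) ξ) := dist_triangle_right _ _ _
        _ ≤ ε / 4 + ε / 4 := by rw [dist_eq_norm, dist_eq_norm]; exact add_le_add h1 h2
        _ < ε := by linarith
  choose f hf using fun ξ => cauchy_iff_exists_le_nhds.mp (hcauchy ξ)
  have hft : Tendsto (fun (d : D) (ξ : H) => (d : H →L[ℂ] H) ξ) atTop (𝓝 f) :=
    tendsto_pi_nhds.mpr fun ξ => hf ξ
  have hbd : Bornology.IsBounded (Set.range fun d : D => (d : H →L[ℂ] H)) := by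
    rw [isBounded_iff_forall_norm_le]
    refine ⟨‖x‖, ?_⟩
    rintro _ ⟨d, rfl⟩
    exact CStarAlgebra.norm_le_norm_of_nonneg_of_le (hpos d d.2) (hx.1 d.2)
  let y : H →L[ℂ] H :=
    ContinuousLinearMap.ofTendstoOfBoundedRange f (fun d : D => (d : H →L[ℂ] H)) hft hbd
  have hy : ∀ ξ, Tendsto (fun d : D => (d : H →L[ℂ] H) ξ) atTop (𝓝 (y ξ)) := fun ξ => hf ξ
  have hub : y ∈ upperBounds D := by
    intro d hd
    rw [ContinuousLinearMap.le_def, ContinuousLinearMap.isPositive_iff_complex]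
    have h0 : ∀ ξ : H, (0 : ℂ) ≤ ⟪(y - d) ξ, ξ⟫_ℂ := by
      intro ξ
      have ht : Tendsto (fun e : D => ⟪((e : H →L[ℂ] H) - d) ξ, ξ⟫_ℂ) atTop
          (𝓝 ⟪(y - d) ξ, ξ⟫_ℂ) := by
        have h1 : Tendsto (fun e : D => ((e : H →L[ℂ] H) - d) ξ) atTop (𝓝 ((y - d) ξ)) := by
          simp only [ContinuousLinearMap.sub_apply]
          exact (hy ξ).sub_const _
        exact h1.inner tendsto_const_nhds
      refine ge_of_tendsto ht ?_
      filter_upwards [Ici_mem_atTop (⟨d, hd⟩ : D)] with e he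
      have he' : d ≤ (e : H →L[ℂ] H) := he
      exact ((ContinuousLinearMap.le_def _ _).mp he').inner_nonneg_left ξ
    intro ξ
    have h1 := h0 ξ
    rw [Complex.le_def] at h1
    refine ⟨?_, h1.1⟩
    apply Complex.ext
    · simp
    · rw [Complex.ofReal_im]
      exact h1.2
  have hxy : x ≤ y := hx.2 hub
  apply le_antisymm
  · calc ENNReal.ofReal (⟪Ω, x Ω⟫_ℂ).re ≤ ENNReal.ofReal (⟪Ω, y Ω⟫_ℂ).re :=
          ENNReal.ofReal_le_ofReal (vn_mono hxy Ω)
      _ ≤ _ := by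
          have ht : Tendsto (fun d : D => ENNReal.ofReal (⟪Ω, (d : H →L[ℂ] H) Ω⟫_ℂ).re) atTop
              (𝓝 (ENNReal.ofReal (⟪Ω, y Ω⟫_ℂ).re)) := by
            have h1 : Tendsto (fun d : D => ⟪Ω, (d : H →L[ℂ] H) Ω⟫_ℂ) atTop
                (𝓝 ⟪Ω, y Ω⟫_ℂ) := tendsto_const_nhds.inner (hy Ω)
            exact (ENNReal.continuous_ofReal.tendsto _).comp
              ((Complex.continuous_re.tendsto _).comp h1)
          refine le_of_tendsto ht (Eventually.of_forall fun d => ?_)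
          exact le_iSup₂ (f := fun (d : H →L[ℂ] H) (_ : d ∈ D) =>
            ENNReal.ofReal (⟪Ω, d Ω⟫_ℂ).re) d.1 d.2
  · exact iSup₂_le fun d hd => ENNReal.ofReal_le_ofReal (vn_mono (hx.1 hd) Ω)

/-- star homomorphisms out of a von Neumann algebra commute with `|x|^p` -/
theorem absPow_map {H K : Type*} [NormedAddCommGroup H] [InnerProductSpace ℂ H] [CompleteSpace H]
    [NormedAddCommGroup K] [InnerProductSpace ℂ K] [CompleteSpace K] (M : VonNeumannAlgebra H)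
    (φ : M.toStarSubalgebra →⋆ₐ[ℂ] (K →L[ℂ] K)) {x : H →L[ℂ] H} (hx : x ∈ M) {p : ℝ}
    (hp : 0 < p) : ∃ h : absPow p x ∈ M, φ ⟨absPow p x, h⟩ = absPow p (φ ⟨x, hx⟩) := by
  letI c : CStarAlgebra (M.toStarSubalgebra) :=
    StarSubalgebra.cstarAlgebra (M.toStarSubalgebra) (h_closed := isClosed_VN _)
  letI o : PartialOrder (M.toStarSubalgebra) := CStarAlgebra.spectralOrder _
  haveI so : StarOrderedRing (M.toStarSubalgebra) := CStarAlgebra.spectralOrderedRing _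
  set a : M.toStarSubalgebra := ⟨x, hx⟩ with ha
  have ha0 := star_mul_self_nonneg a
  have h1 := starHom_rpow (M.toStarSubalgebra.subtype) (star a * a) ha0 (p / 2) (half_pos hp)
  have h2 : (((star a * a) ^ (p / 2) : M.toStarSubalgebra) : H →L[ℂ] H) = absPow p x := h1
  have h3 := starHom_rpow φ (star a * a) ha0 (p / 2) (half_pos hp)
  have h4 : absPow p x ∈ M := h2 ▸ ((star a * a) ^ (p / 2)).2
  refine ⟨h4, ?_⟩
  have h5 : (⟨absPow p x, h4⟩ : M.toStarSubalgebra) = (star a * a) ^ (p / 2) :=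
    Subtype.ext h2.symm
  rw [h5, h3, map_mul, map_star]
  rfl

/-- positive elements of a von Neumann algebra are of the form `y* y` with `y` in the algebra -/
theorem nonneg_sqrt_mem {H : Type*} [NormedAddCommGroup H] [InnerProductSpace ℂ H]
    [CompleteSpace H] (M : VonNeumannAlgebra H) {x : H →L[ℂ] H} (hx : x ∈ M) (hx0 : 0 ≤ x) :
    ∃ y ∈ M, x = star y * y := by
  letI c : CStarAlgebra (M.toStarSubalgebra) :=
    StarSubalgebra.cstarAlgebra (M.toStarSubalgebra) (h_closed := isClosed_VN _)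
  letI o : PartialOrder (M.toStarSubalgebra) := CStarAlgebra.spectralOrder _
  haveI so : StarOrderedRing (M.toStarSubalgebra) := CStarAlgebra.spectralOrderedRing _
  have h0 := nonneg_of_map (M.toStarSubalgebra.subtype) Subtype.val_injective ⟨x, hx⟩ hx0
  obtain ⟨y, hy⟩ := CStarAlgebra.nonneg_iff_eq_star_mul_self.1 h0
  exact ⟨y, y.2, congrArg Subtype.val hy⟩

namespace Real

set_option linter.unusedSectionVars false

variable {G : Type} {I : Type} [Group G]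

lemma comp_nonneg {x : L2 (I × G) →L[ℂ] L2 (I × G)} (hx0 : 0 ≤ x) (i : I) : 0 ≤ comp i x := by
  rw [ContinuousLinearMap.nonneg_iff_isPositive] at hx0 ⊢
  have := hx0.conj_adjoint (res i)
  exact this

lemma absPow_comp {x : L2 (I × G) →L[ℂ] L2 (I × G)} (hx : x ∈ MI I G) {p : ℝ}
    (hp : 0 < p) : absPow p x ∈ MI I G ∧ ∀ i, comp i (absPow p x) = absPow p (comp i x) := by
  refine ⟨?_, fun i => ?_⟩
  · obtain ⟨h, -⟩ := absPow_map (MI I G) ((MI I G).toStarSubalgebra.subtype) hx hp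
    exact h
  · obtain ⟨h, h2⟩ := absPow_map (MI I G) (compHom i) hx hp
    exact h2

lemma res_apply_mem {x : L2 (I × G) →L[ℂ] L2 (I × G)} (hx : x ∈ MI I G) (i : I)
    (F : L2 (I × G)) : res i (x F) = comp i x (res i F) := by
  have h := DFunLike.congr_fun ((mem_MI.1 hx).2 i) F
  have h1 := congrArg (res i) h
  have h2 : res i ((cproj i * x : L2 (I × G) →L[ℂ] L2 (I × G)) F) = res i (x F) :=
    res_emb_apply i (res i (x F))
  rw [h2] at h1
  exact h1

lemma ext_res {F F' : L2 (I × G)} (h : ∀ i, res i F = res i F') : F = F' := by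
  ext ⟨i, g⟩
  have := h i
  have h2 : (res i F : G → ℂ) g = (res i F' : G → ℂ) g := by rw [this]
  exact h2

lemma ext_comp {x y : L2 (I × G) →L[ℂ] L2 (I × G)} (hx : x ∈ MI I G) (hy : y ∈ MI I G)
    (h : ∀ i, comp i x = comp i y) : x = y := by
  ext1 F
  refine ext_res fun i => ?_
  rw [res_apply_mem hx, res_apply_mem hy, h i]

/-- a positive element of `L(G)` with zero trace vanishes -/
lemma LG_faithful [DecidableEq G] {a : L2 G →L[ℂ] L2 G} (ha : a ∈ LG G) (ha0 : 0 ≤ a)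
    (h : ⟪delta (1 : G), a (delta 1)⟫_ℂ = 0) : a = 0 := by
  obtain ⟨y, hyG, hy⟩ := nonneg_sqrt_mem (LG G) ha ha0
  have h2 := LG_tracial.faithful y hyG (by rw [← hy]; exact h)
  rw [hy, h2, mul_zero]

/-- a weight: positive numbers with sum one -/
structure Wt (w : I → ℝ) : Prop where
  pos : ∀ i, 0 < w i
  hasSum : HasSum w 1

section trace

variable [DecidableEq G] {w : I → ℝ} (hw : Wt w)

include hw in
lemma memlp_Om : Memℓp (fun q : I × G => if q.2 = 1 then ((Real.sqrt (w q.1) : ℝ) : ℂ) else 0)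
    2 := by
  rw [memℓp_gen_iff (by norm_num)]
  have h1 : Summable (fun i : I => w i) := hw.hasSum.summable
  have hinj : Function.Injective (fun i : I => (i, (1 : G))) := fun i j h => (Prod.mk.inj h).1
  have h2 := (hinj.summable_iff (f := fun q : I × G =>
    ‖(if q.2 = 1 then ((Real.sqrt (w q.1) : ℝ) : ℂ) else 0)‖ ^ (2 : ℝ≥0∞).toReal) ?_).1 ?_
  · exact h2
  · rintro ⟨i, g⟩ hq
    have : g ≠ 1 := by rintro rfl; exact hq ⟨i, rfl⟩
    simp [this]
  · convert h1 using 1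
    funext i
    simp [(Real.sq_sqrt (hw.pos i).le)]

/-- the trace vector -/
noncomputable def Om : L2 (I × G) :=
  ⟨fun q : I × G => if q.2 = 1 then ((Real.sqrt (w q.1) : ℝ) : ℂ) else 0, memlp_Om hw⟩

lemma res_Om (i : I) : res i (Om hw : L2 (I × G)) = ((Real.sqrt (w i) : ℝ) : ℂ) • delta (1 : G) := by
  ext g
  rw [res_apply, lp.coeFn_smul, Pi.smul_apply]
  unfold delta
  rw [lp.single_apply, Pi.single_apply]
  change (if g = 1 then ((Real.sqrt (w i) : ℝ) : ℂ) else 0) = _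
  split_ifs <;> simp

lemma hasSum_tr {x : L2 (I × G) →L[ℂ] L2 (I × G)} (hx : x ∈ MI I G) :
    HasSum (fun i => (w i : ℂ) * ⟪delta (1 : G), comp i x (delta 1)⟫_ℂ)
      ⟪(Om hw : L2 (I × G)), x (Om hw)⟫_ℂ := by
  have h := lp.hasSum_inner (𝕜 := ℂ) (G := fun _ : I × G => ℂ) (Om hw : L2 (I × G)) (x (Om hw))
  have hinj : Function.Injective (fun i : I => (i, (1 : G))) := fun i j h => (Prod.mk.inj h).1
  rw [← hinj.hasSum_iff] at h
  · have e : (fun i => (w i : ℂ) * ⟪delta (1 : G), comp i x (delta 1)⟫_ℂ) =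
        (fun q : I × G => ⟪((Om hw : L2 (I × G)) : I × G → ℂ) q,
          ((x (Om hw) : L2 (I × G)) : I × G → ℂ) q⟫_ℂ) ∘ (fun i : I => (i, (1 : G))) := by
      funext i
      have h1 : ((x (Om hw) : L2 (I × G)) : I × G → ℂ) (i, 1) =
          ((Real.sqrt (w i) : ℝ) : ℂ) * ⟪delta (1 : G), comp i x (delta 1)⟫_ℂ := by
        rw [← res_apply, res_apply_mem hx, res_Om, map_smul, lp.coeFn_smul, Pi.smul_apply,
          inner_delta, smul_eq_mul]
      have h2 : ((Om hw : L2 (I × G)) : I × G → ℂ) (i, 1) = ((Real.sqrt (w i) : ℝ) : ℂ) := by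
        change (if (1 : G) = 1 then ((Real.sqrt (w i) : ℝ) : ℂ) else 0) = _
        rw [if_pos rfl]
      have h3 : (w i : ℂ) = ((Real.sqrt (w i) : ℝ) : ℂ) * ((Real.sqrt (w i) : ℝ) : ℂ) := by
        rw [← Complex.ofReal_mul, Real.mul_self_sqrt (hw.pos i).le]
      simp only [Function.comp_apply]
      rw [h1, h2, RCLike.inner_apply, Complex.conj_ofReal, h3]
      ring
    rw [e]
    exact h
  · rintro ⟨i, g⟩ hq
    have hg : g ≠ 1 := by rintro rfl; exact hq ⟨i, rfl⟩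
    have h2 : ((Om hw : L2 (I × G)) : I × G → ℂ) (i, g) = 0 := by
      change (if g = 1 then ((Real.sqrt (w i) : ℝ) : ℂ) else 0) = _
      rw [if_neg hg]
    rw [h2, inner_zero_left]

lemma re_inner_nonneg {H : Type*} [NormedAddCommGroup H] [InnerProductSpace ℂ H]
    [CompleteSpace H] {x : H →L[ℂ] H} (hx : 0 ≤ x) (v : H) : 0 ≤ (⟪v, x v⟫_ℂ).re := by
  rw [ContinuousLinearMap.nonneg_iff_isPositive] at hx
  exact hx.re_inner_nonneg_right v

lemma im_inner_zero {H : Type*} [NormedAddCommGroup H] [InnerProductSpace ℂ H]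
    [CompleteSpace H] {x : H →L[ℂ] H} (hx : 0 ≤ x) (v : H) : (⟪v, x v⟫_ℂ).im = 0 := by
  rw [ContinuousLinearMap.nonneg_iff_isPositive] at hx
  have := hx.inner_nonneg_right v
  exact (Complex.le_def.1 this).2.symm

/-- the trace `τ(x) = ⟪Ω, x Ω⟫ = ∑ w_i τ_G(x_i)` -/
noncomputable def trMI : NSFTrace (MI I G) where
  tr x := ENNReal.ofReal (⟪(Om hw : L2 (I × G)), x (Om hw)⟫_ℂ).re
  add x _ y _ hx hy := by
    rw [← ENNReal.ofReal_add (re_inner_nonneg hx _) (re_inner_nonneg hy _)]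
    simp [inner_add_right]
  smul c x _ hx := by
    have : (⟪(Om hw : L2 (I × G)), ((c : ℂ) • x) (Om hw)⟫_ℂ).re =
        (c : ℝ) * (⟪(Om hw : L2 (I × G)), x (Om hw)⟫_ℂ).re := by
      rw [smul_apply, inner_smul_right]
      have : ((c : ℂ)) = (((c : ℝ)) : ℂ) := rfl
      rw [this, Complex.re_ofReal_mul]
    rw [this, ENNReal.ofReal_mul (NNReal.coe_nonneg c), ENNReal.ofReal_coe_nnreal]
  trace x hx := by
    have hsx : star x ∈ MI I G := star_mem hx
    have h1 := hasSum_tr hw (mul_mem hsx hx)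
    have h2 := hasSum_tr hw (mul_mem hx hsx)
    have e : (fun i => (w i : ℂ) * ⟪delta (1 : G), comp i (star x * x) (delta 1)⟫_ℂ) =
        fun i => (w i : ℂ) * ⟪delta (1 : G), comp i (x * star x) (delta 1)⟫_ℂ := by
      funext i
      rw [comp_mul hx, comp_mul hsx, comp_star,
        LG_tracial.trace _ (star_mem (comp_mem hx i)) _ (comp_mem hx i)]
    rw [e] at h1
    rw [h1.unique h2]
  faithful x hx hx0 h := by
    rw [ENNReal.ofReal_eq_zero] at h
    have h1 := (hasSum_tr hw hx).mapL Complex.reCLM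
    have h2 : ∀ i, 0 ≤ Complex.reCLM ((w i : ℂ) * ⟪delta (1 : G), comp i x (delta 1)⟫_ℂ) := by
      intro i
      rw [Complex.reCLM_apply, Complex.re_ofReal_mul]
      exact mul_nonneg (hw.pos i).le (re_inner_nonneg (comp_nonneg hx0 i) _)
    have h3 : Complex.reCLM ⟪(Om hw : L2 (I × G)), x (Om hw)⟫_ℂ = 0 :=
      le_antisymm h (re_inner_nonneg hx0 _)
    rw [h3, hasSum_zero_iff_of_nonneg h2] at h1
    refine ext_comp hx (zero_mem _) fun i => ?_
    have h4 := congrFun h1 i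
    simp only [Complex.reCLM_apply, Complex.re_ofReal_mul, Pi.zero_apply, mul_eq_zero,
      (hw.pos i).ne', false_or] at h4
    have h5 : comp i x = 0 := LG_faithful (comp_mem hx i) (comp_nonneg hx0 i)
      (Complex.ext h4 (im_inner_zero (comp_nonneg hx0 i) _))
    rw [h5]; ext f g; simp [comp]
  normal D x hne hdir hD _ hlub := vector_normal D x hne hdir (fun d hd => (hD d hd).2) hlub _
  semifinite x hx hx0 hne := ⟨x, hx, hx0, le_rfl, hne, ENNReal.ofReal_lt_top⟩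

lemma finElts_eq (p : ℝ) : (trMI hw : NSFTrace (MI I G)).finElts p = {x | x ∈ MI I G} := by
  ext x
  exact ⟨fun h => h.1, fun h => ⟨h, ENNReal.ofReal_lt_top⟩⟩

end trace

end Real

end NCLp
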