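import Pool.Agent.NCLp.Real2
import Pool.Agent.Helper86.NC.BlockDefs

/-!
# Realisation of the `ℓ^{4/3}`-sum of blocks as a noncommutative `L^{4/3}`-space (helper990)
-/

set_option autoImplicit false

open Filter Topology
open scoped ENNReal NNReal ComplexOrder InnerProductSpace
open Pool.Agent.Helper86.NC (L2 delta permOp rho LG vnOf mem_vnOf permOp_apply permOp_star
  inner_delta mem_LG rho_star permOp_mul permOp_delta LG_tracial p43 Blk p43_toReal p43_ne_top)

namespace NCLp.Real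

set_option linter.unusedSectionVars false

section blk

variable {Y : Type} [NormedAddCommGroup Y] [NormedSpace ℂ Y]

lemma p43_pos : 0 < p43.toReal := by rw [p43_toReal]; norm_num

lemma p43_pos' : 0 < p43 := ENNReal.toReal_pos_iff.1 p43_pos |>.1

lemma blk_norm_rpow {R : ℕ} (f : Blk Y R) : ‖f‖ ^ (4 / 3 : ℝ) = ∑ r, ‖f r‖ ^ (4 / 3 : ℝ) := by
  rw [PiLp.norm_eq_sum p43_pos, p43_toReal, ← Real.rpow_mul (Finset.sum_nonneg fun r _ => by
    positivity)]
  norm_num

end blk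

variable {G : Type} [Group G] [DecidableEq G] {Y : Type} [NormedAddCommGroup Y] [NormedSpace ℂ Y]

/-- the interface: `iY` is (on `L(G)`) the embedding into `L^{4/3}(L(G))` -/
structure YInt (iY : (L2 G →L[ℂ] L2 G) → Y) : Prop where
  map_add : ∀ x ∈ LG G, ∀ y ∈ LG G, iY (x + y) = iY x + iY y
  map_smul : ∀ c : ℂ, ∀ x ∈ LG G, iY (c • x) = c • iY x
  norm_eq : ∀ x ∈ LG G,
    ‖iY x‖ = ((⟪delta (1 : G), absPow (4 / 3) x (delta 1)⟫_ℂ).re) ^ (3 / 4 : ℝ)
  dense : Dense (iY '' {x | x ∈ LG G})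

variable {R : ℕ → ℕ} {w : (Σ n, Fin (R n)) → ℝ} (hw : Wt w) {iY : (L2 G →L[ℂ] L2 G) → Y}

/-- the components of the embedding -/
noncomputable def ioc (w : (Σ n, Fin (R n)) → ℝ) (iY : (L2 G →L[ℂ] L2 G) → Y)
    (x : L2 ((Σ n, Fin (R n)) × G) →L[ℂ] L2 ((Σ n, Fin (R n)) × G)) (n : ℕ) : Blk Y (R n) :=
  WithLp.toLp p43 (fun r => ((w ⟨n, r⟩ ^ (3 / 4 : ℝ) : ℝ) : ℂ) • iY (comp ⟨n, r⟩ x))

lemma ioc_norm (hw : Wt w) (h : YInt iY)
    {x : L2 ((Σ n, Fin (R n)) × G) →L[ℂ] L2 ((Σ n, Fin (R n)) × G)} (hx : x ∈ MI _ G)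
    (n : ℕ) : ‖ioc w iY x n‖ ^ (4 / 3 : ℝ) =
      ∑ r, w ⟨n, r⟩ * (⟪delta (1 : G), comp ⟨n, r⟩ (absPow (4 / 3) x) (delta 1)⟫_ℂ).re := by
  rw [blk_norm_rpow]
  refine Finset.sum_congr rfl fun r _ => ?_
  change ‖((w ⟨n, r⟩ ^ (3 / 4 : ℝ) : ℝ) : ℂ) • iY (comp ⟨n, r⟩ x)‖ ^ (4 / 3 : ℝ) = _
  have hw0 := (hw.pos ⟨n, r⟩).le
  rw [norm_smul, Complex.norm_real, Real.norm_of_nonneg (by positivity),
    h.norm_eq _ (comp_mem hx _), (absPow_comp hx (p := 4 / 3) (by norm_num)).2]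
  have h0 : 0 ≤ (⟪delta (1 : G), absPow (4 / 3) (comp ⟨n, r⟩ x) (delta 1)⟫_ℂ).re := by
    apply re_inner_nonneg
    unfold absPow
    exact CFC.rpow_nonneg
  rw [Real.mul_rpow (by positivity) (by positivity), ← Real.rpow_mul hw0, ← Real.rpow_mul h0]
  norm_num

lemma ioc_hasSum (hw : Wt w) (h : YInt iY)
    {x : L2 ((Σ n, Fin (R n)) × G) →L[ℂ] L2 ((Σ n, Fin (R n)) × G)} (hx : x ∈ MI _ G) :
    HasSum (fun n => ‖ioc w iY x n‖ ^ (4 / 3 : ℝ))
      (⟪(Om hw : L2 ((Σ n, Fin (R n)) × G)), absPow (4 / 3) x (Om hw)⟫_ℂ).re := by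
  have h1 := (hasSum_tr hw (absPow_comp hx (p := 4 / 3) (by norm_num)).1).mapL Complex.reCLM
  have h2 := h1.sigma (g := fun n => ‖ioc w iY x n‖ ^ (4 / 3 : ℝ)) (fun n => by
    rw [ioc_norm hw h hx]
    have := hasSum_fintype (fun r : Fin (R n) => Complex.reCLM ((w ⟨n, r⟩ : ℂ) *
      ⟪delta (1 : G), comp ⟨n, r⟩ (absPow (4 / 3) x) (delta 1)⟫_ℂ))
    simp only [Complex.reCLM_apply, Complex.re_ofReal_mul] at this ⊢
    exact this)
  exact h2

lemma ioc_memlp (hw : Wt w) (h : YInt iY)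
    {x : L2 ((Σ n, Fin (R n)) × G) →L[ℂ] L2 ((Σ n, Fin (R n)) × G)} (hx : x ∈ MI _ G) :
    Memℓp (ioc w iY x) p43 := by
  rw [memℓp_gen_iff p43_pos, p43_toReal]
  exact (ioc_hasSum hw h hx).summable

open Classical in
/-- the embedding of the von Neumann algebra into the `ℓ^{4/3}`-sum -/
noncomputable def io (hw : Wt w) (h : YInt iY)
    (x : L2 ((Σ n, Fin (R n)) × G) →L[ℂ] L2 ((Σ n, Fin (R n)) × G)) :
    lp (fun n => Blk Y (R n)) p43 :=
  if hx : x ∈ MI _ G then ⟨ioc w iY x, ioc_memlp hw h hx⟩ else 0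

lemma io_apply (hw : Wt w) (h : YInt iY)
    {x : L2 ((Σ n, Fin (R n)) × G) →L[ℂ] L2 ((Σ n, Fin (R n)) × G)} (hx : x ∈ MI _ G) (n : ℕ)
    (r : Fin (R n)) : (io hw h x : ∀ n, Blk Y (R n)) n r =
      ((w ⟨n, r⟩ ^ (3 / 4 : ℝ) : ℝ) : ℂ) • iY (comp ⟨n, r⟩ x) := by
  unfold io
  rw [dif_pos hx]
  rfl

lemma ext_E {f g : lp (fun n => Blk Y (R n)) p43}
    (h : ∀ n r, (f : ∀ n, Blk Y (R n)) n r = (g : ∀ n, Blk Y (R n)) n r) : f = g := by
  ext n r
  exact h n r

lemma io_add (hw : Wt w) (h : YInt iY)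
    {x y : L2 ((Σ n, Fin (R n)) × G) →L[ℂ] L2 ((Σ n, Fin (R n)) × G)} (hx : x ∈ MI _ G)
    (hy : y ∈ MI _ G) : io hw h (x + y) = io hw h x + io hw h y := by
  apply ext_E
  intro n r
  rw [io_apply hw h (add_mem hx hy), lp.coeFn_add, Pi.add_apply, PiLp.add_apply,
    io_apply hw h hx, io_apply hw h hy, comp_add, h.map_add _ (comp_mem hx _) _ (comp_mem hy _),
    smul_add]

lemma io_smul (hw : Wt w) (h : YInt iY) (c : ℂ)
    {x : L2 ((Σ n, Fin (R n)) × G) →L[ℂ] L2 ((Σ n, Fin (R n)) × G)} (hx : x ∈ MI _ G) :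
    io hw h (c • x) = c • io hw h x := by
  apply ext_E
  intro n r
  have hcx : c • x ∈ MI _ G := (MI _ G).toStarSubalgebra.smul_mem hx c
  rw [io_apply hw h hcx, lp.coeFn_smul, Pi.smul_apply, PiLp.smul_apply,
    io_apply hw h hx, comp_smul, h.map_smul _ _ (comp_mem hx _), smul_comm]

/-- the operator with the single component `a` at `i` -/
noncomputable def put {I : Type} (i : I) (a : L2 G →L[ℂ] L2 G) : L2 (I × G) →L[ℂ] L2 (I × G) :=
  emb i ∘L a ∘L res i

lemma comp_put {I : Type} (i : I) (a : L2 G →L[ℂ] L2 G) : comp i (put i a) = a := by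
  ext1 f
  change res i (emb i (a (res i (emb i f)))) = a f
  rw [res_emb_apply, res_emb_apply]

lemma comp_put_ne {I : Type} {i j : I} (hij : j ≠ i) (a : L2 G →L[ℂ] L2 G) :
    comp j (put i a) = 0 := by
  ext1 f
  change res j (emb i (a (res i (emb j f)))) = 0
  rw [res_emb_ne hij]

lemma put_mem {I : Type} (i : I) {a : L2 G →L[ℂ] L2 G} (ha : a ∈ LG G) : put i a ∈ MI I G := by
  rw [mem_MI]
  rw [mem_LG] at ha
  constructor
  · intro g
    calc rhoI I g * put i a = (rhoI I g ∘L emb i) ∘L a ∘L res i := rfl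
      _ = emb i ∘L (rho g * a) ∘L res i := by rw [rhoI_emb]; rfl
      _ = emb i ∘L a ∘L (rho g ∘L res i) := by rw [ha g]; rfl
      _ = put i a * rhoI I g := by rw [← res_rhoI]; rfl
  · intro j
    by_cases hij : j = i
    · subst hij
      calc cproj j * put j a = emb j ∘L (res j ∘L emb j) ∘L a ∘L res j := rfl
        _ = emb j ∘L a ∘L (res j ∘L emb j) ∘L res j := by rw [res_emb]; rfl
        _ = put j a * cproj j := rfl
    · ext1 F
      change emb j (res j (emb i (a (res i F)))) = emb i (a (res i (emb j (res j F))))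
      rw [res_emb_ne hij, res_emb_ne (Ne.symm hij), map_zero, map_zero, map_zero]

lemma put_nonneg {I : Type} (i : I) {a : L2 G →L[ℂ] L2 G} (ha : 0 ≤ a) : 0 ≤ put i a := by
  rw [ContinuousLinearMap.nonneg_iff_isPositive] at ha ⊢
  have := ha.conj_adjoint (emb i : L2 G →L[ℂ] L2 (I × G))
  rw [adjoint_emb] at this
  exact this

/-- elements with all entries in the closure of `iY(P)` lie in the closure of `ι(Q)` -/
lemma mem_closure_of (hw : Wt w) (h : YInt iY)
    (Q : Set (L2 ((Σ n, Fin (R n)) × G) →L[ℂ] L2 ((Σ n, Fin (R n)) × G)))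
    (hQM : ∀ x ∈ Q, x ∈ MI _ G) (hQ0 : 0 ∈ Q) (hQadd : ∀ x ∈ Q, ∀ y ∈ Q, x + y ∈ Q)
    (P : Set (L2 G →L[ℂ] L2 G)) (hPLG : ∀ a ∈ P, a ∈ LG G)
    (hPQ : ∀ i, ∀ a ∈ P, ∀ c : ℝ, 0 ≤ c → put i ((c : ℂ) • a) ∈ Q)
    (f : lp (fun n => Blk Y (R n)) p43)
    (hf : ∀ n r, (f : ∀ n, Blk Y (R n)) n r ∈ closure (iY '' P)) :
    f ∈ closure (io hw h '' Q) := by
  classical
  have h0 : iY 0 = 0 := by
    have := h.map_smul 0 0 (zero_mem _)
    simpa using this
  let S : AddSubmonoid (lp (fun n => Blk Y (R n)) p43) :=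
    { carrier := io hw h '' Q
      zero_mem' := by
        refine ⟨0, hQ0, ?_⟩
        have := io_smul hw h 0 (hQM 0 hQ0)
        simpa using this
      add_mem' := by
        rintro _ _ ⟨x, hx, rfl⟩ ⟨y, hy, rfl⟩
        exact ⟨x + y, hQadd x hx y hy, io_add hw h (hQM x hx) (hQM y hy)⟩ }
  have hS : (S.topologicalClosure : Set (lp (fun n => Blk Y (R n)) p43)) =
      closure (io hw h '' Q) := rfl
  have key1 : ∀ (n : ℕ) (r : Fin (R n)) (z : Y), z ∈ closure (iY '' P) →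
      lp.single p43 n (WithLp.toLp p43 (Pi.single r z) : Blk Y (R n)) ∈
        S.topologicalClosure := by
    intro n r z hz
    have hcont : Continuous (fun z : Y => lp.single (E := fun n => Blk Y (R n)) p43 n
        (WithLp.toLp p43 (Pi.single r z) : Blk Y (R n))) := by
      let φ : Y →+ lp (fun n => Blk Y (R n)) p43 :=
        { toFun := fun z => lp.single (E := fun n => Blk Y (R n)) p43 n
            (WithLp.toLp p43 (Pi.single r z) : Blk Y (R n))
          map_zero' := by simp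
          map_add' := fun x y => by
            rw [Pi.single_add, WithLp.toLp_add]
            exact lp.single_add p43 n _ _ }
      refine AddMonoidHomClass.continuous_of_bound φ 1 fun x => ?_
      change ‖lp.single (E := fun n => Blk Y (R n)) p43 n
        (WithLp.toLp p43 (Pi.single r x) : Blk Y (R n))‖ ≤ 1 * ‖x‖
      rw [lp.norm_single p43_pos', one_mul]
      exact (PiLp.norm_single p43 (fun _ : Fin (R n) => Y) r x).le
    have h1 := map_mem_closure hcont hz (t := io hw h '' Q) ?_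
    · exact h1
    · rintro _ ⟨a, ha, rfl⟩
      have hwp : 0 < w ⟨n, r⟩ ^ (3 / 4 : ℝ) := Real.rpow_pos_of_pos (hw.pos _) _
      set c : ℝ := (w ⟨n, r⟩ ^ (3 / 4 : ℝ))⁻¹ with hc
      have hm := hPQ ⟨n, r⟩ a ha c (by positivity)
      refine ⟨_, hm, ?_⟩
      apply ext_E
      intro m s
      rw [io_apply hw h (hQM _ hm)]
      by_cases hms : (⟨m, s⟩ : Σ n, Fin (R n)) = ⟨n, r⟩
      · obtain ⟨rfl, hsr⟩ := Sigma.mk.inj_iff.1 hms
        have hsr : s = r := eq_of_heq hsr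
        subst hsr
        rw [comp_put, h.map_smul _ _ (hPLG a ha), smul_smul, ← Complex.ofReal_mul,
          hc, mul_inv_cancel₀ hwp.ne', Complex.ofReal_one, one_smul, lp.single_apply,
          Pi.single_eq_same]
        simp
      · rw [comp_put_ne hms, h0, smul_zero, lp.single_apply]
        by_cases hmn : m = n
        · subst hmn
          rw [Pi.single_eq_same]
          have : s ≠ r := by rintro rfl; exact hms rfl
          simp [this]
        · rw [Pi.single_eq_of_ne hmn]; rfl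
  have key2 : ∀ (n : ℕ), lp.single p43 n ((f : ∀ n, Blk Y (R n)) n) ∈ S.topologicalClosure := by
    intro n
    have e : lp.single (E := fun n => Blk Y (R n)) p43 n ((f : ∀ n, Blk Y (R n)) n) =
        ∑ r, lp.single (E := fun n => Blk Y (R n)) p43 n (WithLp.toLp p43
          (Pi.single r ((f : ∀ n, Blk Y (R n)) n r)) : Blk Y (R n)) := by
      apply ext_E
      intro m s
      rw [lp.coeFn_sum, Finset.sum_apply]
      by_cases hmn : m = n
      · subst hmn
        simp only [lp.single_apply, Pi.single_eq_same]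
        have e2 : ∀ F : Fin (R m) → Blk Y (R m), (∑ r, F r) s = ∑ r, F r s := by
          intro F
          exact map_sum (PiLp.projₗ (𝕜 := ℂ) p43 (fun _ : Fin (R m) => Y) s) F Finset.univ
        rw [e2]
        simp [Pi.single_apply]
      · simp only [lp.single_apply, Pi.single_eq_of_ne hmn]
        simp
    rw [e]
    exact sum_mem fun r _ => key1 n r _ (hf n r)
  have h3 := lp.hasSum_single (E := fun n => Blk Y (R n)) p43_ne_top f
  rw [← hS]
  refine S.isClosed_topologicalClosure.mem_of_tendsto h3 (Eventually.of_forall fun s => ?_)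
  exact sum_mem fun n _ => key2 n

theorem io_isLp (hw : Wt w) (h : YInt iY) :
    IsLp (trMI hw : NSFTrace (MI (Σ n, Fin (R n)) G)) (4 / 3)
      (lp (fun n => Blk Y (R n)) p43) (io hw h) where
  map_add x hx y hy := io_add hw h hx.1 hy.1
  map_smul c x hx := io_smul hw h c hx.1
  norm_eq x hx := by
    have h1 := ioc_hasSum hw h hx.1
    have h2 := lp.hasSum_norm p43_pos (io hw h x)
    rw [p43_toReal] at h2
    have h3 : ∀ n, (io hw h x : ∀ n, Blk Y (R n)) n = ioc w iY x n := by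
      intro n
      unfold io
      rw [dif_pos hx.1]
    simp only [h3] at h2
    have h4 := h2.unique h1
    have h5 : ((trMI hw : NSFTrace (MI (Σ n, Fin (R n)) G)).tr (absPow (4 / 3) x)).toReal =
        (⟪(Om hw : L2 ((Σ n, Fin (R n)) × G)), absPow (4 / 3) x (Om hw)⟫_ℂ).re := by
      change (ENNReal.ofReal _).toReal = _
      rw [ENNReal.toReal_ofReal]
      rw [← h4]; positivity
    rw [h5, ← h4, ← Real.rpow_mul (norm_nonneg _)]
    norm_num
  dense := by
    rw [finElts_eq]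
    intro f
    refine mem_closure_of hw h {x | x ∈ MI _ G} (fun x hx => hx) (zero_mem (MI _ G))
      (fun x hx y hy => (add_mem hx hy : x + y ∈ MI _ G)) {a | a ∈ LG G} (fun a ha => ha) ?_ f ?_
    · intro i a ha c _
      exact put_mem i ((LG G).toStarSubalgebra.smul_mem ha _)
    · intro n r
      exact h.dense _

theorem io_posCone (hw : Wt w) (h : YInt iY) :
    posCone (trMI hw : NSFTrace (MI (Σ n, Fin (R n)) G)) (4 / 3) (io hw h) =
      {f : lp (fun n => Blk Y (R n)) p43 |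
        ∀ n r, (f : ∀ n, Blk Y (R n)) n r ∈ closure (iY '' {a | a ∈ LG G ∧ 0 ≤ a})} := by
  unfold posCone
  rw [finElts_eq]
  apply subset_antisymm
  · apply closure_minimal
    · rintro _ ⟨x, ⟨hx, hx0⟩, rfl⟩ n r
      rw [io_apply hw h hx, ← h.map_smul _ _ (comp_mem hx _)]
      apply subset_closure
      refine ⟨_, ⟨(LG G).toStarSubalgebra.smul_mem (comp_mem hx _) _, ?_⟩, rfl⟩
      have hw0 := (hw.pos ⟨n, r⟩).le
      exact smul_nonneg (Complex.zero_le_real.2 (by positivity)) (comp_nonneg hx0 _)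
    · have : {f : lp (fun n => Blk Y (R n)) p43 | ∀ n r, (f : ∀ n, Blk Y (R n)) n r ∈
          closure (iY '' {a | a ∈ LG G ∧ 0 ≤ a})} = ⋂ n, ⋂ r, (fun f : lp (fun n => Blk Y (R n)) p43
            => (f : ∀ n, Blk Y (R n)) n r) ⁻¹' closure (iY '' {a | a ∈ LG G ∧ 0 ≤ a}) := by
        ext f; simp
      rw [this]
      refine isClosed_iInter fun n => isClosed_iInter fun r => IsClosed.preimage ?_ isClosed_closure
      have c1 : Continuous (fun f : lp (fun n => Blk Y (R n)) p43 =>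
          (f : ∀ n, Blk Y (R n)) n) := by
        exact (lp.evalCLM ℂ (fun n => Blk Y (R n)) p43 n).continuous
      exact (PiLp.continuous_apply p43 (fun _ : Fin (R n) => Y) r).comp c1
  · intro f hf
    refine mem_closure_of hw h {x | x ∈ {x | x ∈ MI _ G} ∧ 0 ≤ x} (fun x hx => hx.1)
      ⟨zero_mem (MI _ G), le_rfl⟩ (fun x hx y hy =>
        ⟨(add_mem (S := VonNeumannAlgebra _) hx.1 hy.1 : x + y ∈ MI _ G),
          add_nonneg hx.2 hy.2⟩)
      {a | a ∈ LG G ∧ 0 ≤ a} (fun a ha => ha.1) ?_ f hf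
    intro i a ha c hc
    exact ⟨put_mem i ((LG G).toStarSubalgebra.smul_mem ha.1 _),
      put_nonneg i (smul_nonneg (Complex.zero_le_real.2 hc) ha.2)⟩

end NCLp.Real
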