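import Pool.Agent.NCLp.YSpace
import Pool.Agent.NCLp.Comm

open Filter Topology
open scoped ENNReal NNReal ComplexOrder ComplexConjugate

namespace NCLp

variable {A : Type} [CStarAlgebra A] [PartialOrder A] [StarOrderedRing A] {t : TrState A}
  {Y : Type} [NormedAddCommGroup Y] [NormedSpace ℂ Y]

namespace YD

variable (D : YD t Y)

lemma ext_pair {y y' : Y} (h : ∀ z, D.pair z y = D.pair z y') : y = y' := by
  have : ‖y - y'‖ ≤ 0 := by
    apply D.norming _ 0 le_rfl
    intro z
    rw [map_sub, h z, sub_self, norm_zero, zero_mul]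
  exact sub_eq_zero.1 (norm_le_zero_iff.1 this)

lemma dense_ind {p : Y → Prop} (hp : IsClosed {y | p y}) (h : ∀ x, p (D.ι x)) : ∀ y, p y := by
  intro y
  have h1 : Set.range D.ι ⊆ {y | p y} := by rintro _ ⟨x, rfl⟩; exact h x
  exact hp.closure_subset_iff.2 h1 (D.dense y)

lemma pair_add (z z' : A) (y : Y) : D.pair (z + z') y = D.pair z y + D.pair z' y := by
  refine D.dense_ind (p := fun y => D.pair (z + z') y = D.pair z y + D.pair z' y) ?_ ?_ y
  · exact isClosed_eq (by fun_prop) (by fun_prop)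
  · intro x; simp only [D.pair_ι, add_mul, map_add]

lemma pair_smul (c : ℂ) (z : A) (y : Y) : D.pair (c • z) y = c * D.pair z y := by
  refine D.dense_ind (p := fun y => D.pair (c • z) y = c * D.pair z y) ?_ ?_ y
  · exact isClosed_eq (by fun_prop) (by fun_prop)
  · intro x; simp only [D.pair_ι, smul_mul_assoc, map_smul, smul_eq_mul]

lemma pair_zero (y : Y) : D.pair 0 y = 0 := by
  have := D.pair_smul 0 0 y
  simpa using this

lemma pair_sum {κ : Type*} (s : Finset κ) (f : κ → A) (y : Y) :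
    D.pair (∑ i ∈ s, f i) y = ∑ i ∈ s, D.pair (f i) y := by
  classical
  induction s using Finset.induction_on with
  | empty => simp [D.pair_zero]
  | insert a s ha ih => rw [Finset.sum_insert ha, Finset.sum_insert ha, D.pair_add, ih]

lemma ι_injective : Function.Injective D.ι := by
  intro x y h
  have h1 : D.ι (x - y) = 0 := by rw [map_sub, h, sub_self]
  have h2 : t.τ (star (x - y) * (x - y)) = 0 := by
    rw [← D.pair_ι, h1, map_zero]
  exact sub_eq_zero.1 (t.faithful _ h2)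

/-- the cone -/
def C : Set Y := closure (D.ι '' {x | 0 ≤ x})

lemma isClosed_C : IsClosed D.C := isClosed_closure

lemma ι_mem {x : A} (hx : 0 ≤ x) : D.ι x ∈ D.C := subset_closure ⟨x, hx, rfl⟩

lemma C_ind {p : Y → Prop} (hp : IsClosed {y | p y}) (h : ∀ x, 0 ≤ x → p (D.ι x)) :
    ∀ y ∈ D.C, p y := by
  intro y hy
  have h1 : (D.ι '' {x | 0 ≤ x}) ⊆ {y | p y} := by rintro _ ⟨x, hx, rfl⟩; exact h x hx
  exact hp.closure_subset_iff.2 h1 hy

lemma C_add {x y : Y} (hx : x ∈ D.C) (hy : y ∈ D.C) : x + y ∈ D.C := by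
  revert x
  intro x hx
  have h : ∀ y ∈ D.C, ∀ x ∈ D.C, x + y ∈ D.C := by
    refine D.C_ind (p := fun y => ∀ x ∈ D.C, x + y ∈ D.C) ?_ ?_
    · have : {y : Y | ∀ x ∈ D.C, x + y ∈ D.C} = ⋂ x ∈ D.C, {y | x + y ∈ D.C} := by
        ext y; simp
      rw [this]
      exact isClosed_biInter fun x _ => D.isClosed_C.preimage (by fun_prop)
    · intro b hb
      refine D.C_ind (p := fun x => x + D.ι b ∈ D.C) ?_ ?_
      · exact D.isClosed_C.preimage (by fun_prop : Continuous fun x => x + D.ι b)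
      · intro a ha
        rw [← map_add]
        exact D.ι_mem (add_nonneg ha hb)
  exact h y hy x hx

lemma C_zero : (0 : Y) ∈ D.C := by
  have := D.ι_mem (le_refl (0 : A))
  rwa [map_zero] at this

lemma C_smul {x : Y} (hx : x ∈ D.C) (r : ℝ) (hr : 0 ≤ r) : (r : ℂ) • x ∈ D.C := by
  revert x
  intro x hx
  have h : ∀ x ∈ D.C, (r : ℂ) • x ∈ D.C := by
    refine D.C_ind (p := fun x => (r : ℂ) • x ∈ D.C) ?_ ?_
    · exact D.isClosed_C.preimage (by fun_prop : Continuous fun x : Y => (r : ℂ) • x)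
    · intro a ha
      rw [← map_smul]
      apply D.ι_mem
      obtain ⟨b, rfl⟩ := CStarAlgebra.nonneg_iff_eq_star_mul_self.1 ha
      have : (r : ℂ) • (star b * b) = star (((Real.sqrt r : ℝ) : ℂ) • b) *
          (((Real.sqrt r : ℝ) : ℂ) • b) := by
        rw [star_smul, smul_mul_smul_comm]
        congr 1
        rw [Complex.star_def, Complex.conj_ofReal, ← Complex.ofReal_mul, Real.mul_self_sqrt hr]
      rw [this]
      exact star_mul_self_nonneg _
  exact h x hx

/-- the unit -/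
noncomputable def u : Y := D.ι 1

lemma u_mem : D.u ∈ D.C := D.ι_mem zero_le_one

lemma norm_u : ‖D.u‖ ≤ 1 := by
  apply D.norming _ 1 zero_le_one
  intro z
  rw [u, D.pair_ι, mul_one, one_mul]
  exact t.norm_tau_le_n4 z

/-- the trace -/
noncomputable def tr : Y →L[ℂ] ℂ := D.pair 1

lemma tr_ι (x : A) : D.tr (D.ι x) = t.τ x := by rw [tr, D.pair_ι, one_mul]

lemma tr_u : D.tr D.u = 1 := by rw [u, tr_ι, t.one]

lemma norm_tr (y : Y) : ‖D.tr y‖ ≤ ‖y‖ := by
  have := D.pair_le 1 y
  rwa [t.n4_one, one_mul] at this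

lemma tr_nonneg : ∀ y ∈ D.C, ∃ a : ℝ, 0 ≤ a ∧ D.tr y = (a : ℂ) := by
  intro y hy
  have h : 0 ≤ D.tr y := by
    refine D.C_ind (p := fun y => 0 ≤ D.tr y) ?_ ?_ y hy
    · have : {y : Y | 0 ≤ D.tr y} = D.tr ⁻¹' {z : ℂ | 0 ≤ z} := rfl
      rw [this]
      refine IsClosed.preimage D.tr.continuous ?_
      have : {z : ℂ | 0 ≤ z} = {z : ℂ | 0 ≤ z.re} ∩ {z | z.im = 0} := by
        ext z
        simp only [Set.mem_ofPred_eq, Set.mem_inter_iff, Complex.le_def, Complex.zero_re,
          Complex.zero_im, eq_comm]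
      rw [this]
      exact (isClosed_le continuous_const Complex.continuous_re).inter
        (isClosed_eq Complex.continuous_im continuous_const)
    · intro x hx
      rw [D.tr_ι]
      exact t.tau_nonneg hx
  refine ⟨(D.tr y).re, (Complex.le_def.1 h).1, ?_⟩
  apply Complex.ext
  · simp
  · have := (Complex.le_def.1 h).2
    simpa using this.symm

end YD

lemma TrState.tau_mul_le (t : TrState A) (z : A) {x : A} (hx : 0 ≤ x) :
    ‖t.τ (z * x)‖ ≤ ‖z‖ * (t.τ x).re := by
  obtain ⟨b, rfl⟩ := CStarAlgebra.nonneg_iff_eq_star_mul_self.1 hx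
  have h1 : t.τ (z * (star b * b)) = t.τ ((b * z) * star b) := by
    rw [← mul_assoc, t.comm, ← mul_assoc]
  rw [h1]
  refine (t.cs' _ _).trans ?_
  have h2 : t.sq (star b) = (t.τ (star b * b)).re := by
    rw [t.sq_star]; rfl
  have h3 : t.sq (b * z) ≤ ‖z‖ ^ 2 * (t.τ (star b * b)).re := by
    have e1 : t.sq (b * z) = (t.τ ((star b * b) * (z * star z))).re := by
      rw [TrState.sq, star_mul, mul_assoc, t.comm]
      congr 2
      simp only [mul_assoc]
    have h4 : 0 ≤ algebraMap ℝ A (‖z‖ ^ 2) - z * star z := by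
      rw [sub_nonneg]
      have := CStarAlgebra.star_mul_le_algebraMap_norm_sq (a := star z)
      rwa [star_star, norm_star] at this
    have h5 := t.mul_nonneg' hx h4
    rw [mul_sub, map_sub] at h5
    have h6 := (Complex.le_def.1 h5).1
    rw [Complex.sub_re, Complex.zero_re] at h6
    have e2 : (star b * b) * algebraMap ℝ A (‖z‖ ^ 2) = ((‖z‖ ^ 2 : ℝ) : ℂ) • (star b * b) := by
      rw [Algebra.algebraMap_eq_smul_one, mul_smul_comm, mul_one, Complex.coe_smul]
    rw [e2, map_smul, smul_eq_mul, Complex.re_ofReal_mul] at h6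
    rw [e1]; linarith
  rw [h2]
  have h0 : 0 ≤ (t.τ (star b * b)).re := (Complex.le_def.1 (t.nonneg b)).1
  calc Real.sqrt (t.sq (b * z)) * Real.sqrt ((t.τ (star b * b)).re)
      ≤ Real.sqrt (‖z‖ ^ 2 * (t.τ (star b * b)).re) * Real.sqrt ((t.τ (star b * b)).re) := by
        gcongr
    _ = ‖z‖ * (t.τ (star b * b)).re := by
        rw [Real.sqrt_mul (by positivity), Real.sqrt_sq (norm_nonneg _), mul_assoc,
          Real.mul_self_sqrt h0]

namespace YD

variable (D : YD t Y)

lemma tr_pos : ∀ y ∈ D.C, D.tr y = 0 → y = 0 := by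
  intro y hy h0
  have h : ∀ z : A, ∀ y ∈ D.C, ‖D.pair z y‖ ≤ ‖z‖ * (D.tr y).re := by
    intro z
    refine D.C_ind (p := fun y => ‖D.pair z y‖ ≤ ‖z‖ * (D.tr y).re) ?_ ?_
    · exact isClosed_le (by fun_prop) (by fun_prop)
    · intro x hx
      rw [D.pair_ι, D.tr_ι]
      exact t.tau_mul_le z hx
  apply D.ext_pair
  intro z
  rw [map_zero]
  have := h z y hy
  rw [h0, Complex.zero_re, mul_zero] at this
  exact norm_le_zero_iff.1 this

variable [CompleteSpace Y]

/-- extension of bounded operators from `A` to `Y` -/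
lemma exists_ext (f : A →ₗ[ℂ] A) (c : ℝ) (hf : ∀ x, t.n43 (f x) ≤ c * t.n43 x) :
    ∃ T : Y →L[ℂ] Y, ∀ x, T (D.ι x) = D.ι (f x) := by
  let e : A ≃ₗ[ℂ] LinearMap.range D.ι := LinearEquiv.ofInjective D.ι D.ι_injective
  let g : LinearMap.range D.ι →ₗ[ℂ] Y := (D.ι.comp f).comp (e.symm : _ →ₗ[ℂ] A)
  have he : ∀ x, (e x : Y) = D.ι x := fun _ => rfl
  have hg : ∀ y, ‖g y‖ ≤ c * ‖y‖ := by
    intro y
    obtain ⟨x, rfl⟩ := e.surjective y
    change ‖D.ι (f (e.symm (e x)))‖ ≤ c * ‖(e x : Y)‖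
    rw [e.symm_apply_apply, he, D.norm_ι, D.norm_ι]
    exact hf x
  let g' : LinearMap.range D.ι →L[ℂ] Y := LinearMap.mkContinuous g c hg
  have hdense : DenseRange (LinearMap.range D.ι).subtypeL := by
    intro y
    have h1 : Set.range ((LinearMap.range D.ι).subtypeL) = Set.range D.ι := by
      ext z
      constructor
      · rintro ⟨w, rfl⟩; exact w.2
      · rintro ⟨x, rfl⟩; exact ⟨⟨D.ι x, x, rfl⟩, rfl⟩
    rw [h1]
    exact D.dense y
  have hui : IsUniformInducing (LinearMap.range D.ι).subtypeL :=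
    isUniformInducing_val _
  refine ⟨g'.extend (LinearMap.range D.ι).subtypeL, ?_⟩
  intro x
  have := ContinuousLinearMap.extend_eq g' hdense hui (e x)
  refine this.trans ?_
  change D.ι (f (e.symm (e x))) = _
  rw [e.symm_apply_apply]

end YD

end NCLp
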