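import Pool.Agent.NCLp.Dual

open Filter Topology
open scoped ENNReal NNReal ComplexOrder ComplexConjugate

namespace NCLp

variable {A : Type} [CStarAlgebra A] [PartialOrder A] [StarOrderedRing A]

/-- `Y` is the completion of `A` in the `L^{4/3}` norm, with its pairing with `A`. -/
structure YD (t : TrState A) (Y : Type) [NormedAddCommGroup Y] [NormedSpace ℂ Y] where
  ι : A →ₗ[ℂ] Y
  dense : DenseRange ι
  norm_ι : ∀ x, ‖ι x‖ = t.n43 x
  pair : A → (Y →L[ℂ] ℂ)
  pair_ι : ∀ z x, pair z (ι x) = t.τ (z * x)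
  pair_le : ∀ z y, ‖pair z y‖ ≤ t.n4 z * ‖y‖
  norming : ∀ y c, 0 ≤ c → (∀ z, ‖pair z y‖ ≤ c * t.n4 z) → ‖y‖ ≤ c

lemma TrState.n43_nonneg (t : TrState A) (x : A) : 0 ≤ t.n43 x := by
  by_contra h
  push Not at h
  obtain ⟨z, -, hz⟩ := t.norming x (-(t.n43 x) / 2) (by linarith)
  have h1 := t.holder z x
  have h2 : 0 ≤ t.n4 z := t.n4_nonneg z
  have h3 : t.n4 z * t.n43 x ≤ 0 := mul_nonpos_of_nonneg_of_nonpos h2 h.le
  have h4 := norm_nonneg (t.τ (z * x))
  have h5 := t.holder 1 x
  have h6 := norm_nonneg (t.τ (1 * x))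
  rw [t.n4_one, one_mul] at h5
  rw [one_mul] at h6
  rw [one_mul] at h5
  linarith

theorem exists_YD (t : TrState A) : ∃ (Y : Type) (_ : NormedAddCommGroup Y)
    (_ : NormedSpace ℂ Y) (_ : CompleteSpace Y), Nonempty (YD t Y) := by
  set Z1 := {z : A // t.n4 z ≤ 1} with hZ1
  let E := lp (fun _ : Z1 => ℂ) ∞
  have hmem : ∀ x : A, Memℓp (fun z : Z1 => t.τ ((z : A) * x)) ∞ := by
    intro x
    apply memℓp_infty
    refine ⟨t.n43 x, ?_⟩
    rintro _ ⟨z, rfl⟩
    refine (t.holder _ _).trans ?_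
    exact mul_le_of_le_one_left (t.n43_nonneg x) z.2
  let j : A →ₗ[ℂ] E :=
    { toFun := fun x => ⟨fun z : Z1 => t.τ ((z : A) * x), hmem x⟩
      map_add' := by intro x y; ext z; simp [mul_add]
      map_smul' := by intro c x; ext z; simp; rfl }
  have hj : ∀ x (z : Z1), (j x : Z1 → ℂ) z = t.τ ((z : A) * x) := fun _ _ => rfl
  have hnorm : ∀ x, ‖j x‖ = t.n43 x := by
    intro x
    apply le_antisymm
    · apply lp.norm_le_of_forall_le (t.n43_nonneg x)
      intro z
      rw [hj]
      refine (t.holder _ _).trans ?_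
      exact mul_le_of_le_one_left (t.n43_nonneg x) z.2
    · apply le_of_forall_pos_sub_le
      intro ε hε
      obtain ⟨z, hz, h⟩ := t.norming x ε hε
      refine h.trans ?_
      have := lp.norm_apply_le_norm (by simp : (∞ : ℝ≥0∞) ≠ 0) (j x) ⟨z, hz⟩
      exact this
  let Y : Submodule ℂ E := (LinearMap.range j).topologicalClosure
  have hYc : IsClosed (Y : Set E) := Submodule.isClosed_topologicalClosure _
  have hrange : ∀ x, j x ∈ Y := fun x =>
    Submodule.le_topologicalClosure _ (LinearMap.mem_range_self j x)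
  let ι : A →ₗ[ℂ] Y := LinearMap.codRestrict Y j hrange
  have hdense : DenseRange ι := by
    intro y
    rw [mem_closure_iff_seq_limit]
    have hy : (y : E) ∈ closure (Set.range j) := by
      have := y.2
      have h2 : (y : E) ∈ ((LinearMap.range j).topologicalClosure : Set E) := this
      rw [Submodule.topologicalClosure_coe] at h2
      simp only [LinearMap.coe_range] at h2
      exact h2
    obtain ⟨u, hu, hu'⟩ := mem_closure_iff_seq_limit.1 hy
    choose v hv using hu
    refine ⟨fun n => ι (v n), fun n => ⟨v n, rfl⟩, ?_⟩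
    rw [tendsto_subtype_rng]
    have : (fun n => ((ι (v n) : Y) : E)) = u := by
      funext n; exact hv n
    rw [this]; exact hu'
  have hval : ∀ (z : Z1) (y : Y), ‖((y : E) : Z1 → ℂ) z‖ ≤ ‖y‖ := by
    intro z y
    exact lp.norm_apply_le_norm (by simp : (∞ : ℝ≥0∞) ≠ 0) (y : E) z
  let ev : Z1 → (Y →L[ℂ] ℂ) := fun z => LinearMap.mkContinuous
    { toFun := fun y : Y => ((y : E) : Z1 → ℂ) z
      map_add' := by intro x y; simp
      map_smul' := by intro c x; rfl } 1 (by intro y; rw [one_mul]; exact hval z y)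
  have hev : ∀ z y, ev z y = ((y : E) : Z1 → ℂ) z := fun _ _ => rfl
  have hmem1 : ∀ z : A, t.n4 ((((t.n4 z)⁻¹ : ℝ) : ℂ) • z) ≤ 1 := by
    intro z
    rw [t.n4_smul, Complex.norm_real, Real.norm_eq_abs, abs_inv, abs_of_nonneg (t.n4_nonneg z)]
    exact inv_mul_le_one
  let pair : A → (Y →L[ℂ] ℂ) := fun z =>
    ((t.n4 z : ℝ) : ℂ) • ev ⟨(((t.n4 z)⁻¹ : ℝ) : ℂ) • z, hmem1 z⟩
  have hpair : ∀ z x, pair z (ι x) = t.τ (z * x) := by
    intro z x
    change ((t.n4 z : ℝ) : ℂ) * t.τ (((((t.n4 z)⁻¹ : ℝ) : ℂ) • z) * x) = _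
    rw [smul_mul_assoc, map_smul, smul_eq_mul, ← mul_assoc, ← Complex.ofReal_mul]
    by_cases h : t.n4 z = 0
    · have := t.holder z x
      rw [h, zero_mul] at this
      have h0 : t.τ (z * x) = 0 := norm_le_zero_iff.1 this
      rw [h0, mul_zero]
    · rw [mul_inv_cancel₀ h]; simp
  have hle : ∀ z y, ‖pair z y‖ ≤ t.n4 z * ‖y‖ := by
    intro z y
    change ‖((t.n4 z : ℝ) : ℂ) * _‖ ≤ _
    rw [norm_mul, Complex.norm_real, Real.norm_eq_abs, abs_of_nonneg (t.n4_nonneg z)]
    exact mul_le_mul_of_nonneg_left (hval _ _) (t.n4_nonneg z)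
  have hagree : ∀ (z : Z1) (y : Y), ev z y = pair (z : A) y := by
    intro z y
    have hcl : IsClosed {y : Y | ev z y = pair (z : A) y} :=
      isClosed_eq (ev z).continuous (pair z).continuous
    have : (Set.range ι) ⊆ {y : Y | ev z y = pair (z : A) y} := by
      rintro _ ⟨x, rfl⟩
      change t.τ _ = _
      rw [hpair]
    have h2 := (hcl.closure_subset_iff.2 this) (hdense y)
    exact h2
  refine ⟨Y, inferInstance, inferInstance, hYc.completeSpace_coe, ⟨?_⟩⟩
  exact
    { ι := ι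
      dense := hdense
      norm_ι := hnorm
      pair := pair
      pair_ι := hpair
      pair_le := hle
      norming := by
        intro y c hc h
        change ‖(y : E)‖ ≤ c
        apply lp.norm_le_of_forall_le hc
        intro z
        have h1 := h z
        rw [← hagree] at h1
        rw [← hev]
        refine h1.trans ?_
        exact mul_le_of_le_one_right hc z.2 }

end NCLp
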